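import Pool.Graph.R_pool_sql_team_seeded_3997aac3.Q235.SQ.PubQ

/-!
Taming in the mean: the definitions used in the statement.
-/

set_option autoImplicit false

open Set Filter Topology MeasureTheory
open scoped Manifold ContDiff

noncomputable section

namespace Pool.Agent.H33.TMP

open Pool.Agent.Y501.SYP Pool.Agent.Q235.SQP

variable {V W : Type} [NormedAddCommGroup V] [NormedSpace ℝ V] [NormedAddCommGroup W]
  [NormedSpace ℝ W] {X : Type} [TopologicalSpace X] [ChartedSpace V X]

/-- the area measure: the `s`-dimensional Hausdorff measure of the image under `F` -/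
def areaMeasure [MeasurableSpace W] [BorelSpace W] [MeasurableSpace X] (s : ℝ) (F : X → W) :
    Measure X := (μH[s] : Measure W).comap F

/-- The almost complex structures `J k` are bounded and Hölder continuous with exponent `a`, on
compact subsets of the charts and uniformly in `k`. -/
def UniformHolder (a : ℝ) (J : ℕ → End V X) : Prop :=
  ∀ (x₀ : X) (S : Set V), IsCompact S → S ⊆ (chartAt V x₀).target →
    ∃ L : ℝ, ∀ k, ∀ p ∈ S, ∀ v : V, ‖inChart (J k) x₀ p v‖ ≤ L * ‖v‖ ∧
      ∀ q ∈ S, ‖inChart (J k) x₀ p v - inChart (J k) x₀ q v‖ ≤ L * ‖p - q‖ ^ a * ‖v‖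

/-- The two-forms `σ k` tame the almost complex structures `J k` in the mean:
`σ k (v, J k v) ≥ (1 - g k) |v|²` with continuous functions `g k` tending to zero in `L¹`. -/
structure TamesInMean [MeasurableSpace X] (μ : Measure X) (F : X → W) (J : ℕ → End V X)
    (σ : ℕ → Form V X 2) (g : ℕ → X → ℝ) : Prop where
  cont : ∀ k, Continuous (g k)
  low : ∀ k (x : X) (v : TangentSpace 𝓘(ℝ, V) x), (1 - g k x) * len F x v ^ 2 ≤ qd (σ k) (J k) x v
  defect : Tendsto (fun k => ∫ x, |g k x| ∂μ) atTop (𝓝 0)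

/-- The two-forms `σ k` are bounded in `L^p`: `|σ k (u, v)| ≤ h k |u| |v|` with continuous functions
`h k` which are bounded in `L^p`. -/
structure BoundedLp [MeasurableSpace X] (μ : Measure X) (F : X → W) (p : ℝ)
    (σ : ℕ → Form V X 2) (h : ℕ → X → ℝ) : Prop where
  cont : ∀ k, Continuous (h k)
  size : ∀ k (x : X) (u v : TangentSpace 𝓘(ℝ, V) x), |σ k x ![u, v]| ≤ h k x * len F x u * len F x v
  bounded : ∃ B : ℝ, ∀ k, ∫ x, |h k x| ^ p ∂μ ≤ B

/-- The almost complex structure `J₀` is a uniform limit point of the sequence `J k`. -/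
def UniformLimitPoint (F : X → W) (J : ℕ → End V X) (J₀ : End V X) : Prop :=
  ∀ η : ℝ, 0 < η → ∃ᶠ k in atTop, ∀ (x : X) (v : TangentSpace 𝓘(ℝ, V) x),
    len F x (J k x v - J₀ x v) ≤ η * len F x v

end Pool.Agent.H33.TMP
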