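import Pool.Agent.H33.TM.Fin
import Pool.Agent.H33.TM.PubM
import Pool.Graph.R_pool_sql_team_seeded_3997aac3.Q235.SQ.FinalQ

/-!
Taming in the mean: comparison of the definitions.
-/

set_option autoImplicit false

open Set Filter Topology MeasureTheory
open scoped Manifold ContDiff

noncomputable section

namespace Pool.Agent.H33.TMP

open Pool.Agent.Y501.SYP Pool.Agent.Q235.SQP

attribute [local instance] cs mf

section

variable {d m : ℕ} {X : Type} [TopologicalSpace X] [ChartedSpace (ES d) X]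

theorem ac_to (J : End (ES d) X) (hJ : Pool.Agent.Y501.SY.IsAlmostComplex (d := d) (X := X) J) :
    IsAlmostComplex J := by
  refine ⟨hJ.sq, fun x₀ v => ?_⟩
  exact (continuousOn_clm_apply.1 (hJ.cont x₀)) v

theorem uhol_of {a : ℝ} {J : ℕ → End (ES d) X} (h : UniformHolder a J) :
    Pool.Agent.H33.TM.UHol (d := d) (X := X) a J := by
  intro x₀ S hS hSt
  obtain ⟨L, hL⟩ := h x₀ S hS hSt
  refine ⟨|L|, fun k p hp => ⟨?_, fun q hq => ?_⟩⟩
  · refine ContinuousLinearMap.opNorm_le_bound _ (abs_nonneg _) fun v => ?_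
    exact ((hL k p hp v).1).trans (mul_le_mul_of_nonneg_right (le_abs_self _) (norm_nonneg _))
  · refine ContinuousLinearMap.opNorm_le_bound _
      (mul_nonneg (abs_nonneg _) (Real.rpow_nonneg (norm_nonneg _) _)) fun v => ?_
    refine ((hL k p hp v).2 q hq).trans (mul_le_mul_of_nonneg_right ?_ (norm_nonneg _))
    exact mul_le_mul_of_nonneg_right (le_abs_self _) (Real.rpow_nonneg (norm_nonneg _) _)

theorem uhol_to {a : ℝ} {J : ℕ → End (ES d) X}
    (h : Pool.Agent.H33.TM.UHol (d := d) (X := X) a J) : UniformHolder a J := by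
  intro x₀ S hS hSt
  obtain ⟨L, hL⟩ := h x₀ S hS hSt
  refine ⟨L, fun k p hp v => ⟨?_, fun q hq => ?_⟩⟩
  · exact (ContinuousLinearMap.le_opNorm _ v).trans
      (mul_le_mul_of_nonneg_right ((hL k p hp).1) (norm_nonneg _))
  · exact (ContinuousLinearMap.le_opNorm _ v).trans
      (mul_le_mul_of_nonneg_right ((hL k p hp).2 q hq) (norm_nonneg _))

variable [IsManifold 𝓘(ℝ, ES d) ∞ X]

theorem limits (hd : 4 ≤ d) [CompactSpace X] [T2Space X] [MeasurableSpace X] [BorelSpace X]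
    (F : X → ES m) (hF : IsEmb (V := ES d) F) (a p : ℝ) (ha : 0 < a) (ha1 : a ≤ 1)
    (hp : ((d : ℝ) - 2) / a < p) (J : ℕ → End (ES d) X) (hJ : ∀ k, IsAlmostComplex (J k))
    (hH : UniformHolder a J) (σ : ℕ → Form (ES d) X 2)
    (hσ : ∀ k, IsSmooth (σ k) ∧ IsClosedForm (σ k)) (g h : ℕ → X → ℝ)
    (hg : TamesInMean (areaMeasure d F) F J σ g) (hh : BoundedLp (areaMeasure d F) F p σ h) :
    ∃ (J₀ : End (ES d) X) (w : Form (ES d) X 2), IsAlmostComplex J₀ ∧
      UniformHolder a (fun _ => J₀) ∧ UniformLimitPoint F J J₀ ∧ IsTamingSymplectic w J₀ := by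
  obtain ⟨J₀, w, h1, h2, h3, h4, h5, h6⟩ := Pool.Agent.H33.TM.main (d := d) (m := m) (X := X) hd
    (F := F) hF.smooth hF.inj hF.immersion ha ha1 hp (J := J) (fun k => ac_of (J k) (hJ k))
    (uhol_of hH) (σ := σ) (fun k => ⟨(smooth_iff _).1 (hσ k).1, (closed_iff _).1 (hσ k).2⟩)
    hg.cont hh.cont hg.low hh.size hg.defect hh.bounded
  exact ⟨J₀, w, ac_to J₀ h1, uhol_to h2, h3, symp_of ((smooth_iff w).2 h4)
    ((closed_iff w).2 h5) h6⟩

end

end Pool.Agent.H33.TMP
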