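import Pool.Agent.H33.TM.Net

/-!
# The main estimate
-/

set_option autoImplicit false

open Set Filter Topology MeasureTheory
open scoped Manifold ContDiff ENNReal NNReal

noncomputable section

namespace Pool.Agent.H33.TM

open Pool.Agent.Y501.SY Pool.Agent.Y455.SY Pool.Agent.Q235.SZ

section

variable {d m : ℕ} {X : Type} [TopologicalSpace X] [ChartedSpace (E d) X]
  [IsManifold (𝓡 d) ∞ X]

/-- the theorem on small content, without singularities -/
theorem content (hd : 4 ≤ d) [CompactSpace X] [T2Space X] {F : X → E m}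
    (hF : ContMDiff (𝓡 d) (𝓡 m) ∞ F) (hFi : Function.Injective F)
    (hFd : ∀ x, Function.Injective (mfderiv (𝓡 d) (𝓡 m) F x)) {J : End d X}
    (hJ : IsAlmostComplex J) (hol : LocHol J) :
    ∃ ε : ℝ, 0 < ε ∧ ∀ σ : Form d X 2, IsSmooth σ → IsClosedForm σ →
      ∀ (ι : Type) (x : ι → X) (r B : ι → ℝ), (∀ i, 0 < r i) → (∀ i, 0 ≤ B i) →
      (∀ s : Finset ι, ∑ i ∈ s, (1 + B i) * r i ^ 2 ≤ ε) →
      (∀ y, (∀ v : TangentSpace (𝓡 d) y, 1 * nm F y v ^ 2 ≤ σ y ![v, J y v]) ∨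
        ∃ i, ‖F y - F (x i)‖ < r i ∧
          ∀ v : TangentSpace (𝓡 d) y, -B i * nm F y v ^ 2 ≤ σ y ![v, J y v]) →
      ∃ w : Form d X 2, IsSmooth w ∧ IsClosedForm w ∧ ∀ x, TamesAt w J x := by
  obtain ⟨ε, hε, h⟩ := smallMain hd hF hFi hFd hJ hol
  refine ⟨ε, hε, ?_⟩
  intro σ hσ hσc ι x r B hr hB hsum hpos
  have hso : SmoothOff σ ∅ := fun U φ hU hφ _ => hσ U φ hU hφ
  obtain ⟨α, η, w, h1, h2, h3, h4, h5, h6, h7⟩ := h ∅ ∅ isClosed_empty (by simp) finite_empty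
    subset_rfl σ hso (fun U φ hU hφ _ => hσc U φ hU hφ)
    (fun y _ => by
      have h1 : ContDiffOn ℝ ∞ (pb (chartAt (E d) y).symm σ) (chartAt (E d) y).target :=
        hσ _ _ (chartAt (E d) y).open_target contMDiffOn_chart_symm
      have h2 : ContinuousAt (pb (chartAt (E d) y).symm σ) (chartAt (E d) y y) :=
        h1.continuousOn.continuousAt
          ((chartAt (E d) y).open_target.mem_nhds (mem_chart_target (E d) y))
      refine ⟨‖pb (chartAt (E d) y).symm σ (chartAt (E d) y y)‖ + 1, ?_⟩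
      filter_upwards [h2.norm.eventually (gt_mem_nhds (lt_add_one _))] with q hq _
      exact hq.le) (by simp) ι x r B hr hB hsum
    (fun y => by
      rcases hpos y with h | ⟨i, h1, h2⟩
      · exact Or.inl (low_point hF hFd hJ isClosed_empty hso (notMem_empty y) h)
      · exact Or.inr ⟨i, h1, low_point hF hFd hJ isClosed_empty hso (notMem_empty y) h2⟩)
    ∅ isOpen_empty subset_rfl
  exact ⟨w, h4, h5, h6⟩

/-- The area of small balls, uniformly. -/
theorem area_unif [MeasurableSpace X] [BorelSpace X] [CompactSpace X] [T2Space X]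
    {F : X → E m} (hF : Continuous F)
    (hFi : Function.Injective F) {t : Finset X} {r : X → ℝ} (hat : Atl (d := d) F t r) :
    ∃ ρ C : ℝ, 0 < ρ ∧ 0 < C ∧ ∀ s : ℝ, 0 ≤ s → s < ρ → ∀ x : X,
      area d F (FB F x s) ≤ ENNReal.ofReal (C * s ^ d) := by
  classical
  have key : ∀ u : Finset X, u ⊆ t → ∃ ρ C : ℝ, 0 < ρ ∧ 0 < C ∧ ∀ s : ℝ, 0 ≤ s → s < ρ →
      ∀ z ∈ u, ∀ x ∈ (chartAt (E d) z).source,
      chartAt (E d) z x ∈ Metric.closedBall (chartAt (E d) z z) (2 * r z) →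
      area d F (FB F x s) ≤ ENNReal.ofReal (C * s ^ d) := by
    intro u
    induction u using Finset.induction_on with
    | empty =>
      intro _
      exact ⟨1, 1, one_pos, one_pos, by simp⟩
    | insert z u hz ih =>
      intro hut
      obtain ⟨ρ, C, hρ, hC, h⟩ := ih ((Finset.subset_insert z u).trans hut)
      obtain ⟨hr, L, κ, δ₁, hcd⟩ := hat.cd z (hut (Finset.mem_insert_self z u))
      obtain ⟨ρ', C', hρ', hC', h'⟩ := area_ball hF hFi hr hcd.geo
      refine ⟨min ρ ρ', max C C', lt_min hρ hρ', lt_max_of_lt_left hC, ?_⟩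
      intro s hs0 hs z' hz' x hx hxb
      rcases Finset.mem_insert.1 hz' with rfl | hz'
      · refine (h' s hs0 (hs.trans_le (min_le_right _ _)) x hx hxb).trans
          (ENNReal.ofReal_le_ofReal ?_)
        exact mul_le_mul_of_nonneg_right (le_max_right _ _) (by positivity)
      · refine (h s hs0 (hs.trans_le (min_le_left _ _)) z' hz' x hx hxb).trans
          (ENNReal.ofReal_le_ofReal ?_)
        exact mul_le_mul_of_nonneg_right (le_max_left _ _) (by positivity)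
  obtain ⟨ρ, C, hρ, hC, h⟩ := key t subset_rfl
  refine ⟨ρ, C, hρ, hC, fun s hs0 hs x => ?_⟩
  obtain ⟨z, hz, hx, hxb⟩ := hat.cover x
  exact h s hs0 hs z hz x hx (Metric.closedBall_subset_closedBall
    (by linarith [hat.pos z hz]) hxb)

theorem core_thm (hd : 4 ≤ d) [MeasurableSpace X] [BorelSpace X] [CompactSpace X] [T2Space X]
    {F : X → E m} (hF : ContMDiff (𝓡 d) (𝓡 m) ∞ F) (hFi : Function.Injective F)
    (hFd : ∀ x, Function.Injective (mfderiv (𝓡 d) (𝓡 m) F x)) {t : Finset X} {r : X → ℝ}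
    (hat : Atl (d := d) F t r) {M a p B : ℝ} (hM : 0 ≤ M) (ha : 0 < a) (ha1 : a ≤ 1)
    (hp : ((d : ℝ) - 2) / a < p) (hB : 0 ≤ B) {J : End d X} (hJ : IsAlmostComplex J)
    (hol : LocHol J) (hJB : ∀ z ∈ t, JB J z (8 * r z) M a) :
    ∃ γ : ℝ, 0 < γ ∧ ∀ σ : Form d X 2, IsSmooth σ → IsClosedForm σ → ∀ g h : X → ℝ,
      Continuous g → Continuous h → (∀ x, 0 ≤ g x) → (∀ x, 0 ≤ h x) →
      (∀ (x : X) (w : TangentSpace (𝓡 d) x), (1 - g x) * nm F x w ^ 2 ≤ σ x ![w, J x w]) →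
      (∀ (x : X) (u w : TangentSpace (𝓡 d) x), |σ x ![u, w]| ≤ h x * nm F x u * nm F x w) →
      ∫⁻ x, ENNReal.ofReal (g x) ∂(area d F) ≤ ENNReal.ofReal γ →
      ∫⁻ x, ENNReal.ofReal (h x ^ p) ∂(area d F) ≤ ENNReal.ofReal B →
      ∃ w : Form d X 2, IsSmooth w ∧ IsClosedForm w ∧ ∀ x, TamesAt w J x := by
  obtain ⟨ε₀, hε₀, hcontent⟩ := content hd hF hFi hFd hJ hol
  obtain ⟨C, δ₀, hC1, hδ₀, hδ₀1, hreg⟩ := regularize hF hFi hat hM
  obtain ⟨ρ, CV, hρ, hCV, hvol⟩ := area_unif hF.continuous hFi hat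
  have hC0 : 0 < C := one_pos.trans_le hC1
  have hd' : (4 : ℝ) ≤ d := by exact_mod_cast hd
  have hp1 : 1 < p := by
    refine lt_trans ?_ hp
    rw [lt_div_iff₀ ha]
    linarith
  have hexp : 0 < a * p - d + 2 := by
    rw [div_lt_iff₀ ha] at hp
    linarith
  -- the constants
  obtain ⟨R, hR⟩ : ∃ R, R = C + 1 := ⟨_, rfl⟩
  have hR0 : 0 < R := by rw [hR]; linarith
  obtain ⟨D, hD⟩ : ∃ D, D = 16 * C ^ 2 * CV * R ^ d := ⟨_, rfl⟩
  have hD0 : 0 < D := by rw [hD]; positivity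
  obtain ⟨K₁, hK₁⟩ : ∃ K₁, K₁ = 16 * C ^ 2 * D ^ (p - 1) * ((2 * R + 1) ^ m * B) := ⟨_, rfl⟩
  obtain ⟨δ, hδ0, hδ1, hδ2, hδ3, hδ4⟩ : ∃ δ : ℝ, 0 < δ ∧ δ ≤ δ₀ ∧ C * δ ^ a ≤ 1 / 8 ∧
      R * δ < ρ ∧ K₁ * δ ^ (a * p - d + 2) ≤ ε₀ := by
    have hpow : ∀ s : ℝ, 0 < s → Tendsto (fun δ : ℝ => δ ^ s) (𝓝[>] 0) (𝓝 0) := by
      intro s hs
      have h1 := (Real.continuousAt_rpow_const 0 s (Or.inr hs.le)).tendsto
      rw [Real.zero_rpow hs.ne'] at h1
      exact h1.mono_left nhdsWithin_le_nhds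
    have e1 : ∀ᶠ δ : ℝ in 𝓝[>] 0, C * δ ^ a ≤ 1 / 8 := by
      have h1 := (hpow a ha).const_mul C
      rw [mul_zero] at h1
      filter_upwards [h1.eventually (gt_mem_nhds (show (0 : ℝ) < 1 / 8 by norm_num))] with δ h
      exact h.le
    have e2 : ∀ᶠ δ : ℝ in 𝓝[>] 0, K₁ * δ ^ (a * p - d + 2) ≤ ε₀ := by
      have h1 := (hpow _ hexp).const_mul K₁
      rw [mul_zero] at h1
      filter_upwards [h1.eventually (gt_mem_nhds hε₀)] with δ h
      exact h.le
    have e3 : ∀ᶠ δ : ℝ in 𝓝[>] 0, δ < min δ₀ (ρ / R) :=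
      (gt_mem_nhds (lt_min hδ₀ (div_pos hρ hR0))).filter_mono nhdsWithin_le_nhds
    have e4 : ∀ᶠ δ : ℝ in 𝓝[>] 0, 0 < δ := eventually_mem_nhdsWithin
    obtain ⟨δ, h1, h2, h3, h4⟩ := (e1.and (e2.and (e3.and e4))).exists
    refine ⟨δ, h4, h3.le.trans (min_le_left _ _), h1, ?_, h2⟩
    have h5 := h3.trans_le (min_le_right _ _)
    rw [lt_div_iff₀ hR0] at h5
    linarith
  have hδle1 : δ ≤ 1 := hδ1.trans hδ₀1
  have hδa : 0 < δ ^ a := Real.rpow_pos_of_pos hδ0 _
  have hδd : 0 < δ ^ d := by positivity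
  obtain ⟨lam, hlam⟩ : ∃ lam, lam = (δ ^ a * D)⁻¹ := ⟨_, rfl⟩
  have hlam0 : 0 < lam := by rw [hlam]; positivity
  obtain ⟨γ, hγ⟩ : ∃ γ, γ = δ ^ d / (16 * C ^ 2) := ⟨_, rfl⟩
  have hγ0 : 0 < γ := by rw [hγ]; positivity
  refine ⟨γ, hγ0, ?_⟩
  intro σ hσ hσc g h hg hh hg0 hh0 hlow hbdd hIg hIh
  obtain ⟨k₀, hk₀⟩ : ∃ k₀ : X → ℝ, k₀ = fun x => g x + δ ^ a * h x := ⟨_, rfl⟩
  have hnn : ∀ (x : X) (w : TangentSpace (𝓡 d) x), 0 ≤ nm F x w := fun x w => norm_nonneg _
  have hk₀0 : ∀ x, 0 ≤ k₀ x := fun x => by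
    rw [hk₀]
    exact add_nonneg (hg0 x) (mul_nonneg hδa.le (hh0 x))
  have hinit : State F J a δ 1 0 ∅ k₀ k₀ σ := by
    refine ⟨hσ, hσc, ?_, hk₀0, ?_, ?_, ?_, fun x hx => absurd hx (notMem_empty x)⟩
    · rw [hk₀]
      exact hg.add (continuous_const.mul hh)
    · intro x w
      refine le_trans ?_ (hlow x w)
      refine mul_le_mul_of_nonneg_right ?_ (by positivity)
      have h1 : g x ≤ k₀ x := by
        rw [hk₀]
        have := mul_nonneg hδa.le (hh0 x)
        dsimp only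
        linarith
      linarith
    · intro x u w
      refine (hbdd x u w).trans ?_
      refine mul_le_mul_of_nonneg_right (mul_le_mul_of_nonneg_right ?_ (hnn _ _)) (hnn _ _)
      have h1 : δ ^ a * h x ≤ 1 * (δ ^ a + k₀ x) := by
        rw [hk₀]
        dsimp only
        linarith [hg0 x]
      calc h x = δ ^ (-a) * (δ ^ a * h x) := by
            rw [← mul_assoc, ← Real.rpow_add hδ0, neg_add_cancel, Real.rpow_zero, one_mul]
        _ ≤ _ := mul_le_mul_of_nonneg_left h1 (Real.rpow_nonneg hδ0.le _)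
    · intro x s
      rw [ENNReal.ofReal_one, one_mul]
      exact lintegral_mono_set (FB_mono F (by linarith))
  obtain ⟨e, he⟩ : ∃ e, e = 1 / (8 * C) := ⟨_, rfl⟩
  have he0 : 0 < e := by rw [he]; positivity
  have hCe : C * e = 1 / 8 := by rw [he]; field_simp
  obtain ⟨k, σ', hS⟩ := hreg δ hδ0 hδ1 a J ha ha1 hJB k₀ σ hinit e he0
  -- the integrals over small balls
  obtain ⟨P, hP⟩ : ∃ P : X → ℝ, P = fun x =>
    (∫⁻ y in FB F x (R * δ), ENNReal.ofReal (h y ^ p) ∂(area d F)).toReal := ⟨_, rfl⟩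
  have hPtop : ∀ x, ∫⁻ y in FB F x (R * δ), ENNReal.ofReal (h y ^ p) ∂(area d F) ≠ ⊤ := fun x =>
    (((setLIntegral_le_lintegral _ _).trans hIh).trans_lt ENNReal.ofReal_lt_top).ne
  have hP0 : ∀ x, 0 ≤ P x := fun x => by rw [hP]; exact ENNReal.toReal_nonneg
  have hPeq : ∀ x, ∫⁻ y in FB F x (R * δ), ENNReal.ofReal (h y ^ p) ∂(area d F) =
      ENNReal.ofReal (P x) := fun x => by rw [hP]; exact (ENNReal.ofReal_toReal (hPtop x)).symm
  have hlp : 0 < lam ^ (1 - p) := Real.rpow_pos_of_pos hlam0 _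
  have hpt : ∀ y, h y ≤ lam + lam ^ (1 - p) * h y ^ p := by
    intro y
    have hhp : 0 ≤ h y ^ p := Real.rpow_nonneg (hh0 y) _
    rcases le_or_gt (h y) lam with h1 | h1
    · have := mul_nonneg hlp.le hhp
      linarith
    · have hy0 : 0 < h y := hlam0.trans h1
      have h2 : h y ^ (1 - p) ≤ lam ^ (1 - p) :=
        Real.rpow_le_rpow_of_nonpos hlam0 h1.le (by linarith)
      have h3 : h y ^ (1 - p) * h y ^ p = h y := by
        rw [← Real.rpow_add hy0, sub_add_cancel, Real.rpow_one]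
      have h4 := mul_le_mul_of_nonneg_right h2 hhp
      linarith
  have hI : ∀ x, ∫⁻ y in FB F x (R * δ), ENNReal.ofReal (k₀ y) ∂(area d F) ≤
      ENNReal.ofReal (γ + (δ ^ a * lam * (CV * (R * δ) ^ d) + δ ^ a * lam ^ (1 - p) * P x)) := by
    intro x
    have h1 : ∀ y, ENNReal.ofReal (k₀ y) ≤ ENNReal.ofReal (g y) + (ENNReal.ofReal (δ ^ a * lam) +
        ENNReal.ofReal (δ ^ a * lam ^ (1 - p)) * ENNReal.ofReal (h y ^ p)) := by
      intro y
      rw [← ENNReal.ofReal_mul (by positivity), ← ENNReal.ofReal_add (by positivity)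
        (mul_nonneg (by positivity) (Real.rpow_nonneg (hh0 y) _)),
        ← ENNReal.ofReal_add (hg0 y) (add_nonneg (by positivity)
        (mul_nonneg (by positivity) (Real.rpow_nonneg (hh0 y) _)))]
      refine ENNReal.ofReal_le_ofReal ?_
      rw [hk₀]
      have h2 := mul_le_mul_of_nonneg_left (hpt y) hδa.le
      dsimp only
      nlinarith
    have m1 : Measurable fun y => ENNReal.ofReal (g y) := ENNReal.measurable_ofReal.comp hg.measurable
    have m2 : Measurable fun y => ENNReal.ofReal (h y ^ p) :=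
      ENNReal.measurable_ofReal.comp (hh.measurable.pow_const p)
    calc _ ≤ ∫⁻ y in FB F x (R * δ), (ENNReal.ofReal (g y) + (ENNReal.ofReal (δ ^ a * lam) +
          ENNReal.ofReal (δ ^ a * lam ^ (1 - p)) * ENNReal.ofReal (h y ^ p))) ∂(area d F) :=
          lintegral_mono h1
      _ = ∫⁻ y in FB F x (R * δ), ENNReal.ofReal (g y) ∂(area d F) +
          (ENNReal.ofReal (δ ^ a * lam) * area d F (FB F x (R * δ)) +
          ENNReal.ofReal (δ ^ a * lam ^ (1 - p)) * ENNReal.ofReal (P x)) := by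
          rw [lintegral_add_left m1, lintegral_add_left measurable_const, setLIntegral_const,
            lintegral_const_mul _ m2, hPeq]
      _ ≤ ENNReal.ofReal γ + (ENNReal.ofReal (δ ^ a * lam) * ENNReal.ofReal (CV * (R * δ) ^ d) +
          ENNReal.ofReal (δ ^ a * lam ^ (1 - p)) * ENNReal.ofReal (P x)) := by
          refine add_le_add ((setLIntegral_le_lintegral _ _).trans hIg) (add_le_add ?_ le_rfl)
          exact mul_le_mul_right (hvol _ (by positivity) hδ3 x) _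
      _ = _ := by
          rw [← ENNReal.ofReal_mul (by positivity), ← ENNReal.ofReal_mul (by positivity),
            ← ENNReal.ofReal_add (by positivity) (mul_nonneg (by positivity) (hP0 x)),
            ← ENNReal.ofReal_add hγ0.le (add_nonneg (by positivity)
              (mul_nonneg (by positivity) (hP0 x)))]
  obtain ⟨Q, hQ⟩ : ∃ Q : X → ℝ, Q = fun x => C ^ 2 * (δ ^ d)⁻¹ * (δ ^ a * lam ^ (1 - p) * P x) :=
    ⟨_, rfl⟩
  have hQ0 : ∀ x, 0 ≤ Q x := fun x => by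
    rw [hQ]
    exact mul_nonneg (by positivity) (mul_nonneg (by positivity) (hP0 x))
  have hG : ∀ x y, ‖F y - F x‖ ≤ δ → C * (δ ^ a + k y) ≤ 3 / 8 + Q x := by
    intro x y hxy
    have h1 := hS.pt y (mem_univ y)
    have h2 : FB F y (C * δ) ⊆ FB F x (R * δ) := by
      refine (FB_sub F hxy).trans (FB_mono F ?_)
      rw [hR]
      linarith
    have h3 : ENNReal.ofReal (k y) ≤ ENNReal.ofReal (C * (δ ^ d)⁻¹ *
        (γ + (δ ^ a * lam * (CV * (R * δ) ^ d) + δ ^ a * lam ^ (1 - p) * P x)) + e) := by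
      have h4 : 0 ≤ γ + (δ ^ a * lam * (CV * (R * δ) ^ d) + δ ^ a * lam ^ (1 - p) * P x) :=
        add_nonneg hγ0.le (add_nonneg (by positivity) (mul_nonneg (by positivity) (hP0 x)))
      rw [ENNReal.ofReal_add (mul_nonneg (by positivity) h4) he0.le,
        ENNReal.ofReal_mul (by positivity)]
      refine h1.trans (add_le_add (mul_le_mul_right ?_ _) le_rfl)
      exact (lintegral_mono_set h2).trans (hI x)
    rw [ENNReal.ofReal_le_ofReal_iff (by
      have h4 : 0 ≤ γ + (δ ^ a * lam * (CV * (R * δ) ^ d) + δ ^ a * lam ^ (1 - p) * P x) :=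
        add_nonneg hγ0.le (add_nonneg (by positivity) (mul_nonneg (by positivity) (hP0 x)))
      exact add_nonneg (mul_nonneg (by positivity) h4) he0.le)] at h3
    have h5 : C * (C * (δ ^ d)⁻¹ * γ) = 1 / 16 := by
      rw [hγ]
      field_simp
    have h6 : C * (C * (δ ^ d)⁻¹ * (δ ^ a * lam * (CV * (R * δ) ^ d))) = 1 / 16 := by
      rw [hlam, hD, mul_pow]
      field_simp
    have h7 : C * (C * (δ ^ d)⁻¹ * (δ ^ a * lam ^ (1 - p) * P x)) = Q x := by
      rw [hQ]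
      ring
    have h8 := mul_le_mul_of_nonneg_left h3 hC0.le
    calc C * (δ ^ a + k y) ≤ C * δ ^ a + C * (C * (δ ^ d)⁻¹ *
        (γ + (δ ^ a * lam * (CV * (R * δ) ^ d) + δ ^ a * lam ^ (1 - p) * P x)) + e) := by linarith
      _ = C * δ ^ a + (C * (C * (δ ^ d)⁻¹ * γ) +
          C * (C * (δ ^ d)⁻¹ * (δ ^ a * lam * (CV * (R * δ) ^ d))) +
          C * (C * (δ ^ d)⁻¹ * (δ ^ a * lam ^ (1 - p) * P x))) + C * e := by ring
      _ = C * δ ^ a + (1 / 16 + 1 / 16 + Q x) + 1 / 8 := by rw [h5, h6, h7, hCe]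
      _ ≤ _ := by linarith
  -- the net
  obtain ⟨S, hSA, hSsep, hSnet⟩ := exists_net F δ {x | 1 / 2 < C * (δ ^ a + k x)}
  have hQS : ∀ x ∈ S, 1 / 8 ≤ Q x := by
    intro x hx
    have h1 : 1 / 2 < C * (δ ^ a + k x) := hSA hx
    have h2 := hG x x (by rw [sub_self, norm_zero]; exact hδ0.le)
    linarith
  have hsum : ∀ s : Finset X, (s : Set X) ⊆ S → ∑ x ∈ s, P x ≤ (2 * R + 1) ^ m * B := by
    intro s hs
    have h1 := sum_overlap (area d F) hδ0 hR0.le (s := s)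
      (fun x hx y hy hxy => hSsep x (hs hx) y (hs hy) hxy)
      (fun x => (FB_closed hF.continuous x _).measurableSet)
      (φ := fun y => ENNReal.ofReal (h y ^ p))
      (ENNReal.measurable_ofReal.comp (hh.measurable.pow_const p))
    simp only [hPeq] at h1
    rw [← ENNReal.ofReal_sum_of_nonneg fun x _ => hP0 x] at h1
    have h2 : ENNReal.ofReal (∑ x ∈ s, P x) ≤ ENNReal.ofReal ((2 * R + 1) ^ m * B) := by
      rw [ENNReal.ofReal_mul (by positivity)]
      exact h1.trans (mul_le_mul_right hIh _)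
    rwa [ENNReal.ofReal_le_ofReal_iff (by positivity)] at h2
  have hlampow : lam ^ (1 - p) = δ ^ (a * (p - 1)) * D ^ (p - 1) := by
    rw [hlam, Real.inv_rpow (by positivity), ← Real.rpow_neg (by positivity),
      Real.mul_rpow hδa.le hD0.le, ← Real.rpow_mul hδ0.le]
    congr 2 <;> ring
  refine hcontent ((2 : ℝ) • σ') (hS.smooth.smul 2) ?_ S (fun i => i.1) (fun _ => δ)
    (fun i => 3 / 4 + 2 * Q i.1) (fun _ => hδ0) (fun i => by linarith [hQ0 i.1]) ?_ ?_
  · have h1 : IsD ((2 : ℝ) • σ') ((2 : ℝ) • (0 : Form d X 3)) := hS.closed.smul 2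
    rwa [smul_zero] at h1
  · intro s
    have h1 : ∑ i ∈ s, (1 + (3 / 4 + 2 * Q i.1)) * δ ^ 2 ≤ ∑ i ∈ s, (16 * Q i.1) * δ ^ 2 := by
      refine Finset.sum_le_sum fun i _ => mul_le_mul_of_nonneg_right ?_ (by positivity)
      have := hQS i.1 i.2
      linarith
    refine h1.trans ?_
    have h2 : ∑ i ∈ s, P i.1 ≤ (2 * R + 1) ^ m * B := by
      have h3 := hsum (s.map (Function.Embedding.subtype _)) (by
        intro x hx
        simp only [Finset.coe_map, mem_image] at hx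
        obtain ⟨i, _, rfl⟩ := hx
        exact i.2)
      rwa [Finset.sum_map] at h3
    have h3 : ∑ i ∈ s, (16 * Q i.1) * δ ^ 2 =
        16 * C ^ 2 * (δ ^ d)⁻¹ * (δ ^ a * lam ^ (1 - p)) * δ ^ 2 * ∑ i ∈ s, P i.1 := by
      rw [Finset.mul_sum]
      refine Finset.sum_congr rfl fun i _ => ?_
      rw [hQ]
      ring
    rw [h3]
    refine le_trans ?_ hδ4
    calc _ ≤ 16 * C ^ 2 * (δ ^ d)⁻¹ * (δ ^ a * lam ^ (1 - p)) * δ ^ 2 *
          ((2 * R + 1) ^ m * B) := mul_le_mul_of_nonneg_left h2 (by positivity)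
      _ = K₁ * ((δ ^ d)⁻¹ * δ ^ a * δ ^ (a * (p - 1)) * δ ^ 2) := by
          rw [hlampow, hK₁]
          ring
      _ = K₁ * δ ^ (a * p - d + 2) := by
          congr 1
          have e1 : (δ ^ d)⁻¹ = δ ^ (-(d : ℝ)) := by
            rw [Real.rpow_neg hδ0.le, Real.rpow_natCast]
          have e2 : δ ^ 2 = δ ^ (2 : ℝ) := by norm_num
          rw [e1, e2, ← Real.rpow_add hδ0, ← Real.rpow_add hδ0, ← Real.rpow_add hδ0]
          congr 1
          ring
  · intro y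
    have hval : ∀ v : TangentSpace (𝓡 d) y,
        ((2 : ℝ) • σ') y ![v, J y v] = 2 * σ' y ![v, J y v] := fun v => rfl
    by_cases hy : y ∈ {x | 1 / 2 < C * (δ ^ a + k x)}
    · right
      have h1 : ∃ x ∈ S, ‖F y - F x‖ < δ := by
        by_cases hyS : y ∈ S
        · exact ⟨y, hyS, by rw [sub_self, norm_zero]; exact hδ0⟩
        · exact hSnet y hy hyS
      obtain ⟨x, hx, hxy⟩ := h1
      refine ⟨⟨x, hx⟩, hxy, fun v => ?_⟩
      rw [hval]
      have h2 := hS.low y v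
      have h3 := hG x y hxy.le
      have h4 : -(3 / 4 + 2 * Q x) * nm F y v ^ 2 ≤
          (2 * (1 - C * (δ ^ a + k y))) * nm F y v ^ 2 :=
        mul_le_mul_of_nonneg_right (by linarith) (by positivity)
      dsimp only
      linarith
    · left
      intro v
      rw [hval]
      have h2 := hS.low y v
      have h3 : C * (δ ^ a + k y) ≤ 1 / 2 := not_lt.1 hy
      have h4 : 1 * nm F y v ^ 2 ≤ (2 * (1 - C * (δ ^ a + k y))) * nm F y v ^ 2 :=
        mul_le_mul_of_nonneg_right (by linarith) (by positivity)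
      linarith

end

end Pool.Agent.H33.TM
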