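import Pool.Agent.H33.TM.Lim

/-!
# Sequences of closed two-forms which are positive in the mean
-/

set_option autoImplicit false

open Set Filter Topology MeasureTheory
open scoped Manifold ContDiff ENNReal NNReal

noncomputable section

namespace Pool.Agent.H33.TM

open Pool.Agent.Y501.SY Pool.Agent.Y455.SY Pool.Agent.Q235.SZ

section

variable {d m : ℕ} {X : Type} [TopologicalSpace X] [ChartedSpace (E d) X]
  [IsManifold (𝓡 d) ∞ X]

theorem area_finite [MeasurableSpace X] [BorelSpace X] [CompactSpace X] [T2Space X]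
    {F : X → E m} (hF : Continuous F)
    (hFi : Function.Injective F) {t : Finset X} {r : X → ℝ} (hat : Atl (d := d) F t r) :
    area d F univ < ⊤ := by
  obtain ⟨ρ, C, hρ, hC, h⟩ := area_unif hF hFi hat
  obtain ⟨u, hu⟩ := (isCompact_univ (X := X)).elim_nhds_subcover
    (fun x => FB F x (ρ / 2)) (fun x _ => by
      have h1 : ∀ᶠ y in 𝓝 x, ‖F y - F x‖ < ρ / 2 := by
        have h2 : Tendsto (fun y => ‖F y - F x‖) (𝓝 x) (𝓝 ‖F x - F x‖) :=
          ((hF.sub continuous_const).norm).tendsto x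
        rw [sub_self, norm_zero] at h2
        exact h2.eventually (gt_mem_nhds (half_pos hρ))
      filter_upwards [h1] with y hy
      exact hy.le)
  refine (measure_mono hu.2).trans_lt ((measure_biUnion_finset_le _ _).trans_lt ?_)
  refine ENNReal.sum_lt_top.2 fun x _ => ?_
  exact (h (ρ / 2) (half_pos hρ).le (half_lt_self hρ) x).trans_lt ENNReal.ofReal_lt_top

theorem lintegral_eq [MeasurableSpace X] [BorelSpace X] [CompactSpace X] [T2Space X]
    {F : X → E m} (hF : Continuous F)
    (hFi : Function.Injective F) {t : Finset X} {r : X → ℝ} (hat : Atl (d := d) F t r)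
    {k : X → ℝ} (hk : Continuous k) (hk0 : ∀ x, 0 ≤ k x) :
    ∫⁻ x, ENNReal.ofReal (k x) ∂(area d F) = ENNReal.ofReal (∫ x, k x ∂(area d F)) := by
  have hfin : IsFiniteMeasure (area d F) := ⟨area_finite hF hFi hat⟩
  have hint : Integrable k (area d F) := by
    have h1 := hk.continuousOn.integrableOn_compact (μ := area d F) (isCompact_univ (X := X))
    rwa [integrableOn_univ] at h1
  exact (ofReal_integral_eq_lintegral_ofReal hint (Eventually.of_forall hk0)).symm

theorem main (hd : 4 ≤ d) [MeasurableSpace X] [BorelSpace X] [CompactSpace X] [T2Space X]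
    {F : X → E m} (hF : ContMDiff (𝓡 d) (𝓡 m) ∞ F) (hFi : Function.Injective F)
    (hFd : ∀ x, Function.Injective (mfderiv (𝓡 d) (𝓡 m) F x)) {a p : ℝ} (ha : 0 < a)
    (ha1 : a ≤ 1) (hp : ((d : ℝ) - 2) / a < p) {J : ℕ → End d X}
    (hac : ∀ k, IsAlmostComplex (J k)) (hJ : UHol a J) {σ : ℕ → Form d X 2}
    (hσ : ∀ k, IsSmooth (σ k) ∧ IsClosedForm (σ k)) {g h : ℕ → X → ℝ}
    (hg : ∀ k, Continuous (g k)) (hh : ∀ k, Continuous (h k))
    (hlow : ∀ k (x : X) (w : TangentSpace (𝓡 d) x),
      (1 - g k x) * nm F x w ^ 2 ≤ σ k x ![w, J k x w])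
    (hbdd : ∀ k (x : X) (u w : TangentSpace (𝓡 d) x),
      |σ k x ![u, w]| ≤ h k x * nm F x u * nm F x w)
    (hg0 : Tendsto (fun k => ∫ x, |g k x| ∂(area d F)) atTop (𝓝 0))
    (hh0 : ∃ B, ∀ k, ∫ x, |h k x| ^ p ∂(area d F) ≤ B) :
    ∃ (J₀ : End d X) (w : Form d X 2), IsAlmostComplex J₀ ∧ UHol a (fun _ => J₀) ∧
      (∀ η : ℝ, 0 < η → ∃ᶠ k in atTop, ∀ (x : X) (w : TangentSpace (𝓡 d) x),
        nm F x (J k x w - J₀ x w) ≤ η * nm F x w) ∧
      IsSmooth w ∧ IsClosedForm w ∧ ∀ x, TamesAt w J₀ x := by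
  classical
  obtain ⟨B, hB⟩ := hh0
  obtain ⟨t, r, hat⟩ := exists_atl (d := d) hF hFi hFd
  obtain ⟨𝒰, h𝒰⟩ : ∃ 𝒰 : Ultrafilter ℕ, (𝒰 : Filter ℕ) ≤ atTop :=
    ⟨Ultrafilter.of atTop, Ultrafilter.of_le atTop⟩
  obtain ⟨J₀, hJ₀⟩ := exists_lim hJ 𝒰
  obtain ⟨hJ₀ac, hJ₀b⟩ := lim_ac ha hJ hac hJ₀
  have hhol : UHol a (fun _ => J₀) := by
    intro x₀ S hS hSt
    obtain ⟨L, hL⟩ := hJ x₀ S hS hSt
    exact ⟨L, fun _ => hJ₀b x₀ S L hL⟩
  have hloc : LocHol J₀ := by
    intro x
    obtain ⟨s, hs, hst⟩ := Metric.nhds_basis_closedBall.mem_iff.1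
      ((chartAt (E d) x).open_target.mem_nhds (mem_chart_target (E d) x))
    obtain ⟨L, hL⟩ := hhol x _ (isCompact_closedBall _ s) hst
    refine ⟨a, L, s, ha, hs, fun q hq q' hq' v => ?_⟩
    have h1 := (hL 0 q (Metric.ball_subset_closedBall hq)).2 q' (Metric.ball_subset_closedBall hq')
    have h2 := ContinuousLinearMap.le_opNorm (inChart J₀ x q - inChart J₀ x q') v
    rw [sub_apply] at h2
    exact h2.trans (mul_le_mul_of_nonneg_right h1 (norm_nonneg _))
  -- a common constant
  have hM : ∀ u : Finset X, u ⊆ t → ∃ M : ℝ, 0 ≤ M ∧ ∀ z ∈ u, JB J₀ z (8 * r z) M a := by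
    intro u
    induction u using Finset.induction_on with
    | empty => exact fun _ => ⟨0, le_rfl, by simp⟩
    | insert z u hz ih =>
      intro hut
      obtain ⟨M, hM0, hM⟩ := ih ((Finset.subset_insert z u).trans hut)
      obtain ⟨hr, L, κ, δ₁, hcd⟩ := hat.cd z (hut (Finset.mem_insert_self z u))
      obtain ⟨L', hL'⟩ := hhol z _ (isCompact_closedBall _ (8 * r z)) hcd.geo.sub
      refine ⟨max M L', le_max_of_le_left hM0, fun z' hz' => ?_⟩
      rcases Finset.mem_insert.1 hz' with rfl | hz'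
      · refine ⟨fun q hq => ((hL' 0 q hq).1).trans (le_max_right _ _), fun q hq q' hq' => ?_⟩
        refine ((hL' 0 q hq).2 q' hq').trans ?_
        exact mul_le_mul_of_nonneg_right (le_max_right _ _) (Real.rpow_nonneg (norm_nonneg _) _)
      · refine ⟨fun q hq => ((hM z' hz').bdd q hq).trans (le_max_left _ _),
          fun q hq q' hq' => ?_⟩
        refine ((hM z' hz').hol q hq q' hq').trans ?_
        exact mul_le_mul_of_nonneg_right (le_max_left _ _) (Real.rpow_nonneg (norm_nonneg _) _)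
  obtain ⟨M, hM0, hM⟩ := hM t subset_rfl
  have hfin : IsFiniteMeasure (area d F) := ⟨area_finite hF.continuous hFi hat⟩
  have hd' : (4 : ℝ) ≤ d := by exact_mod_cast hd
  have hp1 : 1 < p := by
    refine lt_trans ?_ hp
    rw [lt_div_iff₀ ha]
    linarith
  obtain ⟨γ, hγ, hcore⟩ := core_thm hd hF hFi hFd hat (B := |B|) hM0 ha ha1 hp (abs_nonneg B)
    hJ₀ac hloc hM
  have hint : ∀ {k : X → ℝ}, Continuous k → Integrable k (area d F) := by
    intro k hk
    have h1 := hk.continuousOn.integrableOn_compact (μ := area d F) (isCompact_univ (X := X))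
    rwa [integrableOn_univ] at h1
  -- the first powers
  obtain ⟨N, hN⟩ : ∃ N, N = (area d F).real univ + |B| + 1 := ⟨_, rfl⟩
  have hN0 : 0 < N := by
    rw [hN]
    have := measureReal_nonneg (μ := area d F) (s := univ)
    have := abs_nonneg B
    linarith
  have hcp : ∀ k, Continuous fun x => |h k x| ^ p := fun k =>
    (hh k).abs.rpow_const fun x => Or.inr (by linarith)
  have hh1 : ∀ k, ∫ x, |h k x| ∂(area d F) ≤ N := by
    intro k
    have h1 : ∀ x, |h k x| ≤ 1 + |h k x| ^ p := by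
      intro x
      rcases le_or_gt |h k x| 1 with h2 | h2
      · have := Real.rpow_nonneg (abs_nonneg (h k x)) p
        linarith
      · have := Real.rpow_le_rpow_of_exponent_le h2.le hp1.le
        rw [Real.rpow_one] at this
        linarith
    have h2 : ∫ x, |h k x| ∂(area d F) ≤ ∫ x, (1 + |h k x| ^ p) ∂(area d F) :=
      integral_mono (hint (hh k).abs) (hint (continuous_const.add (hcp k))) h1
    rw [integral_add (integrable_const _) (hint (hcp k)), integral_const, smul_eq_mul,
      mul_one] at h2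
    have h3 := hB k
    have h4 := le_abs_self B
    rw [hN]
    linarith
  have hev : ∀ᶠ k in (𝒰 : Filter ℕ), (∀ (x : X) (w : TangentSpace (𝓡 d) x),
      nm F x (J k x w - J₀ x w) ≤ γ / (2 * N) * nm F x w) ∧
      ∫ x, |g k x| ∂(area d F) ≤ γ / 2 := by
    refine (lim_nm hF hat ha hJ hJ₀ (by positivity)).and ?_
    filter_upwards [(hg0.mono_left h𝒰).eventually (gt_mem_nhds (half_pos hγ))] with k hk
    exact hk.le
  obtain ⟨k, hk1, hk2⟩ := hev.exists
  obtain ⟨w, hw⟩ := hcore (σ k) (hσ k).1 (hσ k).2 (fun x => |g k x| + γ / (2 * N) * |h k x|)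
    (fun x => |h k x|) ((hg k).abs.add (continuous_const.mul (hh k).abs)) (hh k).abs
    (fun x => by positivity) (fun x => abs_nonneg _) (fun x w => by
      have e1 := hlow k x w
      have e2 : σ k x ![w, J k x w] = σ k x ![w, J₀ x w] + σ k x ![w, J k x w - J₀ x w] := by
        rw [← map_add2]
        congr 2
        have : J₀ x w + (J k x w - J₀ x w) = J k x w := by abel
        rw [this]
      have e3 := (abs_le.1 (hbdd k x w (J k x w - J₀ x w))).2
      have hn : 0 ≤ nm F x w := norm_nonneg _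
      have hn' : 0 ≤ nm F x (J k x w - J₀ x w) := norm_nonneg _
      have e4 : h k x * nm F x w * nm F x (J k x w - J₀ x w) ≤
          |h k x| * nm F x w * (γ / (2 * N) * nm F x w) := by
        refine mul_le_mul ?_ (hk1 x w) hn' (by positivity)
        exact mul_le_mul_of_nonneg_right (le_abs_self _) hn
      have e5 : (1 - |g k x|) * nm F x w ^ 2 ≤ (1 - g k x) * nm F x w ^ 2 :=
        mul_le_mul_of_nonneg_right (by linarith [le_abs_self (g k x)]) (by positivity)
      have e6 : (1 - (|g k x| + γ / (2 * N) * |h k x|)) * nm F x w ^ 2 =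
          (1 - |g k x|) * nm F x w ^ 2 - |h k x| * nm F x w * (γ / (2 * N) * nm F x w) := by
        ring
      rw [e6]
      linarith) (fun x u w => by
      refine (hbdd k x u w).trans ?_
      have hn : 0 ≤ nm F x w := norm_nonneg _
      have hn' : 0 ≤ nm F x u := norm_nonneg _
      exact mul_le_mul_of_nonneg_right (mul_le_mul_of_nonneg_right (le_abs_self _) hn') hn)
    (by
      rw [lintegral_eq hF.continuous hFi hat (k := fun x => |g k x| + γ / (2 * N) * |h k x|)
        ((hg k).abs.add (continuous_const.mul (hh k).abs)) (fun x => by positivity)]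
      refine ENNReal.ofReal_le_ofReal ?_
      have e0 : ∫ x, (|g k x| + γ / (2 * N) * |h k x|) ∂(area d F) =
          ∫ x, |g k x| ∂(area d F) + γ / (2 * N) * ∫ x, |h k x| ∂(area d F) := by
        rw [← integral_const_mul]
        exact integral_add (hint (hg k).abs) ((hint (hh k).abs).const_mul _)
      rw [e0]
      have e1 : γ / (2 * N) * ∫ x, |h k x| ∂(area d F) ≤ γ / (2 * N) * N :=
        mul_le_mul_of_nonneg_left (hh1 k) (by positivity)
      have e2 : γ / (2 * N) * N = γ / 2 := by field_simp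
      linarith)
    (by
      rw [lintegral_eq hF.continuous hFi hat (hcp k)
        (fun x => Real.rpow_nonneg (abs_nonneg _) _)]
      exact ENNReal.ofReal_le_ofReal ((hB k).trans (le_abs_self B)))
  refine ⟨J₀, w, hJ₀ac, hhol, fun η hη => ?_, hw⟩
  have h1 := (lim_nm hF hat ha hJ hJ₀ hη).frequently
  exact h1.filter_mono h𝒰

end

end Pool.Agent.H33.TM
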