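import Pool.Agent.H33.TM.Tr

/-!
# An embedding in a chart
-/

set_option autoImplicit false

open Set Filter Topology MeasureTheory
open scoped Manifold ContDiff

noncomputable section

namespace Pool.Agent.H33.TM

open Pool.Agent.Y501.SY Pool.Agent.Y455.SY Pool.Agent.Q235.SZ

section

variable {d m : ℕ}

theorem exists_anti {G : E d → E m} {T : Set (E d)} (hT : IsOpen T) (hG : ContDiffOn ℝ ∞ G T)
    (hinj : InjOn G T) (himm : ∀ p ∈ T, ∃ a : ℝ, 0 < a ∧ ∀ v, a * ‖v‖ ≤ ‖fderiv ℝ G p v‖)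
    {K : Set (E d)} (hK : IsCompact K) (hKT : K ⊆ T) :
    ∃ Λ : ℝ, 0 < Λ ∧ ∀ p ∈ K, ∀ q ∈ K, ‖p - q‖ ≤ Λ * ‖G p - G q‖ := by
  have key := (hK.prod hK).induction_on (p := fun S => ∃ Λ : ℝ, 0 < Λ ∧ ∀ w ∈ S,
    w ∈ K ×ˢ K → ‖w.1 - w.2‖ ≤ Λ * ‖G w.1 - G w.2‖)
    ⟨1, one_pos, by simp⟩
    (fun S S' hSS' ⟨Λ, hΛ, h⟩ => ⟨Λ, hΛ, fun w hw => h w (hSS' hw)⟩)
    (fun S S' ⟨Λ, hΛ, h⟩ ⟨Λ', hΛ', h'⟩ => ⟨max Λ Λ', lt_max_of_lt_left hΛ, fun w hw hwK => by
      rcases hw with hw | hw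
      · exact (h w hw hwK).trans (mul_le_mul_of_nonneg_right (le_max_left _ _) (norm_nonneg _))
      · exact (h' w hw hwK).trans (mul_le_mul_of_nonneg_right (le_max_right _ _) (norm_nonneg _))⟩)
    ?_
  · obtain ⟨Λ, hΛ, h⟩ := key
    exact ⟨Λ, hΛ, fun p hp q hq => h (p, q) ⟨hp, hq⟩ ⟨hp, hq⟩⟩
  · rintro ⟨p, q⟩ ⟨hp, hq⟩
    dsimp only at hp hq
    by_cases hpq : p = q
    · subst hpq
      obtain ⟨a, ha, hlow⟩ := himm p (hKT hp)
      have hG4 : HasStrictFDerivAt G (fderiv ℝ G p) p :=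
        (hG.contDiffAt (hT.mem_nhds (hKT hp))).hasStrictFDerivAt (by simp)
      have h5 := hG4.isLittleO.def (half_pos ha)
      refine ⟨_, mem_nhdsWithin_of_mem_nhds h5, 2 / a, by positivity, ?_⟩
      rintro ⟨x, y⟩ hxy -
      have h7 : ‖G x - G y - fderiv ℝ G p (x - y)‖ ≤ a / 2 * ‖x - y‖ := hxy
      have h8 := hlow (x - y)
      have h9 : ‖fderiv ℝ G p (x - y)‖ ≤ ‖G x - G y‖ + ‖G x - G y - fderiv ℝ G p (x - y)‖ := by
        have := norm_sub_le (G x - G y) (G x - G y - fderiv ℝ G p (x - y))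
        rwa [sub_sub_cancel] at this
      have h10 : a / 2 * ‖x - y‖ ≤ ‖G x - G y‖ := by linarith
      dsimp only
      rw [div_mul_eq_mul_div, le_div_iff₀ ha]
      linarith
    · have hne : G p ≠ G q := fun h => hpq (hinj (hKT hp) (hKT hq) h)
      have hpos : 0 < ‖G p - G q‖ := norm_pos_iff.2 (sub_ne_zero.2 hne)
      have hc : ContinuousWithinAt (fun w : E d × E d => ‖G w.1 - G w.2‖) (K ×ˢ K) (p, q) := by
        have h1 : ContinuousWithinAt (fun w : E d × E d => G w.1) (K ×ˢ K) (p, q) :=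
          ((hG.continuousOn.mono hKT).continuousWithinAt hp).comp
            continuousWithinAt_fst (fun w hw => hw.1)
        have h2 : ContinuousWithinAt (fun w : E d × E d => G w.2) (K ×ˢ K) (p, q) :=
          ((hG.continuousOn.mono hKT).continuousWithinAt hq).comp
            continuousWithinAt_snd (fun w hw => hw.2)
        exact (h1.sub h2).norm
      have h1 := hc.eventually (lt_mem_nhds (half_lt_self hpos))
      have hc2 : ContinuousWithinAt (fun w : E d × E d => ‖w.1 - w.2‖) (K ×ˢ K) (p, q) :=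
        ((continuous_fst.sub continuous_snd).norm).continuousWithinAt
      have h2 := hc2.eventually (gt_mem_nhds (lt_add_one ‖p - q‖))
      refine ⟨_, Filter.inter_mem h1 h2, (‖p - q‖ + 1) / (‖G p - G q‖ / 2), by positivity, ?_⟩
      rintro ⟨x, y⟩ ⟨hx1, hx2⟩ -
      have e1 : ‖G p - G q‖ / 2 < ‖G x - G y‖ := hx1
      have e2 : ‖x - y‖ < ‖p - q‖ + 1 := hx2
      dsimp only
      rw [div_mul_eq_mul_div, le_div_iff₀ (by positivity)]
      exact mul_le_mul e2.le e1.le (by positivity) (by positivity)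

/-- Bounds for a smooth map and its derivative on a compact ball -/
theorem exists_lip {V W : Type} [NormedAddCommGroup V] [NormedSpace ℝ V] [ProperSpace V]
    [NormedAddCommGroup W] [NormedSpace ℝ W] {G : V → W}
    {T : Set V} (hT : IsOpen T) (hG : ContDiffOn ℝ ∞ G T) {p₀ : V} {R : ℝ}
    (hR : Metric.closedBall p₀ R ⊆ T) :
    ∃ L : ℝ, 0 < L ∧ (∀ p ∈ Metric.closedBall p₀ R, ‖fderiv ℝ G p‖ ≤ L) ∧
      (∀ p ∈ Metric.closedBall p₀ R, ∀ q ∈ Metric.closedBall p₀ R, ‖G p - G q‖ ≤ L * ‖p - q‖) ∧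
      (∀ p ∈ Metric.closedBall p₀ R, ∀ q ∈ Metric.closedBall p₀ R,
        ‖fderiv ℝ G p - fderiv ℝ G q‖ ≤ L * ‖p - q‖) := by
  have h1 : ContDiffOn ℝ ∞ (fderiv ℝ G) T := hG.fderiv_of_isOpen hT (by simp)
  have h2 : ContinuousOn (fderiv ℝ G) T := h1.continuousOn
  have h3 : ContinuousOn (fderiv ℝ (fderiv ℝ G)) T :=
    h1.continuousOn_fderiv_of_isOpen hT (by simp)
  obtain ⟨C₁, hC₁⟩ := (isCompact_closedBall p₀ R).exists_bound_of_continuousOn (h2.mono hR)
  obtain ⟨C₂, hC₂⟩ := (isCompact_closedBall p₀ R).exists_bound_of_continuousOn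
    (E := V →L[ℝ] V →L[ℝ] W) (h3.mono hR)
  refine ⟨max (max C₁ C₂) 1, by positivity, ?_, ?_, ?_⟩
  · exact fun p hp => (hC₁ p hp).trans ((le_max_left _ _).trans (le_max_left _ _))
  · intro p hp q hq
    refine (convex_closedBall p₀ R).norm_image_sub_le_of_norm_hasFDerivWithin_le
      (f' := fun x => fderiv ℝ G x) (fun x hx => ?_) (fun x hx => ?_) hq hp
    · exact ((hG.contDiffAt (hT.mem_nhds (hR hx))).differentiableAt
        (by simp)).hasFDerivAt.hasFDerivWithinAt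
    · exact (hC₁ x hx).trans ((le_max_left _ _).trans (le_max_left _ _))
  · intro p hp q hq
    refine (convex_closedBall p₀ R).norm_image_sub_le_of_norm_hasFDerivWithin_le
      (f' := fun x => fderiv ℝ (fderiv ℝ G) x) (fun x hx => ?_) (fun x hx => ?_) hq hp
    · exact ((h1.contDiffAt (hT.mem_nhds (hR hx))).differentiableAt
        (by simp)).hasFDerivAt.hasFDerivWithinAt
    · exact (hC₂ x hx).trans ((le_max_right _ _).trans (le_max_left _ _))

end

section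

variable {d m : ℕ} {X : Type} [TopologicalSpace X] [ChartedSpace (E d) X]
  [IsManifold (𝓡 d) ∞ X]

/-- the embedding in the chart at `z` -/
def Gz (F : X → E m) (z : X) : E d → E m := F ∘ (chartAt (E d) z).symm

theorem Gz_smooth {F : X → E m} (hF : ContMDiff (𝓡 d) (𝓡 m) ∞ F) (z : X) :
    ContDiffOn ℝ ∞ (Gz (d := d) F z) (chartAt (E d) z).target := by
  have hG1 : ContMDiffOn (𝓡 d) (𝓡 m) ∞ (Gz (d := d) F z) (chartAt (E d) z).target :=
    hF.comp_contMDiffOn contMDiffOn_chart_symm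
  exact contMDiffOn_iff_contDiffOn.1 hG1

omit [IsManifold (𝓡 d) ∞ X] in
theorem Gz_chart (F : X → E m) (z : X) {x : X} (hx : x ∈ (chartAt (E d) z).source) :
    Gz (d := d) F z (chartAt (E d) z x) = F x := by
  unfold Gz
  rw [Function.comp_apply, (chartAt (E d) z).left_inv hx]

theorem nm_A {F : X → E m} (hF : ContMDiff (𝓡 d) (𝓡 m) ∞ F) (z : X) {p : E d}
    (hp : p ∈ (chartAt (E d) z).target) (v : E d) :
    nm F ((chartAt (E d) z).symm p) (A z p v) = ‖fderiv ℝ (Gz (d := d) F z) p v‖ := by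
  have h1 : MDifferentiableAt (𝓡 d) (𝓡 m) F ((chartAt (E d) z).symm p) :=
    hF.mdifferentiableAt (by simp)
  have h2 : MDifferentiableAt (𝓡 d) (𝓡 d) (chartAt (E d) z).symm p :=
    ((contMDiffOn_chart_symm (n := ∞)).contMDiffAt
      ((chartAt (E d) z).open_target.mem_nhds hp)).mdifferentiableAt (by simp)
  have h3 : mfderiv (𝓡 d) (𝓡 m) (F ∘ (chartAt (E d) z).symm) p =
    (mfderiv (𝓡 d) (𝓡 m) F ((chartAt (E d) z).symm p)).comp
    (mfderiv (𝓡 d) (𝓡 d) (chartAt (E d) z).symm p) := mfderiv_comp p h1 h2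
  have h4 : mfderiv (𝓡 d) (𝓡 m) (Gz (d := d) F z) p = fderiv ℝ (Gz (d := d) F z) p :=
    mfderiv_eq_fderiv
  rw [← h4]
  unfold Gz
  rw [h3]
  rfl

/-- all the constants of an embedding in a ball of a chart -/
structure GeoB (F : X → E m) (z : X) (R L : ℝ) : Prop where
  pos : 0 < L
  sub : Metric.closedBall (chartAt (E d) z z) R ⊆ (chartAt (E d) z).target
  bdd : ∀ p ∈ Metric.closedBall (chartAt (E d) z z) R, ‖fderiv ℝ (Gz (d := d) F z) p‖ ≤ L
  lip : ∀ p ∈ Metric.closedBall (chartAt (E d) z z) R,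
    ∀ q ∈ Metric.closedBall (chartAt (E d) z z) R,
    ‖Gz (d := d) F z p - Gz (d := d) F z q‖ ≤ L * ‖p - q‖
  lip' : ∀ p ∈ Metric.closedBall (chartAt (E d) z z) R,
    ∀ q ∈ Metric.closedBall (chartAt (E d) z z) R,
    ‖fderiv ℝ (Gz (d := d) F z) p - fderiv ℝ (Gz (d := d) F z) q‖ ≤ L * ‖p - q‖
  low : ∀ p ∈ Metric.closedBall (chartAt (E d) z z) R, ∀ v : E d,
    ‖v‖ ≤ L * ‖fderiv ℝ (Gz (d := d) F z) p v‖
  anti : ∀ p ∈ Metric.closedBall (chartAt (E d) z z) R,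
    ∀ q ∈ Metric.closedBall (chartAt (E d) z z) R,
    ‖p - q‖ ≤ L * ‖Gz (d := d) F z p - Gz (d := d) F z q‖

theorem exists_geoB {F : X → E m} (hF : ContMDiff (𝓡 d) (𝓡 m) ∞ F)
    (hFi : Function.Injective F)
    (hFd : ∀ x, Function.Injective (mfderiv (𝓡 d) (𝓡 m) F x)) (z : X) {R : ℝ}
    (hR : Metric.closedBall (chartAt (E d) z z) R ⊆ (chartAt (E d) z).target) :
    ∃ L : ℝ, GeoB (d := d) F z R L := by
  have hG := Gz_smooth hF z
  obtain ⟨L₁, hL₁, h1, h2, h3⟩ := exists_lip (chartAt (E d) z).open_target hG hR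
  have hlow : ∀ K : Set (E d), IsCompact K → K ⊆ (chartAt (E d) z).target →
      ∃ a : ℝ, 0 < a ∧ ∀ p ∈ K, ∀ v, a * ‖v‖ ≤ ‖fderiv ℝ (Gz (d := d) F z) p v‖ := by
    intro K hK hKt
    obtain ⟨a, b, ha, hb, hab⟩ := Pool.Agent.Y44.SY.t_IMM d m X F hF hFd z K hK hKt
    refine ⟨a, ha, fun p hp v => ?_⟩
    rw [← nm_A hF z (hKt hp)]
    exact (hab p hp v).1
  obtain ⟨a, ha, hlow1⟩ := hlow _ (isCompact_closedBall _ _) hR
  have hinj : InjOn (Gz (d := d) F z) (chartAt (E d) z).target := by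
    intro p hp q hq h
    exact (chartAt (E d) z).symm.injOn hp hq (hFi h)
  obtain ⟨Λ, hΛ, h5⟩ := exists_anti (chartAt (E d) z).open_target hG hinj (fun p hp => by
    obtain ⟨a, ha, h⟩ := hlow {p} isCompact_singleton (singleton_subset_iff.2 hp)
    exact ⟨a, ha, h p rfl⟩) (isCompact_closedBall _ _) hR
  refine ⟨max (max L₁ Λ) (1 / a), ⟨by positivity, hR, ?_, ?_, ?_, ?_, ?_⟩⟩
  · exact fun p hp => (h1 p hp).trans ((le_max_left _ _).trans (le_max_left _ _))
  · exact fun p hp q hq => (h2 p hp q hq).trans (mul_le_mul_of_nonneg_right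
      ((le_max_left _ _).trans (le_max_left _ _)) (norm_nonneg _))
  · exact fun p hp q hq => (h3 p hp q hq).trans (mul_le_mul_of_nonneg_right
      ((le_max_left _ _).trans (le_max_left _ _)) (norm_nonneg _))
  · intro p hp v
    refine le_trans ?_ (mul_le_mul_of_nonneg_right (le_max_right _ _) (norm_nonneg _))
    rw [one_div, inv_mul_eq_div, le_div_iff₀ ha]
    linarith [hlow1 p hp v]
  · exact fun p hp q hq => (h5 p hp q hq).trans (mul_le_mul_of_nonneg_right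
      ((le_max_right _ _).trans (le_max_left _ _)) (norm_nonneg _))

end

end Pool.Agent.H33.TM
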