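import Pool.Agent.H33.TM.Meas

/-!
# Finite averages over the cut-off translations
-/

set_option autoImplicit false

open Set Filter Topology MeasureTheory
open scoped Manifold ContDiff ENNReal NNReal

noncomputable section

namespace Pool.Agent.H33.TM

open Pool.Agent.Y501.SY Pool.Agent.Y455.SY Pool.Agent.Q235.SZ

section

variable {d m : ℕ} {X : Type} [TopologicalSpace X] [ChartedSpace (E d) X]

omit [ChartedSpace (E d) X] in
/-- uniform continuity in the metric induced by the embedding -/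
theorem unif_cont [CompactSpace X] {F : X → E m} (hF : Continuous F)
    (hFi : Function.Injective F) {k : X → ℝ} (hk : Continuous k) {ε : ℝ} (hε : 0 < ε) :
    ∃ η : ℝ, 0 < η ∧ ∀ x y, ‖F x - F y‖ < η → |k x - k y| < ε := by
  have hK : IsCompact {w : X × X | ε ≤ |k w.1 - k w.2|} :=
    (isClosed_le continuous_const
      ((hk.comp continuous_fst).sub (hk.comp continuous_snd)).abs).isCompact
  obtain ⟨c, hc, hmin⟩ := exists_min' hK (q := fun w : X × X => ‖F w.1 - F w.2‖)
    (((hF.comp continuous_fst).sub (hF.comp continuous_snd)).norm.continuousOn) (by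
      rintro ⟨x, y⟩ hxy
      refine norm_pos_iff.2 (sub_ne_zero.2 fun h => ?_)
      have h1 : x = y := hFi h
      have h2 : ε ≤ |k x - k y| := hxy
      rw [h1, sub_self, abs_zero] at h2
      linarith)
  refine ⟨c, hc, fun x y hxy => ?_⟩
  by_contra h
  have := hmin (x, y) (not_lt.1 h)
  dsimp only at this
  linarith

theorem tr_continuousOn [CompactSpace X] {F : X → E m} (hF : Continuous F)
    (hFi : Function.Injective F) {r L : ℝ} (hr : 0 < r) {z : X}
    (hG : GeoB (d := d) F z (8 * r) L) (x : X) :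
    ContinuousOn (fun v : E d => tr hr z v x) (Metric.closedBall 0 r) := by
  rw [(hF.isClosedEmbedding hFi).isInducing.continuousOn_iff]
  have h : LipschitzOnWith (Real.toNNReal L) (F ∘ fun v : E d => tr hr z v x)
      (Metric.closedBall 0 r) := by
    refine LipschitzOnWith.of_dist_le_mul fun v hv w hw => ?_
    rw [mem_closedBall_zero_iff] at hv hw
    rw [dist_eq_norm, dist_eq_norm, Real.coe_toNNReal _ hG.pos.le]
    exact tr_lip hr hG hv hw x
  exact h.continuousOn

theorem push_lintegral [MeasurableSpace X] [BorelSpace X] [CompactSpace X] {F : X → E m}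
    (hF : Continuous F)
    (hFi : Function.Injective F) {r L : ℝ} (hr : 0 < r) {z : X}
    (hG : GeoB (d := d) F z (8 * r) L) {δ : ℝ} (hδ : δ ≤ r) {x : X}
    (hx : x ∈ (chartAt (E d) z).source)
    (hxb : chartAt (E d) z x ∈ Metric.closedBall (chartAt (E d) z z) (2 * r))
    {g : X → ℝ≥0∞} (hg : Measurable g) :
    ∫⁻ v in Metric.closedBall (0 : E d) δ, g (tr hr z v x) ∂μH[(d : ℝ)] ≤
      ENNReal.ofReal L ^ (d : ℝ) * ∫⁻ y in FB F x (L * δ), g y ∂(area d F) := by
  have hae : AEMeasurable (fun v : E d => tr hr z v x)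
      ((μH[(d : ℝ)] : Measure (E d)).restrict (Metric.closedBall 0 δ)) :=
    ((tr_continuousOn hF hFi hr hG x).mono
      (Metric.closedBall_subset_closedBall hδ)).aemeasurable Metric.isClosed_closedBall.measurableSet
  have hle : Measure.map (fun v : E d => tr hr z v x)
      ((μH[(d : ℝ)] : Measure (E d)).restrict (Metric.closedBall 0 δ)) ≤
      (ENNReal.ofReal L ^ (d : ℝ)) • (area d F).restrict (FB F x (L * δ)) := by
    rw [Measure.le_iff]
    intro A hA
    rw [Measure.map_apply_of_aemeasurable hae hA,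
      Measure.restrict_apply' Metric.isClosed_closedBall.measurableSet, Measure.smul_apply,
      smul_eq_mul, Measure.restrict_apply' (FB_closed hF x _).measurableSet]
    refine le_trans (le_of_eq ?_) (push_le hF hFi hr hG hδ hx hxb A)
    congr 1
    ext v
    exact and_comm
  calc _ = ∫⁻ y, g y ∂(Measure.map (fun v : E d => tr hr z v x)
        ((μH[(d : ℝ)] : Measure (E d)).restrict (Metric.closedBall 0 δ))) :=
        (lintegral_map' hg.aemeasurable hae).symm
    _ ≤ ∫⁻ y, g y ∂((ENNReal.ofReal L ^ (d : ℝ)) • (area d F).restrict (FB F x (L * δ))) :=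
        lintegral_mono' hle le_rfl
    _ = _ := by rw [lintegral_smul_measure, smul_eq_mul]

omit [ChartedSpace (E d) X] in
theorem comp_lintegral [MeasurableSpace X] [BorelSpace X] [CompactSpace X] {F : X → E m}
    (hF : Continuous F) (hFi : Function.Injective F) {Ψ : X → X} (hΨc : Continuous Ψ)
    (hΨ : ∀ x y, ‖F x - F y‖ ≤ 2 * ‖F (Ψ x) - F (Ψ y)‖) {A B : Set X}
    (hAB : ∀ x ∈ A, Ψ x ∈ B) {g : X → ℝ≥0∞} (hg : Measurable g) :
    ∫⁻ x in A, g (Ψ x) ∂(area d F) ≤ 2 ^ (d : ℝ) * ∫⁻ y in B, g y ∂(area d F) := by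
  have hle : Measure.map Ψ ((area d F).restrict A) ≤
      ((2 : ℝ≥0∞) ^ (d : ℝ)) • (area d F).restrict B := by
    rw [Measure.le_iff]
    intro T hT
    rw [Measure.map_apply hΨc.measurable hT, Measure.restrict_apply (hΨc.measurable hT),
      Measure.smul_apply, smul_eq_mul, Measure.restrict_apply hT]
    refine (measure_mono ?_).trans (area_preimage_le hF hFi hΨ (T ∩ B))
    exact fun x hx => ⟨hx.1, hAB x hx.2⟩
  calc _ = ∫⁻ y, g y ∂(Measure.map Ψ ((area d F).restrict A)) :=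
        (lintegral_map hg hΨc.measurable).symm
    _ ≤ ∫⁻ y, g y ∂(((2 : ℝ≥0∞) ^ (d : ℝ)) • (area d F).restrict B) :=
        lintegral_mono' hle le_rfl
    _ = _ := by rw [lintegral_smul_measure, smul_eq_mul]

variable [IsManifold (𝓡 d) ∞ X]

theorem finite_avg [CompactSpace X] [T2Space X] {F : X → E m} (hF : Continuous F)
    (hFi : Function.Injective F) {r L : ℝ} (hr : 0 < r) {z : X}
    (hG : GeoB (d := d) F z (8 * r) L) {δ : ℝ} (hδ0 : 0 < δ) (hδ : δ ≤ r) {k : X → ℝ}
    (hk : Continuous k) (hk0 : ∀ x, 0 ≤ k x) {ε : ℝ} (hε : 0 < ε) :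
    ∃ (ι : Type) (_ : Fintype ι) (w : ι → ℝ) (v : ι → E d), (∀ i, 0 ≤ w i) ∧ ∑ i, w i = 1 ∧
      (∀ i, ‖v i‖ ≤ δ) ∧ ∀ x, ENNReal.ofReal (∑ i, w i * k (tr hr z (v i) x)) ≤
        (μH[(d : ℝ)] (Metric.closedBall (0 : E d) δ))⁻¹ *
          ∫⁻ v in Metric.closedBall (0 : E d) δ, ENNReal.ofReal (k (tr hr z v x)) ∂μH[(d : ℝ)] +
        ENNReal.ofReal ε := by
  classical
  obtain ⟨B, hB⟩ : ∃ B, B = Metric.closedBall (0 : E d) δ := ⟨_, rfl⟩
  rw [← hB]
  have hBm : MeasurableSet B := by rw [hB]; exact Metric.isClosed_closedBall.measurableSet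
  have hBc : IsCompact B := by rw [hB]; exact isCompact_closedBall _ _
  have hBn : ∀ v ∈ B, ‖v‖ ≤ δ := fun v hv => by
    rw [hB, mem_closedBall_zero_iff] at hv
    exact hv
  obtain ⟨c, hc⟩ : ∃ c, c = μH[(d : ℝ)] B := ⟨_, rfl⟩
  have hc0 : c ≠ 0 := by
    rw [hc, hB]
    exact (Metric.measure_closedBall_pos _ _ hδ0).ne'
  have hctop : c ≠ ⊤ := by
    rw [hc]
    exact hBc.measure_lt_top.ne
  rw [← hc]
  obtain ⟨ν, hν⟩ : ∃ ν : Measure (E d), ν = c⁻¹ • (μH[(d : ℝ)] : Measure (E d)).restrict B :=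
    ⟨_, rfl⟩
  have hνp : IsProbabilityMeasure ν := by
    constructor
    rw [hν, Measure.smul_apply, Measure.restrict_apply_univ, ← hc, smul_eq_mul,
      ENNReal.inv_mul_cancel hc0 hctop]
  have hcont : ∀ v ∈ B, Continuous fun x : X => k (tr hr z v x) := fun v hv =>
    hk.comp (tr_smooth hr hG.sub ((hBn v hv).trans hδ)).continuous
  obtain ⟨f, hf⟩ : ∃ f : E d → C(X, ℝ), ∀ v ∈ B, ∀ x, f v x = k (tr hr z v x) :=
    ⟨fun v => if hv : v ∈ B then ⟨fun x => k (tr hr z v x), hcont v hv⟩ else 0, fun v hv x => by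
      simp only [dif_pos hv, ContinuousMap.coe_mk]⟩
  have hfc : ContinuousOn f B := by
    rw [Metric.continuousOn_iff]
    intro v hv e he
    obtain ⟨η, hη, hu⟩ := unif_cont hF hFi hk (half_pos he)
    refine ⟨η / L, div_pos hη hG.pos, fun w hw hwv => ?_⟩
    refine lt_of_le_of_lt ?_ (half_lt_self he)
    rw [ContinuousMap.dist_le (half_pos he).le]
    intro x
    rw [hf w hw, hf v hv, Real.dist_eq]
    refine (hu _ _ ?_).le
    refine (tr_lip hr hG ((hBn w hw).trans hδ) ((hBn v hv).trans hδ) x).trans_lt ?_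
    rw [dist_eq_norm, lt_div_iff₀ hG.pos] at hwv
    linarith
  have hfi : Integrable f ν := by
    rw [hν]
    exact (hfc.integrableOn_compact hBc).smul_measure (ENNReal.inv_ne_top.2 hc0)
  have haeB : ∀ᵐ v ∂ν, v ∈ B := by
    rw [hν]
    exact Measure.ae_smul_measure (ae_restrict_mem hBm) _
  have hmem : ∫ v, f v ∂ν ∈ closure (convexHull ℝ (f '' B)) :=
    (convex_convexHull ℝ _).closure.integral_mem isClosed_closure (by
      filter_upwards [haeB] with v hv
      exact subset_closure (subset_convexHull ℝ _ ⟨v, hv, rfl⟩)) hfi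
  obtain ⟨g, hg, hgd⟩ := Metric.mem_closure_iff.1 hmem ε hε
  obtain ⟨ι, hι, w, zz, hw0, hw1, hz, hsum⟩ := mem_convexHull_iff_exists_fintype.1 hg
  choose v hvB hvz using hz
  refine ⟨ι, hι, w, v, hw0, hw1, fun i => hBn _ (hvB i), fun x => ?_⟩
  have e1 : ∑ i, w i * k (tr hr z (v i) x) = g x := by
    rw [← hsum, ContinuousMap.sum_apply]
    refine Finset.sum_congr rfl fun i _ => ?_
    rw [ContinuousMap.smul_apply, smul_eq_mul, ← hvz, hf _ (hvB i)]
  have e2 : g x ≤ (∫ v, f v ∂ν) x + ε := by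
    have h1 := ContinuousMap.dist_apply_le_dist (f := ∫ v, f v ∂ν) (g := g) x
    have h2 := h1.trans_lt hgd
    rw [Real.dist_eq, abs_lt] at h2
    linarith [h2.1]
  have e3 : (∫ v, f v ∂ν) x = ∫ v, f v x ∂ν :=
    ((ContinuousMap.evalCLM ℝ x).integral_comp_comm hfi).symm
  have hfx : Integrable (fun v => f v x) ν := (ContinuousMap.evalCLM ℝ x).integrable_comp hfi
  have hnn : 0 ≤ᵐ[ν] fun v => f v x := by
    filter_upwards [haeB] with v hv
    change 0 ≤ f v x
    rw [hf v hv]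
    exact hk0 _
  have e4 : ENNReal.ofReal (∫ v, f v x ∂ν) = ∫⁻ v, ENNReal.ofReal (f v x) ∂ν :=
    ofReal_integral_eq_lintegral_ofReal hfx hnn
  have e5 : ∫⁻ v, ENNReal.ofReal (f v x) ∂ν =
      c⁻¹ * ∫⁻ v in B, ENNReal.ofReal (k (tr hr z v x)) ∂μH[(d : ℝ)] := by
    rw [hν, lintegral_smul_measure, smul_eq_mul]
    congr 1
    refine setLIntegral_congr_fun hBm fun v hv => ?_
    simp only [hf v hv]
  rw [e1]
  calc ENNReal.ofReal (g x) ≤ ENNReal.ofReal (∫ v, f v x ∂ν + ε) := by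
        refine ENNReal.ofReal_le_ofReal ?_
        rw [← e3]; exact e2
    _ = _ := by
        rw [ENNReal.ofReal_add (integral_nonneg_of_ae hnn) hε.le, e4, e5]

end

end Pool.Agent.H33.TM
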