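import Pool.Agent.H33.TM.Disp

/-!
# The derivative of the cut-off translations
-/

set_option autoImplicit false

open Set Filter Topology MeasureTheory
open scoped Manifold ContDiff

noncomputable section

namespace Pool.Agent.H33.TM

open Pool.Agent.Y501.SY Pool.Agent.Y455.SY Pool.Agent.Q235.SZ

section

variable {d m : ℕ} {X : Type} [TopologicalSpace X] [ChartedSpace (E d) X]
  [IsManifold (𝓡 d) ∞ X]

theorem tr_mfderiv [T2Space X] {r : ℝ} (hr : 0 < r) {z : X}
    (ht : Metric.closedBall (chartAt (E d) z z) (8 * r) ⊆ (chartAt (E d) z).target) {v : E d}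
    (hv : ‖v‖ ≤ r) {p : E d} (hp : p ∈ (chartAt (E d) z).target) (w : E d) :
    mfderiv (𝓡 d) (𝓡 d) (tr hr z v) ((chartAt (E d) z).symm p) (A z p w) =
      A z (sh hr (chartAt (E d) z z) v p) (fderiv ℝ (sh hr (chartAt (E d) z z) v) p w) := by
  obtain ⟨p₀, hp₀⟩ : ∃ p₀, p₀ = chartAt (E d) z z := ⟨_, rfl⟩
  have h1 : MDifferentiableAt (𝓡 d) (𝓡 d) (tr hr z v : X → X) ((chartAt (E d) z).symm p) :=
    (tr_smooth hr ht hv).mdifferentiableAt (by simp)
  have h2 : MDifferentiableAt (𝓡 d) (𝓡 d) (chartAt (E d) z).symm p :=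
    ((contMDiffOn_chart_symm (n := ∞)).contMDiffAt
      ((chartAt (E d) z).open_target.mem_nhds hp)).mdifferentiableAt (by simp)
  have hs : sh hr p₀ v p ∈ (chartAt (E d) z).target := sh_mem hr p₀ hv (by rw [hp₀]; exact ht) hp
  have h3 : MDifferentiableAt (𝓡 d) (𝓡 d) (chartAt (E d) z).symm (sh hr p₀ v p) :=
    ((contMDiffOn_chart_symm (n := ∞)).contMDiffAt
      ((chartAt (E d) z).open_target.mem_nhds hs)).mdifferentiableAt (by simp)
  have h4 : MDifferentiableAt (𝓡 d) (𝓡 d) (sh hr p₀ v) p :=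
    (sh_hasFDerivAt hr p₀ v p).differentiableAt.mdifferentiableAt
  have e1 : (tr hr z v ∘ (chartAt (E d) z).symm : E d → X) =ᶠ[𝓝 p]
      ((chartAt (E d) z).symm ∘ sh hr p₀ v) := by
    filter_upwards [(chartAt (E d) z).open_target.mem_nhds hp] with q hq
    rw [Function.comp_apply, Function.comp_apply, tr_of_mem hr z v
      ((chartAt (E d) z).map_target hq), (chartAt (E d) z).right_inv hq, hp₀]
  have e2 := e1.mfderiv_eq (I := 𝓡 d) (I' := 𝓡 d)
  rw [mfderiv_comp p h1 h2, mfderiv_comp p h3 h4, mfderiv_eq_fderiv (f := sh hr p₀ v)] at e2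
  rw [← hp₀]
  exact DFunLike.congr_fun e2 w

omit [IsManifold (𝓡 d) ∞ X] in
/-- outside the core -/
theorem tr_mfderiv_out [T2Space X] {r : ℝ} (hr : 0 < r) {z : X}
    (ht : Metric.closedBall (chartAt (E d) z z) (8 * r) ⊆ (chartAt (E d) z).target) (v : E d)
    {x : X} (hx : x ∉ core d r z) :
    mfderiv (𝓡 d) (𝓡 d) (tr hr z v) x = ContinuousLinearMap.id ℝ (TangentSpace (𝓡 d) x) := by
  have e1 : (tr hr z v : X → X) =ᶠ[𝓝 x] id := by
    filter_upwards [(core_compact hr ht).isClosed.isOpen_compl.mem_nhds hx] with y hy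
    exact tr_of_not_core hr v hy
  rw [e1.mfderiv_eq (I := 𝓡 d) (I' := 𝓡 d)]
  exact mfderiv_id

omit [IsManifold (𝓡 d) ∞ X] in
theorem nm_sub_le (F : X → E m) (x : X) (v w : TangentSpace (𝓡 d) x) :
    |nm F x v - nm F x w| ≤ nm F x (v - w) := by
  unfold nm
  rw [map_sub]
  exact abs_norm_sub_norm_le _ _

/-- bounds for an almost complex structure in a ball of a chart -/
structure JB (J : End d X) (z : X) (R M a : ℝ) : Prop where
  bdd : ∀ p ∈ Metric.closedBall (chartAt (E d) z z) R, ‖inChart J z p‖ ≤ M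
  hol : ∀ p ∈ Metric.closedBall (chartAt (E d) z z) R,
    ∀ q ∈ Metric.closedBall (chartAt (E d) z z) R,
    ‖inChart J z p - inChart J z q‖ ≤ M * ‖p - q‖ ^ a

theorem J_A (J : End d X) (z : X) {p : E d} (hp : p ∈ (chartAt (E d) z).target) (w : E d) :
    J ((chartAt (E d) z).symm p) (A z p w) = A z p (inChart J z p w) :=
  (AB z hp _).symm

theorem tr_nm [T2Space X] {F : X → E m} (hF : ContMDiff (𝓡 d) (𝓡 m) ∞ F) {r L : ℝ}
    (hr : 0 < r) {z : X} (hG : GeoB (d := d) F z (8 * r) L) :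
    ∃ C : ℝ, 0 < C ∧ ∀ v : E d, ‖v‖ ≤ r → ‖v‖ ≤ 1 →
      (∀ (x : X) (w : TangentSpace (𝓡 d) x),
        |nm F (tr hr z v x) (mfderiv (𝓡 d) (𝓡 d) (tr hr z v) x w) - nm F x w| ≤
          C * ‖v‖ * nm F x w) ∧
      ∀ (J : End d X) (M a : ℝ), 0 ≤ M → 0 < a → a ≤ 1 → JB J z (8 * r) M a →
        ∀ (x : X) (w : TangentSpace (𝓡 d) x),
        nm F (tr hr z v x) (mfderiv (𝓡 d) (𝓡 d) (tr hr z v) x (J x w) -
          J (tr hr z v x) (mfderiv (𝓡 d) (𝓡 d) (tr hr z v) x w)) ≤
          C * M * ‖v‖ ^ a * nm F x w := by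
  obtain ⟨B, hB, hbump⟩ := bump_deriv_bound hr (chartAt (E d) z z)
  have hL := hG.pos
  obtain ⟨p₀, hp₀⟩ : ∃ p₀, p₀ = chartAt (E d) z z := ⟨_, rfl⟩
  have hsub : Metric.closedBall p₀ (8 * r) ⊆ (chartAt (E d) z).target := by
    rw [hp₀]; exact hG.sub
  rw [← hp₀] at hbump
  have hnn : ∀ (x : X) (w : TangentSpace (𝓡 d) x), 0 ≤ nm F x w := fun x w => norm_nonneg _
  refine ⟨L * (1 + 2 * B) * L, by positivity, fun v hv hv1 => ⟨?_, ?_⟩⟩
  · intro x w
    by_cases hx : x ∈ core d r z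
    · obtain ⟨h1, h2⟩ := core_mem hr hG.sub hx
      obtain ⟨p, hp⟩ : ∃ p, p = chartAt (E d) z x := ⟨_, rfl⟩
      have hpb : p ∈ Metric.closedBall p₀ (8 * r) := by
        rw [hp, hp₀]; exact Metric.closedBall_subset_closedBall (by linarith) h2
      have hxp : x = (chartAt (E d) z).symm p := by
        rw [hp, (chartAt (E d) z).left_inv h1]
      clear hp h1 h2
      subst hxp
      obtain ⟨u, rfl⟩ := A_surj z (hsub hpb) w
      have hsm : sh hr p₀ v p ∈ Metric.closedBall p₀ (8 * r) := sh_mem hr p₀ hv subset_rfl hpb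
      have e1 : tr hr z v ((chartAt (E d) z).symm p) = (chartAt (E d) z).symm (sh hr p₀ v p) := by
        rw [tr_of_mem hr z v ((chartAt (E d) z).map_target (hsub hpb)),
          (chartAt (E d) z).right_inv (hsub hpb), hp₀]
      have e2 : nm F (tr hr z v ((chartAt (E d) z).symm p))
          (mfderiv (𝓡 d) (𝓡 d) (tr hr z v) ((chartAt (E d) z).symm p) (A z p u)) =
          ‖fderiv ℝ (Gz (d := d) F z) (sh hr p₀ v p) (fderiv ℝ (sh hr p₀ v) p u)‖ := by
        rw [tr_mfderiv hr hG.sub hv (hsub hpb), ← hp₀, e1, nm_A hF z (hsub hsm)]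
      rw [e2, nm_A hF z (hsub hpb)]
      refine (abs_norm_sub_norm_le _ _).trans ?_
      rw [sh_deriv]
      have e3 : fderiv ℝ (Gz (d := d) F z) (sh hr p₀ v p)
          (u + (fderiv ℝ (bump hr p₀) p u) • v) - fderiv ℝ (Gz (d := d) F z) p u =
          (fderiv ℝ (Gz (d := d) F z) (sh hr p₀ v p) - fderiv ℝ (Gz (d := d) F z) p) u +
          fderiv ℝ (Gz (d := d) F z) (sh hr p₀ v p) ((fderiv ℝ (bump hr p₀) p u) • v) := by
        rw [map_add, sub_apply]
        abel
      rw [e3]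
      refine (norm_add_le _ _).trans ?_
      have e4 : ‖(fderiv ℝ (Gz (d := d) F z) (sh hr p₀ v p) - fderiv ℝ (Gz (d := d) F z) p) u‖ ≤
          L * ‖v‖ * ‖u‖ := by
        refine (ContinuousLinearMap.le_opNorm _ _).trans
          (mul_le_mul_of_nonneg_right ?_ (norm_nonneg _))
        refine (hG.lip' _ (by rw [← hp₀]; exact hsm) _ (by rw [← hp₀]; exact hpb)).trans ?_
        exact mul_le_mul_of_nonneg_left (sh_sub_norm hr p₀ v p) hL.le
      have e5 : ‖fderiv ℝ (Gz (d := d) F z) (sh hr p₀ v p)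
          ((fderiv ℝ (bump hr p₀) p u) • v)‖ ≤ L * (B * ‖u‖ * ‖v‖) := by
        refine (ContinuousLinearMap.le_opNorm _ _).trans ?_
        refine mul_le_mul (hG.bdd _ (by rw [← hp₀]; exact hsm)) ?_ (norm_nonneg _) hL.le
        rw [norm_smul]
        refine mul_le_mul_of_nonneg_right ?_ (norm_nonneg _)
        exact (ContinuousLinearMap.le_opNorm _ _).trans
          (mul_le_mul_of_nonneg_right (hbump p) (norm_nonneg _))
      have e6 := hG.low p (by rw [← hp₀]; exact hpb) u
      calc _ ≤ L * ‖v‖ * ‖u‖ + L * (B * ‖u‖ * ‖v‖) := add_le_add e4 e5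
        _ = L * (1 + B) * ‖v‖ * ‖u‖ := by ring
        _ ≤ L * (1 + 2 * B) * ‖v‖ * (L * ‖fderiv ℝ (Gz (d := d) F z) p u‖) := by
            refine mul_le_mul ?_ e6 (norm_nonneg _) (by positivity)
            refine mul_le_mul_of_nonneg_right ?_ (norm_nonneg _)
            exact mul_le_mul_of_nonneg_left (by linarith) hL.le
        _ = _ := by ring
    · rw [tr_mfderiv_out hr hG.sub v hx, tr_of_not_core hr v hx]
      have e : nm F x (ContinuousLinearMap.id ℝ (TangentSpace (𝓡 d) x) w) - nm F x w = 0 :=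
        sub_self _
      rw [e, abs_zero]
      exact mul_nonneg (by positivity) (hnn _ _)
  · intro J M a hM ha ha1 hJ x w
    by_cases hx : x ∈ core d r z
    · obtain ⟨h1, h2⟩ := core_mem hr hG.sub hx
      obtain ⟨p, hp⟩ : ∃ p, p = chartAt (E d) z x := ⟨_, rfl⟩
      have hpb : p ∈ Metric.closedBall p₀ (8 * r) := by
        rw [hp, hp₀]; exact Metric.closedBall_subset_closedBall (by linarith) h2
      have hxp : x = (chartAt (E d) z).symm p := by
        rw [hp, (chartAt (E d) z).left_inv h1]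
      clear hp h1 h2
      subst hxp
      obtain ⟨u, rfl⟩ := A_surj z (hsub hpb) w
      obtain ⟨q, hq⟩ : ∃ q, q = sh hr p₀ v p := ⟨_, rfl⟩
      have hsm : q ∈ Metric.closedBall p₀ (8 * r) := by
        rw [hq]; exact sh_mem hr p₀ hv subset_rfl hpb
      have e1 : tr hr z v ((chartAt (E d) z).symm p) = (chartAt (E d) z).symm q := by
        rw [tr_of_mem hr z v ((chartAt (E d) z).map_target (hsub hpb)),
          (chartAt (E d) z).right_inv (hsub hpb), hq, hp₀]
      have e2 : nm F (tr hr z v ((chartAt (E d) z).symm p))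
          (mfderiv (𝓡 d) (𝓡 d) (tr hr z v) ((chartAt (E d) z).symm p)
            (J ((chartAt (E d) z).symm p) (A z p u)) -
            J (tr hr z v ((chartAt (E d) z).symm p))
            (mfderiv (𝓡 d) (𝓡 d) (tr hr z v) ((chartAt (E d) z).symm p) (A z p u))) =
          ‖fderiv ℝ (Gz (d := d) F z) q (fderiv ℝ (sh hr p₀ v) p (inChart J z p u) -
            inChart J z q (fderiv ℝ (sh hr p₀ v) p u))‖ := by
        rw [J_A J z (hsub hpb), tr_mfderiv hr hG.sub hv (hsub hpb),
          tr_mfderiv hr hG.sub hv (hsub hpb), ← hp₀, ← hq, e1, J_A J z (hsub hsm)]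
        have e3 : A z q (fderiv ℝ (sh hr p₀ v) p (inChart J z p u)) -
            A z q (inChart J z q (fderiv ℝ (sh hr p₀ v) p u)) =
            A z q (fderiv ℝ (sh hr p₀ v) p (inChart J z p u) -
            inChart J z q (fderiv ℝ (sh hr p₀ v) p u)) := (map_sub _ _ _).symm
        exact (congrArg (nm F ((chartAt (E d) z).symm q)) e3).trans (nm_A hF z (hsub hsm) _)
      rw [e2, nm_A hF z (hsub hpb), sh_deriv, sh_deriv]
      have e4 : inChart J z p u + (fderiv ℝ (bump hr p₀) p (inChart J z p u)) • v -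
          inChart J z q (u + (fderiv ℝ (bump hr p₀) p u) • v) =
          (inChart J z p - inChart J z q) u +
          ((fderiv ℝ (bump hr p₀) p (inChart J z p u)) • v -
            (fderiv ℝ (bump hr p₀) p u) • inChart J z q v) := by
        rw [map_add, map_smul, sub_apply]
        abel
      rw [e4]
      have hpb' : p ∈ Metric.closedBall (chartAt (E d) z z) (8 * r) := by rw [← hp₀]; exact hpb
      have hsm' : q ∈ Metric.closedBall (chartAt (E d) z z) (8 * r) := by rw [← hp₀]; exact hsm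
      have hva : ‖v‖ ≤ ‖v‖ ^ a := by
        rcases (norm_nonneg v).eq_or_lt with h0 | h0
        · rw [← h0, Real.zero_rpow ha.ne']
        · calc ‖v‖ = ‖v‖ ^ (1 : ℝ) := (Real.rpow_one _).symm
            _ ≤ ‖v‖ ^ a := Real.rpow_le_rpow_of_exponent_ge h0 hv1 ha1
      have hbump' : ∀ s : E d, |fderiv ℝ (bump hr p₀) p s| ≤ B * ‖s‖ := fun s =>
        (ContinuousLinearMap.le_opNorm _ _).trans
          (mul_le_mul_of_nonneg_right (hbump p) (norm_nonneg _))
      have e5 : ‖(inChart J z p - inChart J z q) u‖ ≤ M * ‖v‖ ^ a * ‖u‖ := by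
        refine (ContinuousLinearMap.le_opNorm _ _).trans
          (mul_le_mul_of_nonneg_right ?_ (norm_nonneg _))
        refine (hJ.hol p hpb' q hsm').trans (mul_le_mul_of_nonneg_left ?_ hM)
        refine Real.rpow_le_rpow (norm_nonneg _) ?_ ha.le
        rw [norm_sub_rev, hq]
        exact sh_sub_norm hr p₀ v p
      have e6 : ‖(fderiv ℝ (bump hr p₀) p (inChart J z p u)) • v‖ ≤ B * M * ‖v‖ ^ a * ‖u‖ := by
        rw [norm_smul, Real.norm_eq_abs]
        have h1 := hbump' (inChart J z p u)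
        have h2 : ‖inChart J z p u‖ ≤ M * ‖u‖ := (ContinuousLinearMap.le_opNorm _ _).trans
          (mul_le_mul_of_nonneg_right (hJ.bdd p hpb') (norm_nonneg _))
        calc _ ≤ (B * (M * ‖u‖)) * ‖v‖ ^ a := by
              refine mul_le_mul (h1.trans (mul_le_mul_of_nonneg_left h2 hB.le)) hva
                (norm_nonneg _) (by positivity)
          _ = _ := by ring
      have e7 : ‖(fderiv ℝ (bump hr p₀) p u) • inChart J z q v‖ ≤ B * M * ‖v‖ ^ a * ‖u‖ := by
        rw [norm_smul, Real.norm_eq_abs]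
        have h1 := hbump' u
        have h2 : ‖inChart J z q v‖ ≤ M * ‖v‖ ^ a := (ContinuousLinearMap.le_opNorm _ _).trans
          (mul_le_mul (hJ.bdd q hsm') hva (norm_nonneg _) hM)
        calc _ ≤ (B * ‖u‖) * (M * ‖v‖ ^ a) := mul_le_mul h1 h2 (norm_nonneg _) (by positivity)
          _ = _ := by ring
      have e8 : ‖(inChart J z p - inChart J z q) u +
          ((fderiv ℝ (bump hr p₀) p (inChart J z p u)) • v -
            (fderiv ℝ (bump hr p₀) p u) • inChart J z q v)‖ ≤
          (1 + 2 * B) * M * ‖v‖ ^ a * ‖u‖ := by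
        refine (norm_add_le _ _).trans ?_
        have := norm_sub_le ((fderiv ℝ (bump hr p₀) p (inChart J z p u)) • v)
          ((fderiv ℝ (bump hr p₀) p u) • inChart J z q v)
        calc _ ≤ M * ‖v‖ ^ a * ‖u‖ + (B * M * ‖v‖ ^ a * ‖u‖ + B * M * ‖v‖ ^ a * ‖u‖) := by
              linarith
          _ = _ := by ring
      have e9 := hG.low p hpb' u
      calc _ ≤ L * ((1 + 2 * B) * M * ‖v‖ ^ a * ‖u‖) := by
            refine (ContinuousLinearMap.le_opNorm _ _).trans ?_
            exact mul_le_mul (hG.bdd q hsm') e8 (norm_nonneg _) hL.le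
        _ ≤ L * ((1 + 2 * B) * M * ‖v‖ ^ a * (L * ‖fderiv ℝ (Gz (d := d) F z) p u‖)) := by
            refine mul_le_mul_of_nonneg_left ?_ hL.le
            exact mul_le_mul_of_nonneg_left e9 (by positivity)
        _ = _ := by ring
    · rw [tr_mfderiv_out hr hG.sub v hx, tr_of_not_core hr v hx]
      have e : (ContinuousLinearMap.id ℝ (TangentSpace (𝓡 d) x) (J x w) -
        J x (ContinuousLinearMap.id ℝ (TangentSpace (𝓡 d) x) w)) = 0 := sub_self _
      have e0 : nm F x (0 : TangentSpace (𝓡 d) x) = 0 := by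
        unfold nm
        rw [map_zero]
        exact norm_zero
      have e' : nm F x (ContinuousLinearMap.id ℝ (TangentSpace (𝓡 d) x) (J x w) -
        J x (ContinuousLinearMap.id ℝ (TangentSpace (𝓡 d) x) w)) = 0 := by rw [e, e0]
      rw [e']
      exact mul_nonneg (by positivity) (hnn _ _)

end

end Pool.Agent.H33.TM
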