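import Pool.Agent.H33.TM.Geo

/-!
# Displacements of points by the cut-off translations
-/

set_option autoImplicit false

open Set Filter Topology MeasureTheory
open scoped Manifold ContDiff

noncomputable section

namespace Pool.Agent.H33.TM

open Pool.Agent.Y501.SY Pool.Agent.Y455.SY Pool.Agent.Q235.SZ

section

variable {d m : ℕ}

theorem bump_deriv_bound {r : ℝ} (hr : 0 < r) (p₀ : E d) :
    ∃ B : ℝ, 0 < B ∧ ∀ p, ‖fderiv ℝ (bump hr p₀) p‖ ≤ B := by
  have h1 : ContDiff ℝ ∞ (bump hr p₀ : E d → ℝ) := (bump hr p₀).contDiff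
  have h2 : Continuous (fderiv ℝ (bump hr p₀ : E d → ℝ)) := h1.continuous_fderiv (by simp)
  have h3 : HasCompactSupport (fderiv ℝ (bump hr p₀ : E d → ℝ)) :=
    (bump hr p₀).hasCompactSupport.fderiv ℝ
  obtain ⟨C, hC⟩ := h2.bounded_above_of_compact_support h3
  exact ⟨max C 1, by positivity, fun p => (hC p).trans (le_max_left _ _)⟩

theorem sh_hasFDerivAt {r : ℝ} (hr : 0 < r) (p₀ v p : E d) :
    HasFDerivAt (sh hr p₀ v)
      (ContinuousLinearMap.id ℝ (E d) + (fderiv ℝ (bump hr p₀) p).smulRight v) p := by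
  unfold sh
  have h1 : HasFDerivAt (bump hr p₀ : E d → ℝ) (fderiv ℝ (bump hr p₀) p) p :=
    ((show ContDiff ℝ ∞ (bump hr p₀ : E d → ℝ) from (bump hr p₀).contDiff).differentiable
      (by simp) p).hasFDerivAt
  exact (hasFDerivAt_id p).add (h1.smul_const v)

theorem sh_deriv {r : ℝ} (hr : 0 < r) (p₀ v p w : E d) :
    fderiv ℝ (sh hr p₀ v) p w = w + (fderiv ℝ (bump hr p₀) p w) • v := by
  rw [(sh_hasFDerivAt hr p₀ v p).fderiv]
  rfl

theorem sh_sub_sh {r : ℝ} (hr : 0 < r) (p₀ v v' p : E d) :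
    ‖sh hr p₀ v p - sh hr p₀ v' p‖ ≤ ‖v - v'‖ := by
  unfold sh
  rw [add_sub_add_left_eq_sub, ← smul_sub, norm_smul, Real.norm_eq_abs,
    abs_of_nonneg (bump hr p₀).nonneg]
  exact mul_le_of_le_one_left (norm_nonneg _) (bump hr p₀).le_one

end

section

variable {d m : ℕ} {X : Type} [TopologicalSpace X] [ChartedSpace (E d) X]
  [IsManifold (𝓡 d) ∞ X]

omit [IsManifold (𝓡 d) ∞ X] in
/-- in the chart -/
theorem F_tr (F : X → E m) {r : ℝ} (hr : 0 < r) {z : X} (v : E d) {x : X}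
    (hx : x ∈ (chartAt (E d) z).source) :
    F (tr hr z v x) = Gz (d := d) F z (sh hr (chartAt (E d) z z) v (chartAt (E d) z x)) := by
  rw [tr_of_mem hr z v hx]
  rfl

omit [IsManifold (𝓡 d) ∞ X] in
theorem tr_lip {F : X → E m} {r L : ℝ} (hr : 0 < r) {z : X} (hG : GeoB (d := d) F z (8 * r) L)
    {v v' : E d} (hv : ‖v‖ ≤ r) (hv' : ‖v'‖ ≤ r) (x : X) :
    ‖F (tr hr z v x) - F (tr hr z v' x)‖ ≤ L * ‖v - v'‖ := by
  by_cases hx : x ∈ core d r z
  · obtain ⟨h1, h2⟩ := core_mem hr hG.sub hx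
    rw [F_tr F hr v h1, F_tr F hr v' h1]
    have h3 : chartAt (E d) z x ∈ Metric.closedBall (chartAt (E d) z z) (8 * r) :=
      Metric.closedBall_subset_closedBall (by linarith) h2
    refine (hG.lip _ (sh_mem hr _ hv subset_rfl h3) _ (sh_mem hr _ hv' subset_rfl h3)).trans ?_
    exact mul_le_mul_of_nonneg_left (sh_sub_sh hr _ v v' _) hG.pos.le
  · rw [tr_of_not_core hr v hx, tr_of_not_core hr v' hx, sub_self, norm_zero]
    exact mul_nonneg hG.pos.le (norm_nonneg _)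

omit [IsManifold (𝓡 d) ∞ X] in
theorem tr_zero {r : ℝ} (hr : 0 < r) (z : X) (x : X) : tr (d := d) hr z 0 x = x := by
  by_cases h : x ∈ (chartAt (E d) z).source
  · rw [tr_of_mem hr z _ h]
    unfold sh
    rw [smul_zero, add_zero, (chartAt (E d) z).left_inv h]
  · exact tr_of_not_mem hr z _ h

omit [IsManifold (𝓡 d) ∞ X] in
theorem tr_disp {F : X → E m} {r L : ℝ} (hr : 0 < r) {z : X} (hG : GeoB (d := d) F z (8 * r) L)
    {v : E d} (hv : ‖v‖ ≤ r) (x : X) : ‖F (tr hr z v x) - F x‖ ≤ L * ‖v‖ := by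
  have h := tr_lip hr hG (v := v) (v' := 0) hv (by rw [norm_zero]; exact hr.le) x
  rwa [tr_zero, sub_zero] at h

theorem tr_diff [CompactSpace X] [T2Space X] {F : X → E m} (hF : ContMDiff (𝓡 d) (𝓡 m) ∞ F)
    (hFi : Function.Injective F) {r L : ℝ} (hr : 0 < r) {z : X}
    (hG : GeoB (d := d) F z (8 * r) L) :
    ∃ C : ℝ, 0 < C ∧ ∀ v : E d, ‖v‖ ≤ r → ∀ x y : X,
      ‖(F (tr hr z v x) - F x) - (F (tr hr z v y) - F y)‖ ≤ C * ‖v‖ * ‖F x - F y‖ := by
  obtain ⟨B, hB, hbump⟩ := bump_deriv_bound hr (chartAt (E d) z z)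
  obtain ⟨ρ, hρ, hclose⟩ := close (d := d) hF.continuous hFi z (δ := 8 * r) (by linarith) hG.sub
  obtain ⟨p₀, hp₀⟩ : ∃ p₀, p₀ = chartAt (E d) z z := ⟨_, rfl⟩
  obtain ⟨Bl, hBl⟩ : ∃ Bl, Bl = Metric.closedBall p₀ (8 * r) := ⟨_, rfl⟩
  have hL := hG.pos
  have hGs := Gz_smooth (m := m) hF z
  -- the difference in the chart
  have hH : ∀ v : E d, ‖v‖ ≤ r → ∀ p ∈ Bl, ∀ q ∈ Bl,
      ‖(Gz (d := d) F z (sh hr p₀ v p) - Gz (d := d) F z p) -
        (Gz (d := d) F z (sh hr p₀ v q) - Gz (d := d) F z q)‖ ≤ (L * (1 + B) * ‖v‖) * ‖p - q‖ := by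
    intro v hv p hp q hq
    rw [hBl] at hp hq
    have hmem : ∀ x ∈ Metric.closedBall p₀ (8 * r), sh hr p₀ v x ∈
        Metric.closedBall p₀ (8 * r) := fun x hx => sh_mem hr p₀ hv subset_rfl hx
    have hsub : Metric.closedBall p₀ (8 * r) ⊆ (chartAt (E d) z).target := by
      rw [hp₀]; exact hG.sub
    have hda : ∀ x ∈ Metric.closedBall p₀ (8 * r),
        HasFDerivAt (Gz (d := d) F z) (fderiv ℝ (Gz (d := d) F z) x) x := fun x hx =>
      ((hGs.contDiffAt ((chartAt (E d) z).open_target.mem_nhds (hsub hx))).differentiableAt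
        (by simp)).hasFDerivAt
    refine (convex_closedBall p₀ (8 * r)).norm_image_sub_le_of_norm_hasFDerivWithin_le
      (f := fun x => Gz (d := d) F z (sh hr p₀ v x) - Gz (d := d) F z x)
      (f' := fun x => (fderiv ℝ (Gz (d := d) F z) (sh hr p₀ v x)).comp
        (ContinuousLinearMap.id ℝ (E d) + (fderiv ℝ (bump hr p₀) x).smulRight v) -
        fderiv ℝ (Gz (d := d) F z) x) (fun x hx => ?_) (fun x hx => ?_) hq hp
    · exact (((hda _ (hmem x hx)).comp x (sh_hasFDerivAt hr p₀ v x)).sub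
        (hda x hx)).hasFDerivWithinAt
    · have e1 : (fderiv ℝ (Gz (d := d) F z) (sh hr p₀ v x)).comp
          (ContinuousLinearMap.id ℝ (E d) + (fderiv ℝ (bump hr p₀) x).smulRight v) -
          fderiv ℝ (Gz (d := d) F z) x =
          (fderiv ℝ (Gz (d := d) F z) (sh hr p₀ v x) - fderiv ℝ (Gz (d := d) F z) x) +
          (fderiv ℝ (Gz (d := d) F z) (sh hr p₀ v x)).comp
            ((fderiv ℝ (bump hr p₀) x).smulRight v) := by
        rw [ContinuousLinearMap.comp_add, ContinuousLinearMap.comp_id]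
        abel
      rw [e1]
      refine (norm_add_le _ _).trans ?_
      have e2 := hG.lip' _ (by rw [← hp₀]; exact hmem x hx) x (by rw [← hp₀]; exact hx)
      have e3 : ‖(fderiv ℝ (Gz (d := d) F z) (sh hr p₀ v x)).comp
          ((fderiv ℝ (bump hr p₀) x).smulRight v)‖ ≤ L * (B * ‖v‖) := by
        refine (ContinuousLinearMap.opNorm_comp_le _ _).trans ?_
        refine mul_le_mul (hG.bdd _ (by rw [← hp₀]; exact hmem x hx)) ?_ (norm_nonneg _) hL.le
        rw [ContinuousLinearMap.norm_smulRight_apply]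
        exact mul_le_mul_of_nonneg_right (by rw [hp₀]; exact hbump x) (norm_nonneg _)
      have e4 := sh_sub_norm hr p₀ v x
      have e5 : L * ‖sh hr p₀ v x - x‖ ≤ L * ‖v‖ := mul_le_mul_of_nonneg_left e4 hL.le
      calc _ ≤ L * ‖v‖ + L * (B * ‖v‖) := add_le_add (e2.trans e5) e3
        _ = L * (1 + B) * ‖v‖ := by ring
  refine ⟨L * (1 + B) * L + L / ρ, by positivity, fun v hv => ?_⟩
  -- one point in the core, the other outside the large ball
  have hone : ∀ x y : X, x ∈ core d r z →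
      ¬ (y ∈ (chartAt (E d) z).source ∧ chartAt (E d) z y ∈ Metric.ball p₀ (8 * r)) →
      ‖F (tr hr z v x) - F x‖ ≤ (L * (1 + B) * L + L / ρ) * ‖v‖ * ‖F x - F y‖ := by
    intro x y hx hy
    obtain ⟨h1, h2⟩ := core_mem hr hG.sub hx
    have h3 : ρ ≤ ‖F x - F y‖ := by
      by_contra hlt
      rw [not_le, norm_sub_rev] at hlt
      have h4 := hclose x h1 (by
        have : 8 * r / 2 = 4 * r := by ring
        rw [this]; exact h2) y hlt
      rw [← hp₀] at h4
      exact hy h4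
    refine (tr_disp hr hG hv x).trans ?_
    have h5 : L ≤ L / ρ * ‖F x - F y‖ := by
      rw [div_mul_eq_mul_div, le_div_iff₀ hρ]
      exact mul_le_mul_of_nonneg_left h3 hL.le
    have h6 : 0 ≤ L * (1 + B) * L * ‖F x - F y‖ := by positivity
    have h7 : L * ‖v‖ ≤ (L / ρ * ‖F x - F y‖ + L * (1 + B) * L * ‖F x - F y‖) * ‖v‖ :=
      mul_le_mul_of_nonneg_right (by linarith) (norm_nonneg _)
    calc _ ≤ _ := h7
      _ = _ := by ring
  have hout : ∀ y : X, ¬ (y ∈ (chartAt (E d) z).source ∧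
      chartAt (E d) z y ∈ Metric.ball p₀ (8 * r)) → y ∉ core d r z := by
    intro y hy hyc
    obtain ⟨h1, h2⟩ := core_mem hr hG.sub hyc
    refine hy ⟨h1, ?_⟩
    rw [hp₀]
    exact Metric.closedBall_subset_ball (by linarith) h2
  have hzero : ∀ y : X, y ∉ core d r z → F (tr hr z v y) - F y = 0 := by
    intro y hy
    rw [tr_of_not_core hr v hy, sub_self]
  intro x y
  by_cases hx : x ∈ (chartAt (E d) z).source ∧ chartAt (E d) z x ∈ Metric.ball p₀ (8 * r)
  · by_cases hy : y ∈ (chartAt (E d) z).source ∧ chartAt (E d) z y ∈ Metric.ball p₀ (8 * r)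
    · have h1 := hH v hv (chartAt (E d) z x) (by
        rw [hBl]; exact Metric.ball_subset_closedBall hx.2) (chartAt (E d) z y) (by
        rw [hBl]; exact Metric.ball_subset_closedBall hy.2)
      rw [hp₀, ← F_tr F hr v hx.1, ← F_tr F hr v hy.1, Gz_chart F z hx.1, Gz_chart F z hy.1] at h1
      refine h1.trans ?_
      have h2 := hG.anti (chartAt (E d) z x) (by
        rw [← hp₀]; exact Metric.ball_subset_closedBall hx.2) (chartAt (E d) z y) (by
        rw [← hp₀]; exact Metric.ball_subset_closedBall hy.2)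
      rw [Gz_chart F z hx.1, Gz_chart F z hy.1] at h2
      have h3 : L * (1 + B) * ‖v‖ * ‖chartAt (E d) z x - chartAt (E d) z y‖ ≤
          L * (1 + B) * ‖v‖ * (L * ‖F x - F y‖) := mul_le_mul_of_nonneg_left h2 (by positivity)
      have h4 : 0 ≤ L / ρ * ‖v‖ * ‖F x - F y‖ := by positivity
      calc _ ≤ _ := h3
        _ ≤ L * (1 + B) * ‖v‖ * (L * ‖F x - F y‖) + L / ρ * ‖v‖ * ‖F x - F y‖ := by linarith
        _ = _ := by ring
    · rw [hzero y (hout y hy), sub_zero]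
      by_cases hxc : x ∈ core d r z
      · exact hone x y hxc hy
      · rw [hzero x hxc, norm_zero]
        positivity
  · rw [hzero x (hout x hx), zero_sub, norm_neg]
    by_cases hyc : y ∈ core d r z
    · rw [norm_sub_rev (F x) (F y)]
      exact hone y x hyc hx
    · rw [hzero y hyc, norm_zero]
      positivity

theorem tr_anti [CompactSpace X] [T2Space X] {F : X → E m} (hF : ContMDiff (𝓡 d) (𝓡 m) ∞ F)
    (hFi : Function.Injective F) {r L : ℝ} (hr : 0 < r) {z : X}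
    (hG : GeoB (d := d) F z (8 * r) L) :
    ∃ δ : ℝ, 0 < δ ∧ δ ≤ r ∧ ∀ v : E d, ‖v‖ ≤ δ → ∀ x y : X,
      ‖F x - F y‖ ≤ 2 * ‖F (tr hr z v x) - F (tr hr z v y)‖ := by
  obtain ⟨C, hC, h⟩ := tr_diff hF hFi hr hG
  refine ⟨min r (1 / (2 * C)), by positivity, min_le_left _ _, fun v hv x y => ?_⟩
  have h1 := h v (hv.trans (min_le_left _ _)) x y
  have h2 : C * ‖v‖ ≤ 1 / 2 := by
    have := hv.trans (min_le_right _ _)
    rw [le_div_iff₀ (by positivity)] at this
    linarith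
  have h3 : C * ‖v‖ * ‖F x - F y‖ ≤ 1 / 2 * ‖F x - F y‖ :=
    mul_le_mul_of_nonneg_right h2 (norm_nonneg _)
  have h4 : ‖F x - F y‖ ≤ ‖F (tr hr z v x) - F (tr hr z v y)‖ +
      ‖(F (tr hr z v x) - F x) - (F (tr hr z v y) - F y)‖ := by
    have := norm_sub_le (F (tr hr z v x) - F (tr hr z v y))
      ((F (tr hr z v x) - F x) - (F (tr hr z v y) - F y))
    have e : F (tr hr z v x) - F (tr hr z v y) -
        ((F (tr hr z v x) - F x) - (F (tr hr z v y) - F y)) = F x - F y := by abel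
    rwa [e] at this
  linarith

end

end Pool.Agent.H33.TM
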