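import Pool.Agent.H33.TM.Core

/-!
# Limits of almost complex structures
-/

set_option autoImplicit false

open Set Filter Topology MeasureTheory
open scoped Manifold ContDiff ENNReal NNReal

noncomputable section

namespace Pool.Agent.H33.TM

open Pool.Agent.Y501.SY Pool.Agent.Y455.SY Pool.Agent.Q235.SZ

section

variable {d m : ℕ} {X : Type} [TopologicalSpace X] [ChartedSpace (E d) X]

/-- bounds and Hölder bounds on compact subsets of the charts, uniformly in `k` -/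
def UHol (a : ℝ) (J : ℕ → End d X) : Prop :=
  ∀ (x₀ : X) (S : Set (E d)), IsCompact S → S ⊆ (chartAt (E d) x₀).target →
    ∃ L : ℝ, ∀ k, ∀ p ∈ S, ‖inChart (J k) x₀ p‖ ≤ L ∧
      ∀ q ∈ S, ‖inChart (J k) x₀ p - inChart (J k) x₀ q‖ ≤ L * ‖p - q‖ ^ a

/-- the endomorphism of the tangent space at `x`, on the model space -/
def toE (J : End d X) (x : X) : E d →L[ℝ] E d := J x

variable [IsManifold (𝓡 d) ∞ X]

theorem J_formula (J : End d X) (x : X) (v : E d) :
    toE J x v = A x (chartAt (E d) x x) (inChart J x (chartAt (E d) x x)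
      (B x (chartAt (E d) x x) v)) := by
  have hp := mem_chart_target (E d) x
  have h1 := J_A J x hp (B x (chartAt (E d) x x) v)
  rw [AB x hp v, (chartAt (E d) x).left_inv (mem_chart_source (E d) x)] at h1
  exact h1

theorem exists_lim {a : ℝ} {J : ℕ → End d X} (hJ : UHol a J) (𝒰 : Ultrafilter ℕ) :
    ∃ J₀ : End d X, ∀ x, Tendsto (fun k => toE (J k) x) 𝒰 (𝓝 (toE J₀ x)) := by
  have key : ∀ x : X, ∃ T : E d →L[ℝ] E d, Tendsto (fun k => toE (J k) x) 𝒰 (𝓝 T) := by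
    intro x
    obtain ⟨L, hL⟩ := hJ x {chartAt (E d) x x} isCompact_singleton
      (singleton_subset_iff.2 (mem_chart_target (E d) x))
    obtain ⟨R, hR⟩ : ∃ R, R = ‖A x (chartAt (E d) x x)‖ * (|L| * ‖B x (chartAt (E d) x x)‖) :=
      ⟨_, rfl⟩
    have hb : ∀ k, ‖toE (J k) x‖ ≤ R := by
      intro k
      refine ContinuousLinearMap.opNorm_le_bound _ (by rw [hR]; positivity) fun v => ?_
      rw [J_formula]
      refine (ContinuousLinearMap.le_opNorm _ _).trans ?_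
      rw [hR, mul_assoc, mul_assoc]
      refine mul_le_mul_of_nonneg_left ?_ (norm_nonneg _)
      refine (ContinuousLinearMap.le_opNorm _ _).trans ?_
      refine mul_le_mul (((hL k _ rfl).1).trans (le_abs_self L))
        (ContinuousLinearMap.le_opNorm _ _) (norm_nonneg _) (abs_nonneg _)
    obtain ⟨T, _, hT⟩ := (isCompact_closedBall (0 : E d →L[ℝ] E d) R).ultrafilter_le_nhds
      (𝒰.map fun k => toE (J k) x) (by
        rw [le_principal_iff, Ultrafilter.mem_coe, Ultrafilter.mem_map]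
        refine Filter.univ_mem' fun k => ?_
        rw [mem_preimage, mem_closedBall_zero_iff]
        exact hb k)
    exact ⟨T, hT⟩
  choose J₀ hJ₀ using key
  exact ⟨fun x => J₀ x, hJ₀⟩

theorem tendsto_comp_right {ι : Type} {l : Filter ι} {T : ι → E d →L[ℝ] E d} {T₀ : E d →L[ℝ] E d}
    (h : Tendsto T l (𝓝 T₀)) (S : E d →L[ℝ] E d) :
    Tendsto (fun k => (T k).comp S) l (𝓝 (T₀.comp S)) :=
  (((ContinuousLinearMap.compL ℝ (E d) (E d) (E d)).flip S).continuous.tendsto T₀).comp h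

theorem tendsto_comp_left {ι : Type} {l : Filter ι} {T : ι → E d →L[ℝ] E d} {T₀ : E d →L[ℝ] E d}
    (h : Tendsto T l (𝓝 T₀)) (S : E d →L[ℝ] E d) :
    Tendsto (fun k => S.comp (T k)) l (𝓝 (S.comp T₀)) :=
  ((ContinuousLinearMap.compL ℝ (E d) (E d) (E d) S).continuous.tendsto T₀).comp h

theorem tendsto_apply' {ι : Type} {l : Filter ι} {T : ι → E d →L[ℝ] E d} {T₀ : E d →L[ℝ] E d}
    (h : Tendsto T l (𝓝 T₀)) {v : ι → E d} {v₀ : E d} (hv : Tendsto v l (𝓝 v₀)) :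
    Tendsto (fun k => T k (v k)) l (𝓝 (T₀ v₀)) :=
  ((isBoundedBilinearMap_apply (𝕜 := ℝ) (E := E d) (F := E d)).continuous.tendsto
    (T₀, v₀)).comp (h.prodMk_nhds hv)

omit [IsManifold (𝓡 d) ∞ X] in
theorem lim_inChart {J : ℕ → End d X} {𝒰 : Ultrafilter ℕ} {J₀ : End d X}
    (h : ∀ x, Tendsto (fun k => toE (J k) x) 𝒰 (𝓝 (toE J₀ x))) (x₀ : X) (p : E d) :
    Tendsto (fun k => inChart (J k) x₀ p) 𝒰 (𝓝 (inChart J₀ x₀ p)) := by
  have h1 := h ((chartAt (E d) x₀).symm p)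
  have h2 : Tendsto (fun k => (toE (J k) ((chartAt (E d) x₀).symm p)).comp
      (mfderiv (𝓡 d) (𝓡 d) (chartAt (E d) x₀).symm p : E d →L[ℝ] E d)) 𝒰
      (𝓝 ((toE J₀ ((chartAt (E d) x₀).symm p)).comp
      (mfderiv (𝓡 d) (𝓡 d) (chartAt (E d) x₀).symm p : E d →L[ℝ] E d))) :=
    tendsto_comp_right h1 _
  exact tendsto_comp_left h2 (mfderiv (𝓡 d) (𝓡 d) (chartAt (E d) x₀)
    ((chartAt (E d) x₀).symm p) : E d →L[ℝ] E d)

omit [IsManifold (𝓡 d) ∞ X] in
theorem lim_ac {a : ℝ} (ha : 0 < a) {J : ℕ → End d X} (hJ : UHol a J)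
    (hac : ∀ k, IsAlmostComplex (J k)) {𝒰 : Ultrafilter ℕ} {J₀ : End d X}
    (h : ∀ x, Tendsto (fun k => toE (J k) x) 𝒰 (𝓝 (toE J₀ x))) :
    IsAlmostComplex J₀ ∧ ∀ (x₀ : X) (S : Set (E d)) (L : ℝ),
      (∀ k, ∀ p ∈ S, ‖inChart (J k) x₀ p‖ ≤ L ∧
        ∀ q ∈ S, ‖inChart (J k) x₀ p - inChart (J k) x₀ q‖ ≤ L * ‖p - q‖ ^ a) →
      ∀ p ∈ S, ‖inChart J₀ x₀ p‖ ≤ L ∧
        ∀ q ∈ S, ‖inChart J₀ x₀ p - inChart J₀ x₀ q‖ ≤ L * ‖p - q‖ ^ a := by
  have key : ∀ (x₀ : X) (S : Set (E d)) (L : ℝ),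
      (∀ k, ∀ p ∈ S, ‖inChart (J k) x₀ p‖ ≤ L ∧
        ∀ q ∈ S, ‖inChart (J k) x₀ p - inChart (J k) x₀ q‖ ≤ L * ‖p - q‖ ^ a) →
      ∀ p ∈ S, ‖inChart J₀ x₀ p‖ ≤ L ∧
        ∀ q ∈ S, ‖inChart J₀ x₀ p - inChart J₀ x₀ q‖ ≤ L * ‖p - q‖ ^ a := by
    intro x₀ S L hL p hp
    refine ⟨?_, fun q hq => ?_⟩
    · exact le_of_tendsto (lim_inChart h x₀ p).norm (Eventually.of_forall fun k => (hL k p hp).1)
    · exact le_of_tendsto ((lim_inChart h x₀ p).sub (lim_inChart h x₀ q)).norm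
        (Eventually.of_forall fun k => (hL k p hp).2 q hq)
  refine ⟨⟨fun x v => ?_, fun x₀ => ?_⟩, key⟩
  · have h1 : Tendsto (fun k => toE (J k) x v) 𝒰 (𝓝 (toE J₀ x v)) :=
      tendsto_apply' (h x) tendsto_const_nhds
    have h2 : Tendsto (fun k => toE (J k) x (toE (J k) x v)) 𝒰
        (𝓝 (toE J₀ x (toE J₀ x v))) := tendsto_apply' (h x) h1
    have h3 : (fun k => toE (J k) x (toE (J k) x v)) =
        fun _ => (-v : E d) := by
      funext k
      exact (hac k).sq x v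
    rw [h3] at h2
    exact (tendsto_nhds_unique (X := E d) h2 tendsto_const_nhds)
  · intro p hp
    obtain ⟨s, hs, hst⟩ := Metric.nhds_basis_closedBall.mem_iff.1
      ((chartAt (E d) x₀).open_target.mem_nhds hp)
    obtain ⟨L, hL⟩ := hJ x₀ _ (isCompact_closedBall p s) hst
    have h1 := key x₀ _ L hL
    refine ContinuousAt.continuousWithinAt ?_
    rw [ContinuousAt, tendsto_iff_norm_sub_tendsto_zero]
    have h2 : Tendsto (fun q : E d => L * ‖q - p‖ ^ a) (𝓝 p) (𝓝 0) := by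
      have h3 : Tendsto (fun q : E d => ‖q - p‖) (𝓝 p) (𝓝 0) := tendsto_norm_sub_self p
      have h4 := (Real.continuousAt_rpow_const 0 a (Or.inr ha.le)).tendsto
      rw [Real.zero_rpow ha.ne'] at h4
      have h5 := (h4.comp h3).const_mul L
      rw [mul_zero] at h5
      exact h5
    refine squeeze_zero' (Eventually.of_forall fun q => norm_nonneg _) ?_ h2
    filter_upwards [Metric.closedBall_mem_nhds p hs] with q hq
    exact (h1 q hq).2 p (Metric.mem_closedBall_self hs.le)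

omit [IsManifold (𝓡 d) ∞ X] in
/-- uniform convergence on compact subsets of the charts -/
theorem lim_unif {a : ℝ} (ha : 0 < a) {J : ℕ → End d X} {𝒰 : Ultrafilter ℕ} {J₀ : End d X}
    (h : ∀ x, Tendsto (fun k => toE (J k) x) 𝒰 (𝓝 (toE J₀ x))) {x₀ : X}
    {S : Set (E d)} (hS : IsCompact S) {L : ℝ}
    (hL : ∀ k, ∀ p ∈ S, ∀ q ∈ S, ‖inChart (J k) x₀ p - inChart (J k) x₀ q‖ ≤ L * ‖p - q‖ ^ a)
    {η : ℝ} (hη : 0 < η) :
    ∀ᶠ k in (𝒰 : Filter ℕ), ∀ p ∈ S, ‖inChart (J k) x₀ p - inChart J₀ x₀ p‖ ≤ η := by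
  have hL₀ : ∀ p ∈ S, ∀ q ∈ S, ‖inChart J₀ x₀ p - inChart J₀ x₀ q‖ ≤ L * ‖p - q‖ ^ a :=
    fun p hp q hq => le_of_tendsto ((lim_inChart h x₀ p).sub (lim_inChart h x₀ q)).norm
      (Eventually.of_forall fun k => hL k p hp q hq)
  obtain ⟨s, hs, hsL⟩ : ∃ s : ℝ, 0 < s ∧ |L| * s ^ a ≤ η / 4 := by
    have h1 := (Real.continuousAt_rpow_const 0 a (Or.inr ha.le)).tendsto
    rw [Real.zero_rpow ha.ne'] at h1
    have h2 := (h1.const_mul |L|)
    rw [mul_zero] at h2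
    have h3 := (h2.eventually (gt_mem_nhds (show 0 < η / 4 by linarith))).filter_mono
      (nhdsWithin_le_nhds (s := Ioi 0))
    obtain ⟨s, h4, h5⟩ := (h3.and eventually_mem_nhdsWithin).exists
    exact ⟨s, h5, h4.le⟩
  obtain ⟨u, huS, hu, hcov⟩ := hS.finite_cover_balls hs
  have h1 : ∀ᶠ k in (𝒰 : Filter ℕ), ∀ p ∈ u, ‖inChart (J k) x₀ p - inChart J₀ x₀ p‖ ≤ η / 2 := by
    rw [hu.eventually_all]
    intro p _
    have h2 := (tendsto_iff_norm_sub_tendsto_zero.1 (lim_inChart h x₀ p)).eventually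
      (gt_mem_nhds (half_pos hη))
    filter_upwards [h2] with k hk
    exact hk.le
  filter_upwards [h1] with k hk p hp
  obtain ⟨q, hq, hpq⟩ := mem_iUnion₂.1 (hcov hp)
  rw [Metric.mem_ball, dist_eq_norm] at hpq
  have hpow : ‖p - q‖ ^ a ≤ s ^ a := Real.rpow_le_rpow (norm_nonneg _) hpq.le ha.le
  have e0 : L * ‖p - q‖ ^ a ≤ η / 4 := by
    refine le_trans ?_ hsL
    exact mul_le_mul (le_abs_self L) hpow (Real.rpow_nonneg (norm_nonneg _) _) (abs_nonneg _)
  have e1 := (hL k p hp q (huS hq)).trans e0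
  have e2 := hk q hq
  have e3 : ‖inChart J₀ x₀ q - inChart J₀ x₀ p‖ ≤ η / 4 := by
    rw [norm_sub_rev]
    exact (hL₀ p hp q (huS hq)).trans e0
  have e4 : inChart (J k) x₀ p - inChart J₀ x₀ p =
      (inChart (J k) x₀ p - inChart (J k) x₀ q) + (inChart (J k) x₀ q - inChart J₀ x₀ q) +
      (inChart J₀ x₀ q - inChart J₀ x₀ p) := by abel
  rw [e4]
  refine (norm_add₃_le).trans ?_
  linarith

/-- uniform convergence in the metric of an embedding -/
theorem lim_nm {F : X → E m} (hF : ContMDiff (𝓡 d) (𝓡 m) ∞ F)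
    {t : Finset X} {r : X → ℝ} (hat : Atl (d := d) F t r) {a : ℝ} (ha : 0 < a)
    {J : ℕ → End d X} (hJ : UHol a J) {𝒰 : Ultrafilter ℕ} {J₀ : End d X}
    (h : ∀ x, Tendsto (fun k => toE (J k) x) 𝒰 (𝓝 (toE J₀ x))) {η : ℝ} (hη : 0 < η) :
    ∀ᶠ k in (𝒰 : Filter ℕ), ∀ (x : X) (w : TangentSpace (𝓡 d) x),
      nm F x (J k x w - J₀ x w) ≤ η * nm F x w := by
  have key : ∀ z ∈ t, ∀ᶠ k in (𝒰 : Filter ℕ), ∀ x ∈ (chartAt (E d) z).source,
      chartAt (E d) z x ∈ Metric.closedBall (chartAt (E d) z z) (r z) →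
      ∀ w : TangentSpace (𝓡 d) x, nm F x (J k x w - J₀ x w) ≤ η * nm F x w := by
    intro z hz
    obtain ⟨hr, L, κ, δ₁, hcd⟩ := hat.cd z hz
    have hG := hcd.geo
    have hsub : Metric.closedBall (chartAt (E d) z z) (r z) ⊆
        Metric.closedBall (chartAt (E d) z z) (8 * r z) :=
      Metric.closedBall_subset_closedBall (by linarith)
    obtain ⟨L', hL'⟩ := hJ z _ (isCompact_closedBall (chartAt (E d) z z) (r z))
      (hsub.trans hG.sub)
    have hL0 := hG.pos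
    have h1 := lim_unif ha h (isCompact_closedBall (chartAt (E d) z z) (r z))
      (fun k p hp q hq => (hL' k p hp).2 q hq) (show 0 < η / (L * L) by positivity)
    filter_upwards [h1] with k hk x hx hxb w
    obtain ⟨p, hp⟩ : ∃ p, p = chartAt (E d) z x := ⟨_, rfl⟩
    rw [← hp] at hxb
    have hpt : p ∈ (chartAt (E d) z).target := by
      rw [hp]; exact (chartAt (E d) z).map_source hx
    have hxp : x = (chartAt (E d) z).symm p := by
      rw [hp, (chartAt (E d) z).left_inv hx]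
    clear hp hx
    subst hxp
    obtain ⟨u, rfl⟩ := A_surj z hpt w
    have e1 : (J k ((chartAt (E d) z).symm p) (A z p u) -
        J₀ ((chartAt (E d) z).symm p) (A z p u) : E d) =
        A z p ((inChart (J k) z p - inChart J₀ z p) u) := by
      rw [sub_apply, map_sub]
      exact congrArg₂ (fun s t : E d => s - t) (J_A (J k) z hpt u) (J_A J₀ z hpt u)
    have e2 : nm F ((chartAt (E d) z).symm p) (J k ((chartAt (E d) z).symm p) (A z p u) -
        J₀ ((chartAt (E d) z).symm p) (A z p u)) =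
        ‖fderiv ℝ (Gz (d := d) F z) p ((inChart (J k) z p - inChart J₀ z p) u)‖ :=
      (congrArg (nm F ((chartAt (E d) z).symm p)) e1).trans (nm_A hF z hpt _)
    rw [e2, nm_A hF z hpt]
    have e3 := hk p hxb
    have e4 := hG.low p (hsub hxb) u
    calc _ ≤ L * (η / (L * L) * ‖u‖) := by
          refine (ContinuousLinearMap.le_opNorm _ _).trans ?_
          refine mul_le_mul (hG.bdd p (hsub hxb)) ?_ (norm_nonneg _) hL0.le
          exact (ContinuousLinearMap.le_opNorm _ _).trans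
            (mul_le_mul_of_nonneg_right e3 (norm_nonneg _))
      _ ≤ L * (η / (L * L) * (L * ‖fderiv ℝ (Gz (d := d) F z) p u‖)) := by
          refine mul_le_mul_of_nonneg_left (mul_le_mul_of_nonneg_left e4 (by positivity)) hL0.le
      _ = _ := by field_simp
  have h2 : ∀ᶠ k in (𝒰 : Filter ℕ), ∀ z ∈ t, ∀ x ∈ (chartAt (E d) z).source,
      chartAt (E d) z x ∈ Metric.closedBall (chartAt (E d) z z) (r z) →
      ∀ w : TangentSpace (𝓡 d) x, nm F x (J k x w - J₀ x w) ≤ η * nm F x w :=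
    (Finset.eventually_all t).2 key
  filter_upwards [h2] with k hk x w
  obtain ⟨z, hz, hx, hxb⟩ := hat.cover x
  exact hk z hz x hx hxb w

end

end Pool.Agent.H33.TM
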