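import Pool.Agent.H33.TM.Der

/-!
# The area measure of an embedded manifold and the cut-off translations
-/

set_option autoImplicit false

open Set Filter Topology MeasureTheory
open scoped Manifold ContDiff ENNReal NNReal

noncomputable section

namespace Pool.Agent.H33.TM

open Pool.Agent.Y501.SY Pool.Agent.Y455.SY Pool.Agent.Q235.SZ

section

variable {d m : ℕ}

instance haar_inst (d : ℕ) : (μH[(d : ℝ)] : Measure (E d)).IsAddHaarMeasure := by
  have h := isAddHaarMeasure_hausdorffMeasure (E := E d)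
  rwa [finrank_euclideanSpace_fin] at h

/-- anti-Lipschitz maps on a subset -/
theorem haus_anti {V W : Type} [MetricSpace V] [MeasurableSpace V] [BorelSpace V] [MetricSpace W]
    [MeasurableSpace W] [BorelSpace W] {f : V → W} {S : Set V} {K : ℝ≥0}
    (h : ∀ x ∈ S, ∀ y ∈ S, dist x y ≤ K * dist (f x) (f y)) (s : ℝ) (hs : 0 ≤ s) :
    μH[s] S ≤ (K : ℝ≥0∞) ^ s * μH[s] (f '' S) := by
  have h1 : AntilipschitzWith K (fun x : S => f x) :=
    AntilipschitzWith.of_le_mul_dist fun x y => h x x.2 y y.2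
  have h2 := h1.le_hausdorffMeasure_image hs (univ : Set S)
  have h3 : μH[s] ((Subtype.val : S → V) '' univ) = μH[s] (univ : Set S) :=
    isometry_subtype_coe.hausdorffMeasure_image (Or.inl hs) _
  rw [image_univ, Subtype.range_coe] at h3
  rw [h3]
  refine h2.trans (le_of_eq ?_)
  congr 2
  rw [image_univ]
  ext y
  simp

theorem haus_lip {V W : Type} [MetricSpace V] [MeasurableSpace V] [BorelSpace V] [MetricSpace W]
    [MeasurableSpace W] [BorelSpace W] {f : V → W} {S : Set V} {K : ℝ≥0}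
    (h : ∀ x ∈ S, ∀ y ∈ S, dist (f x) (f y) ≤ K * dist x y) (s : ℝ) (hs : 0 ≤ s) :
    μH[s] (f '' S) ≤ (K : ℝ≥0∞) ^ s * μH[s] S :=
  (LipschitzOnWith.of_dist_le_mul h).hausdorffMeasure_image_le hs

end

section

variable {d m : ℕ} {X : Type} [TopologicalSpace X] [ChartedSpace (E d) X] [MeasurableSpace X]

variable (d) in
/-- the area measure induced by the embedding `F` -/
def area (F : X → E m) : Measure X := (μH[(d : ℝ)] : Measure (E m)).comap F

omit [ChartedSpace (E d) X] in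
theorem area_apply [BorelSpace X] [CompactSpace X] {F : X → E m} (hF : Continuous F)
    (hFi : Function.Injective F) (A : Set X) : area d F A = μH[(d : ℝ)] (F '' A) :=
  (hF.isClosedEmbedding hFi).measurableEmbedding.comap_apply _ _

omit [ChartedSpace (E d) X] in
theorem area_preimage_le [BorelSpace X] [CompactSpace X] {F : X → E m} (hF : Continuous F)
    (hFi : Function.Injective F) {Ψ : X → X}
    (hΨ : ∀ x y, ‖F x - F y‖ ≤ 2 * ‖F (Ψ x) - F (Ψ y)‖) (A : Set X) :
    area d F (Ψ ⁻¹' A) ≤ 2 ^ (d : ℝ) * area d F A := by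
  rw [area_apply hF hFi, area_apply hF hFi]
  rcases isEmpty_or_nonempty X with hX | hX
  · have h0 : Ψ ⁻¹' A = ∅ := Set.eq_empty_of_isEmpty _
    rw [h0, image_empty, measure_empty]
    exact bot_le
  · obtain ⟨g, hg⟩ : ∃ g : E m → E m, ∀ x, g (F x) = F (Ψ x) :=
      ⟨fun y => F (Ψ (Function.invFun F y)), fun x => by
        simp only [Function.leftInverse_invFun hFi x]⟩
    have h1 := haus_anti (f := g) (S := F '' (Ψ ⁻¹' A)) (K := 2) (by
      rintro _ ⟨x, hx, rfl⟩ _ ⟨y, hy, rfl⟩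
      rw [hg, hg, dist_eq_norm, dist_eq_norm]
      exact_mod_cast hΨ x y) (d : ℝ) (Nat.cast_nonneg d)
    refine h1.trans ?_
    have h2 : g '' (F '' (Ψ ⁻¹' A)) ⊆ F '' A := by
      rintro _ ⟨_, ⟨x, hx, rfl⟩, rfl⟩
      exact ⟨Ψ x, hx, (hg x).symm⟩
    exact mul_le_mul_right (measure_mono h2) _

/-- the ball in the metric induced by the embedding -/
def FB (F : X → E m) (x : X) (s : ℝ) : Set X := {y | ‖F y - F x‖ ≤ s}

omit [ChartedSpace (E d) X] [MeasurableSpace X] in
theorem FB_closed {F : X → E m} (hF : Continuous F) (x : X) (s : ℝ) :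
    IsClosed (FB F x s) :=
  isClosed_le ((hF.sub continuous_const).norm) continuous_const

/-- The images of small balls of parameters are absolutely continuous with bounded density. -/
theorem push_le [BorelSpace X] [CompactSpace X] {F : X → E m} (hF : Continuous F)
    (hFi : Function.Injective F) {r L : ℝ} (hr : 0 < r) {z : X}
    (hG : GeoB (d := d) F z (8 * r) L) {δ : ℝ} (hδ : δ ≤ r) {x : X}
    (hx : x ∈ (chartAt (E d) z).source)
    (hxb : chartAt (E d) z x ∈ Metric.closedBall (chartAt (E d) z z) (2 * r)) (A : Set X) :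
    μH[(d : ℝ)] {v : E d | v ∈ Metric.closedBall 0 δ ∧ tr hr z v x ∈ A} ≤
      ENNReal.ofReal L ^ (d : ℝ) * area d F (A ∩ FB F x (L * δ)) := by
  rw [area_apply hF hFi]
  have hL := hG.pos
  obtain ⟨p₀, hp₀⟩ : ∃ p₀, p₀ = chartAt (E d) z z := ⟨_, rfl⟩
  obtain ⟨p, hp⟩ : ∃ p, p = chartAt (E d) z x := ⟨_, rfl⟩
  obtain ⟨S, hS⟩ : ∃ S, S = {v : E d | v ∈ Metric.closedBall 0 δ ∧ tr hr z v x ∈ A} := ⟨_, rfl⟩
  rw [← hS]
  have hmem : ∀ v ∈ S, ‖v‖ ≤ δ ∧ p + v ∈ Metric.closedBall p₀ (8 * r) ∧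
      F (tr hr z v x) = Gz (d := d) F z (p + v) := by
    intro v hv
    rw [hS] at hv
    have h1 : ‖v‖ ≤ δ := by
      have := hv.1
      rwa [mem_closedBall_zero_iff] at this
    refine ⟨h1, ?_, ?_⟩
    · rw [Metric.mem_closedBall, dist_eq_norm]
      rw [← hp, ← hp₀, Metric.mem_closedBall, dist_eq_norm] at hxb
      have h2 : p + v - p₀ = (p - p₀) + v := by abel
      rw [h2]
      have := norm_add_le (p - p₀) v
      linarith
    · rw [F_tr F hr v hx, sh_inner hr _ v hxb, hp]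
  have h1 := haus_anti (f := fun v : E d => Gz (d := d) F z (p + v)) (S := S)
    (K := Real.toNNReal L) (by
      intro v hv w hw
      rw [dist_eq_norm, dist_eq_norm, Real.coe_toNNReal _ hL.le]
      have h2 := hG.anti (p + v) (by rw [← hp₀]; exact (hmem v hv).2.1) (p + w)
        (by rw [← hp₀]; exact (hmem w hw).2.1)
      rwa [add_sub_add_left_eq_sub] at h2) (d : ℝ) (Nat.cast_nonneg d)
  refine h1.trans ?_
  rw [ENNReal.ofReal]
  refine mul_le_mul_right (measure_mono ?_) _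
  rintro _ ⟨v, hv, rfl⟩
  obtain ⟨h3, h4, h5⟩ := hmem v hv
  refine ⟨tr hr z v x, ⟨?_, ?_⟩, h5⟩
  · rw [hS] at hv
    exact hv.2
  · refine (tr_disp hr hG (h3.trans hδ) x).trans ?_
    exact mul_le_mul_of_nonneg_left h3 hL.le

/-- The area of small balls. -/
theorem area_ball [BorelSpace X] [CompactSpace X] [T2Space X] [IsManifold (𝓡 d) ∞ X]
    {F : X → E m} (hF : Continuous F)
    (hFi : Function.Injective F) {r L : ℝ} (hr : 0 < r) {z : X}
    (hG : GeoB (d := d) F z (8 * r) L) :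
    ∃ ρ C : ℝ, 0 < ρ ∧ 0 < C ∧ ∀ s : ℝ, 0 ≤ s → s < ρ → ∀ x ∈ (chartAt (E d) z).source,
      chartAt (E d) z x ∈ Metric.closedBall (chartAt (E d) z z) (2 * r) →
      area d F (FB F x s) ≤ ENNReal.ofReal (C * s ^ d) := by
  have hL := hG.pos
  obtain ⟨ρ, hρ, hclose⟩ := close (d := d) hF hFi z (δ := 4 * r) (by linarith)
    ((Metric.closedBall_subset_closedBall (by linarith)).trans hG.sub)
  obtain ⟨c, hc⟩ : ∃ c, c = (μH[(d : ℝ)] (Metric.ball (0 : E d) 1)) := ⟨_, rfl⟩
  have hctop : c ≠ ⊤ := by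
    rw [hc]
    exact measure_ball_lt_top.ne
  refine ⟨ρ, L ^ d * (L ^ d * (c.toReal + 1)), hρ, by positivity, ?_⟩
  intro s hs hsρ x hx hxb
  rw [area_apply hF hFi]
  obtain ⟨p₀, hp₀⟩ : ∃ p₀, p₀ = chartAt (E d) z z := ⟨_, rfl⟩
  obtain ⟨p, hp⟩ : ∃ p, p = chartAt (E d) z x := ⟨_, rfl⟩
  obtain ⟨S, hS⟩ : ∃ S, S = Metric.closedBall p (L * s) ∩ Metric.closedBall p₀ (8 * r) := ⟨_, rfl⟩
  have h1 : F '' (FB F x s) ⊆ Gz (d := d) F z '' S := by
    rintro _ ⟨y, hy, rfl⟩
    have hy1 : ‖F y - F x‖ ≤ s := hy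
    obtain ⟨h2, h3⟩ := hclose x hx (by
      have : 4 * r / 2 = 2 * r := by ring
      rw [this]; exact hxb) y (hy1.trans_lt hsρ)
    have h4 : chartAt (E d) z y ∈ Metric.closedBall (chartAt (E d) z z) (8 * r) :=
      Metric.ball_subset_closedBall (Metric.ball_subset_ball (by linarith) h3)
    have h5 : chartAt (E d) z x ∈ Metric.closedBall (chartAt (E d) z z) (8 * r) :=
      Metric.closedBall_subset_closedBall (by linarith) hxb
    refine ⟨chartAt (E d) z y, ?_, Gz_chart F z h2⟩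
    rw [hS]
    refine ⟨?_, by rw [hp₀]; exact h4⟩
    rw [Metric.mem_closedBall, dist_eq_norm, hp]
    refine (hG.anti _ h4 _ h5).trans ?_
    rw [Gz_chart F z h2, Gz_chart F z hx]
    exact mul_le_mul_of_nonneg_left hy1 hL.le
  refine (measure_mono h1).trans ?_
  have h2 := haus_lip (f := Gz (d := d) F z) (S := S) (K := Real.toNNReal L) (by
    intro q hq q' hq'
    rw [dist_eq_norm, dist_eq_norm, Real.coe_toNNReal _ hL.le]
    rw [hS] at hq hq'
    exact hG.lip q (by rw [← hp₀]; exact hq.2) q' (by rw [← hp₀]; exact hq'.2)) (d : ℝ)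
    (Nat.cast_nonneg d)
  refine h2.trans ?_
  have h3 : μH[(d : ℝ)] S ≤ ENNReal.ofReal ((L * s) ^ d) * c := by
    refine (measure_mono (show S ⊆ Metric.closedBall p (L * s) by
      rw [hS]; exact inter_subset_left)).trans ?_
    rw [Measure.addHaar_closedBall _ _ (by positivity), finrank_euclideanSpace_fin, hc]
  have h4 : ((Real.toNNReal L : ℝ≥0) : ℝ≥0∞) ^ (d : ℝ) = ENNReal.ofReal (L ^ d) := by
    rw [ENNReal.rpow_natCast, ← ENNReal.ofReal, ENNReal.ofReal_pow hL.le]
  rw [h4]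
  calc _ ≤ ENNReal.ofReal (L ^ d) * (ENNReal.ofReal ((L * s) ^ d) * c) :=
        mul_le_mul_right h3 _
    _ ≤ ENNReal.ofReal (L ^ d) * (ENNReal.ofReal ((L * s) ^ d) * ENNReal.ofReal (c.toReal + 1)) := by
        refine mul_le_mul_right (mul_le_mul_right ?_ _) _
        refine (ENNReal.le_ofReal_iff_toReal_le hctop (by positivity)).2 (by linarith)
    _ = _ := by
        rw [← ENNReal.ofReal_mul (by positivity), ← ENNReal.ofReal_mul (by positivity), mul_pow]
        congr 1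
        ring

end

end Pool.Agent.H33.TM
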