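import Pool.Agent.H33.TM.Reg

/-!
# Separated sets and overlaps of balls
-/

set_option autoImplicit false

open Set Filter Topology MeasureTheory
open scoped Manifold ContDiff ENNReal NNReal

noncomputable section

namespace Pool.Agent.H33.TM

open Pool.Agent.Y501.SY Pool.Agent.Y455.SY Pool.Agent.Q235.SZ

section

variable {m : ℕ} {X : Type}

/-- `S` is `δ`-separated. -/
def Sep (F : X → E m) (δ : ℝ) (S : Set X) : Prop :=
  ∀ x ∈ S, ∀ y ∈ S, x ≠ y → δ ≤ ‖F x - F y‖

theorem exists_net (F : X → E m) (δ : ℝ) (A : Set X) :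
    ∃ S : Set X, S ⊆ A ∧ Sep F δ S ∧ ∀ x ∈ A, x ∉ S → ∃ y ∈ S, ‖F x - F y‖ < δ := by
  obtain ⟨S, hS⟩ := zorn_subset {S : Set X | S ⊆ A ∧ Sep F δ S} (by
    intro c hc hchain
    refine ⟨⋃₀ c, ⟨sUnion_subset fun s hs => (hc hs).1, ?_⟩, fun s hs => subset_sUnion_of_mem hs⟩
    rintro x ⟨s, hs, hx⟩ y ⟨s', hs', hy⟩ hxy
    rcases hchain.total hs hs' with h | h
    · exact (hc hs').2 x (h hx) y hy hxy
    · exact (hc hs).2 x hx y (h hy) hxy)
  refine ⟨S, hS.prop.1, hS.prop.2, fun x hx hxS => ?_⟩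
  by_contra hcon
  push Not at hcon
  have h1 : insert x S ∈ {S : Set X | S ⊆ A ∧ Sep F δ S} := by
    refine ⟨insert_subset hx hS.prop.1, ?_⟩
    intro u hu v hv huv
    rcases hu with rfl | hu
    · rcases hv with rfl | hv
      · exact absurd rfl huv
      · exact hcon v hv
    · rcases hv with rfl | hv
      · rw [norm_sub_rev]
        exact hcon u hu
      · exact hS.prop.2 u hu v hv huv
  exact hxS (hS.le_of_ge h1 (subset_insert x S) (mem_insert x S))

/-- The number of points of a separated set in a ball. -/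
theorem sep_card (F : X → E m) {δ R : ℝ} (hδ : 0 < δ) (hR : 0 ≤ R) {s : Finset X}
    (hs : Sep F δ (s : Set X)) (y : X) (hy : ∀ x ∈ s, ‖F y - F x‖ ≤ R * δ) :
    (s.card : ℝ) ≤ (2 * R + 1) ^ m := by
  classical
  have hdisj : (s : Set X).PairwiseDisjoint fun x => Metric.ball (F x) (δ / 2) := by
    intro x hx x' hx' hne
    refine Metric.ball_disjoint_ball ?_
    rw [dist_eq_norm]
    have := hs x hx x' hx' hne
    linarith
  have hsub : (⋃ x ∈ s, Metric.ball (F x) (δ / 2)) ⊆ Metric.ball (F y) ((R + 1 / 2) * δ) := by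
    refine iUnion₂_subset fun x hx u hu => ?_
    rw [Metric.mem_ball, dist_eq_norm] at hu ⊢
    have h1 := hy x hx
    have h2 := norm_sub_le_norm_sub_add_norm_sub u (F x) (F y)
    rw [norm_sub_rev (F x) (F y)] at h2
    linarith
  have h1 := measure_mono (μ := (volume : Measure (E m))) hsub
  rw [measure_biUnion_finset hdisj fun x _ => Metric.isOpen_ball.measurableSet] at h1
  simp only [Measure.addHaar_ball_of_pos _ _ (half_pos hδ),
    Measure.addHaar_ball_of_pos _ (F y) (show 0 < (R + 1 / 2) * δ by positivity),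
    finrank_euclideanSpace_fin, Finset.sum_const, nsmul_eq_mul] at h1
  obtain ⟨c, hc⟩ : ∃ c, c = (volume : Measure (E m)) (Metric.ball 0 1) := ⟨_, rfl⟩
  have hc0 : c ≠ 0 := by rw [hc]; exact (Metric.measure_ball_pos _ _ one_pos).ne'
  have hct : c ≠ ⊤ := by rw [hc]; exact measure_ball_lt_top.ne
  rw [← hc, ← mul_assoc] at h1
  have h2 : (s.card : ℝ≥0∞) * ENNReal.ofReal ((δ / 2) ^ m) ≤
      ENNReal.ofReal (((R + 1 / 2) * δ) ^ m) :=
    (ENNReal.mul_le_mul_iff_left hc0 hct).1 h1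
  have h3 : ENNReal.ofReal ((s.card : ℝ) * (δ / 2) ^ m) ≤
      ENNReal.ofReal (((R + 1 / 2) * δ) ^ m) := by
    rw [ENNReal.ofReal_mul (Nat.cast_nonneg _), ENNReal.ofReal_natCast]
    exact h2
  rw [ENNReal.ofReal_le_ofReal_iff (by positivity)] at h3
  have h4 : ((R + 1 / 2) * δ) ^ m = (2 * R + 1) ^ m * (δ / 2) ^ m := by
    rw [← mul_pow]
    congr 1
    ring
  rw [h4] at h3
  exact le_of_mul_le_mul_right h3 (by positivity)

/-- overlaps -/
theorem sum_overlap [MeasurableSpace X] (μ : Measure X) {F : X → E m} {δ R : ℝ} (hδ : 0 < δ)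
    (hR : 0 ≤ R) {s : Finset X} (hs : Sep F δ (s : Set X)) (hm : ∀ x, MeasurableSet (FB F x (R * δ)))
    {φ : X → ℝ≥0∞} (hφ : Measurable φ) :
    ∑ x ∈ s, ∫⁻ y in FB F x (R * δ), φ y ∂μ ≤ ENNReal.ofReal ((2 * R + 1) ^ m) * ∫⁻ y, φ y ∂μ := by
  classical
  have h1 : ∀ x, ∫⁻ y in FB F x (R * δ), φ y ∂μ = ∫⁻ y, (FB F x (R * δ)).indicator φ y ∂μ :=
    fun x => (lintegral_indicator (hm x) φ).symm
  simp only [h1]
  rw [← lintegral_finsetSum _ fun x _ => hφ.indicator (hm x), ← lintegral_const_mul _ hφ]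
  refine lintegral_mono fun y => ?_
  have h2 : ∑ x ∈ s, (FB F x (R * δ)).indicator φ y =
      ∑ x ∈ s.filter (fun x => y ∈ FB F x (R * δ)), φ y := by
    rw [Finset.sum_filter]
    refine Finset.sum_congr rfl fun x _ => ?_
    rw [indicator_apply]
  dsimp only
  rw [h2, Finset.sum_const, nsmul_eq_mul]
  refine mul_le_mul_left ?_ _
  have h3 := sep_card F hδ hR (s := s.filter (fun x => y ∈ FB F x (R * δ)))
    (fun u hu v hv huv => hs u (Finset.mem_filter.1 hu).1 v (Finset.mem_filter.1 hv).1 huv) y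
    (fun x hx => (Finset.mem_filter.1 hx).2)
  calc _ = ENNReal.ofReal ((s.filter (fun x => y ∈ FB F x (R * δ))).card : ℝ) :=
        (ENNReal.ofReal_natCast _).symm
    _ ≤ _ := ENNReal.ofReal_le_ofReal h3

end

end Pool.Agent.H33.TM
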