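import Pool.Agent.H33.TM.Step2

/-!
# Regularization of closed forms
-/

set_option autoImplicit false

open Set Filter Topology MeasureTheory
open scoped Manifold ContDiff ENNReal NNReal

noncomputable section

namespace Pool.Agent.H33.TM

open Pool.Agent.Y501.SY Pool.Agent.Y455.SY Pool.Agent.Q235.SZ

section

variable {d m : ℕ} {X : Type} [TopologicalSpace X] [ChartedSpace (E d) X]

theorem CD.mono {F : X → E m} {z : X} {r : ℝ} {hr : 0 < r} {L κ δ₁ κ' δ' : ℝ}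
    (h : CD (d := d) F z hr L κ δ₁) (hκ : κ ≤ κ') (hδ0 : 0 < δ') (hδ : δ' ≤ δ₁)
    (hκδ : κ' * δ' ≤ 1 / 2) : CD (d := d) F z hr L κ' δ' := by
  have hnn : ∀ (x : X) (w : TangentSpace (𝓡 d) x), 0 ≤ nm F x w := fun x w => norm_nonneg _
  refine ⟨h.geo, h.one.trans hκ, h.L_le.trans hκ, hδ0, hδ.trans h.le_r, hδ.trans h.le_one, hκδ,
    h.two.trans hκ, h.dens.trans (ENNReal.ofReal_le_ofReal hκ),
    fun v hv => h.anti v (hv.trans hδ), ?_, ?_⟩
  · intro v hv x w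
    refine (h.nm1 v (hv.trans hδ) x w).trans ?_
    exact mul_le_mul_of_nonneg_right (mul_le_mul_of_nonneg_right hκ (norm_nonneg _)) (hnn _ _)
  · intro v hv J M a hM ha ha1 hJ x w
    refine (h.nm2 v (hv.trans hδ) J M a hM ha ha1 hJ x w).trans ?_
    refine mul_le_mul_of_nonneg_right (mul_le_mul_of_nonneg_right ?_
      (Real.rpow_nonneg (norm_nonneg _) _)) (hnn _ _)
    exact mul_le_mul_of_nonneg_right hκ hM

variable (d) in
/-- the points near the ball of radius `r` in the chart at `z` -/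
def Kn (F : X → E m) (r : ℝ) (z : X) (τ : ℝ) : Set X :=
  {x | ∃ y, y ∈ (chartAt (E d) z).source ∧
    chartAt (E d) z y ∈ Metric.closedBall (chartAt (E d) z z) r ∧ ‖F x - F y‖ ≤ τ}

/-- the charts used for the regularization -/
structure Atl (F : X → E m) (t : Finset X) (r : X → ℝ) : Prop where
  pos : ∀ z ∈ t, 0 < r z
  cd : ∀ z ∈ t, ∃ (hr : 0 < r z) (L κ δ₁ : ℝ), CD (d := d) F z hr L κ δ₁
  cover : ∀ x, ∃ z ∈ t, x ∈ (chartAt (E d) z).source ∧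
    chartAt (E d) z x ∈ Metric.closedBall (chartAt (E d) z z) (r z)

variable [IsManifold (𝓡 d) ∞ X]

theorem exists_atl [CompactSpace X] [T2Space X] {F : X → E m}
    (hF : ContMDiff (𝓡 d) (𝓡 m) ∞ F) (hFi : Function.Injective F)
    (hFd : ∀ x, Function.Injective (mfderiv (𝓡 d) (𝓡 m) F x)) :
    ∃ (t : Finset X) (r : X → ℝ), Atl (d := d) F t r := by
  choose r hr L κ δ₁ hcd using fun z : X => exists_CD (d := d) hF hFi hFd z
  obtain ⟨t, ht⟩ := (isCompact_univ (X := X)).elim_nhds_subcover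
    (fun z => (chartAt (E d) z).source ∩ chartAt (E d) z ⁻¹' Metric.ball (chartAt (E d) z z) (r z))
    (fun z _ => ((chartAt (E d) z).isOpen_inter_preimage Metric.isOpen_ball).mem_nhds
      ⟨mem_chart_source (E d) z, Metric.mem_ball_self (hr z)⟩)
  refine ⟨t, r, fun z _ => hr z, fun z _ => ⟨hr z, L z, κ z, δ₁ z, hcd z⟩, fun x => ?_⟩
  obtain ⟨z, hz, hx⟩ := mem_iUnion₂.1 (ht.2 (mem_univ x))
  exact ⟨z, hz, hx.1, Metric.ball_subset_closedBall hx.2⟩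

omit [IsManifold (𝓡 d) ∞ X] in
theorem Kn_inner [CompactSpace X] [T2Space X] {F : X → E m} (hF : Continuous F)
    (hFi : Function.Injective F) {z : X} {r : ℝ} (hr : 0 < r)
    (ht : Metric.closedBall (chartAt (E d) z z) (8 * r) ⊆ (chartAt (E d) z).target) :
    ∃ ρ : ℝ, 0 < ρ ∧ ∀ τ < ρ, ∀ x ∈ Kn d F r z τ, x ∈ (chartAt (E d) z).source ∧
      chartAt (E d) z x ∈ Metric.closedBall (chartAt (E d) z z) (2 * r) := by
  obtain ⟨ρ, hρ, h⟩ := close (d := d) hF hFi z (δ := 2 * r) (by linarith)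
    ((Metric.closedBall_subset_closedBall (by linarith)).trans ht)
  refine ⟨ρ, hρ, fun τ hτ x hx => ?_⟩
  obtain ⟨y, hy1, hy2, hy3⟩ := hx
  obtain ⟨h1, h2⟩ := h y hy1 (by
    have : 2 * r / 2 = r := by ring
    rw [this]; exact hy2) x (hy3.trans_lt hτ)
  exact ⟨h1, Metric.ball_subset_closedBall h2⟩

/-- regularization on a part of the charts -/
theorem reg_aux [MeasurableSpace X] [BorelSpace X] [CompactSpace X] [T2Space X] {F : X → E m}
    (hF : ContMDiff (𝓡 d) (𝓡 m) ∞ F) (hFi : Function.Injective F) {t : Finset X} {r : X → ℝ}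
    {κ δ₁ η M : ℝ}
    (hcd : ∀ z ∈ t, ∃ (hr : 0 < r z) (L : ℝ), CD (d := d) F z hr L κ δ₁)
    (hη : ∀ z ∈ t, ∀ x ∈ Kn d F (r z) z η, x ∈ (chartAt (E d) z).source ∧
      chartAt (E d) z x ∈ Metric.closedBall (chartAt (E d) z z) (2 * r z))
    (hκ : 0 ≤ κ) (hM : 0 ≤ M) (hMκ : M ≤ κ) (s : Finset X) :
    s ⊆ t → ∃ C : ℝ, 1 ≤ C ∧ ∀ (δ : ℝ), 0 < δ → δ ≤ δ₁ → ∀ τ : ℝ, 0 ≤ τ →
      τ + s.card * (κ * δ) ≤ η → ∀ (a : ℝ) (J : End d X), 0 < a → a ≤ 1 →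
      (∀ z ∈ t, JB J z (8 * r z) M a) → ∀ (k₀ : X → ℝ) (σ : Form d X 2),
      State F J a δ 1 0 ∅ k₀ k₀ σ → ∀ ε : ℝ, 0 < ε →
      ∃ (k : X → ℝ) (σ' : Form d X 2),
        State F J a δ C ε {x | ∃ z ∈ s, x ∈ Kn d F (r z) z τ} k₀ k σ' := by
  classical
  induction s using Finset.induction_on with
  | empty =>
    intro _
    refine ⟨1, le_rfl, ?_⟩
    intro δ hδ hδ1 τ hτ _ a J ha ha1 hJ k₀ σ hσ ε hε
    exact ⟨k₀, σ, hσ.smooth, hσ.closed, hσ.cont, hσ.nonneg, hσ.low, hσ.bdd, hσ.int,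
      fun x hx => by
        obtain ⟨z, hz, _⟩ := hx
        simp at hz⟩
  | insert z s hz ih =>
    intro hst
    obtain ⟨C, hC1, hC⟩ := ih ((Finset.subset_insert z s).trans hst)
    have hzt : z ∈ t := hst (Finset.mem_insert_self z s)
    obtain ⟨hr, L, hcdz⟩ := hcd z hzt
    refine ⟨12 * κ ^ 2 * C, ?_, ?_⟩
    · have h1 := hcdz.one
      have h2 : 1 ≤ κ ^ 2 := by nlinarith
      nlinarith
    · intro δ hδ hδ1 τ hτ hτη a J ha ha1 hJ k₀ σ hσ ε hε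
      rw [Finset.card_insert_of_notMem hz] at hτη
      push_cast at hτη
      have hκδ : 0 ≤ κ * δ := mul_nonneg hκ hδ.le
      have hscard : 0 ≤ (s.card : ℝ) * (κ * δ) := mul_nonneg (Nat.cast_nonneg _) hκδ
      obtain ⟨k, σ₁, hS⟩ := hC δ hδ hδ1 (τ + κ * δ) (add_nonneg hτ hκδ) (by linarith) a J ha ha1
        hJ k₀ σ hσ (ε / 2) (half_pos hε)
      obtain ⟨k', σ', hS'⟩ := step hF hFi hcdz ha ha1 hM hMκ (hJ z hzt) hδ hδ1 hC1
        (half_pos hε).le (half_pos hε) hS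
        (K' := {x | ∃ z' ∈ insert z s, x ∈ Kn d F (r z') z' τ}) (by
          rintro x ⟨z', hz', hx⟩
          rcases Finset.mem_insert.1 hz' with rfl | hz's
          · right
            refine hη z' hzt x ?_
            obtain ⟨y, h1, h2, h3⟩ := hx
            exact ⟨y, h1, h2, by linarith⟩
          · left
            intro y hy
            refine ⟨z', hz's, ?_⟩
            obtain ⟨y', h1, h2, h3⟩ := hx
            refine ⟨y', h1, h2, ?_⟩
            have := norm_sub_le_norm_sub_add_norm_sub (F y) (F x) (F y')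
            linarith)
      rw [add_halves] at hS'
      exact ⟨k', σ', hS'⟩

theorem regularize [MeasurableSpace X] [BorelSpace X] [CompactSpace X] [T2Space X] {F : X → E m}
    (hF : ContMDiff (𝓡 d) (𝓡 m) ∞ F) (hFi : Function.Injective F) {t : Finset X} {r : X → ℝ}
    (hat : Atl (d := d) F t r) {M : ℝ} (hM : 0 ≤ M) :
    ∃ C δ₀ : ℝ, 1 ≤ C ∧ 0 < δ₀ ∧ δ₀ ≤ 1 ∧ ∀ (δ : ℝ), 0 < δ → δ ≤ δ₀ →
      ∀ (a : ℝ) (J : End d X), 0 < a → a ≤ 1 →
      (∀ z ∈ t, JB J z (8 * r z) M a) → ∀ (k₀ : X → ℝ) (σ : Form d X 2),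
      State F J a δ 1 0 ∅ k₀ k₀ σ → ∀ ε : ℝ, 0 < ε →
      ∃ (k : X → ℝ) (σ' : Form d X 2), State F J a δ C ε univ k₀ k σ' := by
  classical
  -- common constants
  have hcom : ∀ s : Finset X, s ⊆ t → ∃ κ δ₁ η : ℝ, 1 ≤ κ ∧ M ≤ κ ∧ 0 < δ₁ ∧ δ₁ ≤ 1 ∧
      κ * δ₁ ≤ 1 / 2 ∧ 0 < η ∧
      (∀ z ∈ s, ∃ (hr : 0 < r z) (L : ℝ), CD (d := d) F z hr L κ δ₁) ∧
      ∀ z ∈ s, ∀ x ∈ Kn d F (r z) z η, x ∈ (chartAt (E d) z).source ∧
        chartAt (E d) z x ∈ Metric.closedBall (chartAt (E d) z z) (2 * r z) := by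
    intro s
    induction s using Finset.induction_on with
    | empty =>
      intro _
      refine ⟨1 + M, 1 / (2 * (1 + M)), 1, by linarith, by linarith, by positivity, ?_, ?_,
        one_pos, by simp, by simp⟩
      · rw [div_le_one (by positivity)]
        linarith
      · have : (1 + M) * (1 / (2 * (1 + M))) = 1 / 2 := by field_simp
        rw [this]
    | insert z s hz ih =>
      intro hst
      obtain ⟨κ, δ₁, η, h1, h2, h3, h4, h5, h6, h7, h8⟩ :=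
        ih ((Finset.subset_insert z s).trans hst)
      obtain ⟨hr, L, κ', δ', hcd⟩ := hat.cd z (hst (Finset.mem_insert_self z s))
      obtain ⟨ρ, hρ, hin⟩ := Kn_inner hF.continuous hFi hr hcd.geo.sub
      obtain ⟨κ₂, hκ₂⟩ : ∃ κ₂, κ₂ = max κ κ' := ⟨_, rfl⟩
      have hκκ₂ : κ ≤ κ₂ := by rw [hκ₂]; exact le_max_left _ _
      have hκ'κ₂ : κ' ≤ κ₂ := by rw [hκ₂]; exact le_max_right _ _
      have hκ₂0 : 0 < κ₂ := one_pos.trans_le (h1.trans hκκ₂)
      obtain ⟨δ₂, hδ₂⟩ : ∃ δ₂, δ₂ = min (min δ₁ δ') (1 / (2 * κ₂)) := ⟨_, rfl⟩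
      have hδ₂0 : 0 < δ₂ := by
        rw [hδ₂]
        exact lt_min (lt_min h3 hcd.pos) (by positivity)
      have hδ₂1 : δ₂ ≤ δ₁ := by rw [hδ₂]; exact (min_le_left _ _).trans (min_le_left _ _)
      have hδ₂2 : δ₂ ≤ δ' := by rw [hδ₂]; exact (min_le_left _ _).trans (min_le_right _ _)
      have hκδ : κ₂ * δ₂ ≤ 1 / 2 := by
        have : δ₂ ≤ 1 / (2 * κ₂) := by rw [hδ₂]; exact min_le_right _ _
        rw [le_div_iff₀ (by positivity)] at this
        linarith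
      refine ⟨κ₂, δ₂, min η (ρ / 2), h1.trans hκκ₂, h2.trans hκκ₂, hδ₂0, hδ₂1.trans h4, hκδ,
        lt_min h6 (half_pos hρ), ?_, ?_⟩
      · intro z' hz'
        rcases Finset.mem_insert.1 hz' with rfl | hz's
        · exact ⟨hr, L, hcd.mono hκ'κ₂ hδ₂0 hδ₂2 hκδ⟩
        · obtain ⟨hr', L', hcd'⟩ := h7 z' hz's
          exact ⟨hr', L', hcd'.mono hκκ₂ hδ₂0 hδ₂1 hκδ⟩
      · intro z' hz' x hx
        obtain ⟨y, e1, e2, e3⟩ := hx
        rcases Finset.mem_insert.1 hz' with rfl | hz's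
        · exact hin (min η (ρ / 2)) ((min_le_right _ _).trans_lt (half_lt_self hρ)) x
            ⟨y, e1, e2, e3⟩
        · exact h8 z' hz's x ⟨y, e1, e2, e3.trans (min_le_left _ _)⟩
  obtain ⟨κ, δ₁, η, h1, h2, h3, h4, h5, h6, h7, h8⟩ := hcom t subset_rfl
  have hκ0 : 0 < κ := one_pos.trans_le h1
  obtain ⟨C, hC1, hC⟩ := reg_aux hF hFi h7 h8 hκ0.le hM h2 t subset_rfl
  refine ⟨C, min δ₁ (η / ((t.card + 1) * κ)), hC1, lt_min h3 (by positivity),
    (min_le_left _ _).trans h4, ?_⟩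
  intro δ hδ hδ0 a J ha ha1 hJ k₀ σ hσ ε hε
  obtain ⟨k, σ', hS⟩ := hC δ hδ (hδ0.trans (min_le_left _ _)) 0 le_rfl (by
    have h9 := hδ0.trans (min_le_right _ _)
    rw [le_div_iff₀ (by positivity)] at h9
    have h10 : 0 ≤ κ * δ := by positivity
    linarith) a J ha ha1 hJ k₀ σ hσ ε hε
  refine ⟨k, σ', hS.smooth, hS.closed, hS.cont, hS.nonneg, hS.low, hS.bdd, hS.int, ?_⟩
  intro x _
  obtain ⟨z, hz, h9, h10⟩ := hat.cover x
  exact hS.pt x ⟨z, hz, x, h9, h10, by rw [sub_self, norm_zero]⟩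

end

end Pool.Agent.H33.TM
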