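import Pool.Agent.H33.TM.Avg

/-!
# One step of the regularization
-/

set_option autoImplicit false

open Set Filter Topology MeasureTheory
open scoped Manifold ContDiff ENNReal NNReal

noncomputable section

namespace Pool.Agent.H33.TM

open Pool.Agent.Y501.SY Pool.Agent.Y455.SY Pool.Agent.Q235.SZ

section

variable {d m : ℕ} {X : Type} [TopologicalSpace X] [ChartedSpace (E d) X]

theorem closed_sum {ι : Type} (s : Finset ι) {τ : ι → Form d X 2} (w : ι → ℝ)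
    (h : ∀ i, IsSmooth (τ i) ∧ IsClosedForm (τ i)) :
    IsSmooth (∑ i ∈ s, w i • τ i) ∧ IsClosedForm (∑ i ∈ s, w i • τ i) := by
  classical
  induction s using Finset.induction_on with
  | empty =>
    rw [Finset.sum_empty]
    exact ⟨IsSmooth.zero, IsD.zero⟩
  | insert i s hi ih =>
    rw [Finset.sum_insert hi]
    refine ⟨((h i).1.smul _).add ih.1, ?_⟩
    have h1 : IsD (w i • τ i) (w i • (0 : Form d X 3)) := (h i).2.smul (w i)
    have h2 : IsD (w i • τ i + ∑ i ∈ s, w i • τ i) (w i • (0 : Form d X 3) + 0) :=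
      h1.add ih.2 ((h i).1.smul _) ih.1
    rwa [smul_zero, add_zero] at h2

theorem sum_apply' {ι : Type} (s : Finset ι) (τ : ι → Form d X 2) (w : ι → ℝ) (x : X)
    (v : Fin 2 → TangentSpace (𝓡 d) x) :
    (∑ i ∈ s, w i • τ i : Form d X 2) x v = ∑ i ∈ s, w i * τ i x v := by
  classical
  induction s using Finset.induction_on with
  | empty => rfl
  | insert i s hi ih =>
    rw [Finset.sum_insert hi, Finset.sum_insert hi, ← ih]
    rfl

theorem map_add2 (σ : Form d X 2) (x : X) (u v w : TangentSpace (𝓡 d) x) :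
    σ x ![u, v + w] = σ x ![u, v] + σ x ![u, w] := by
  have h := (σ x).map_update_add ![u, v] 1 v w
  have e : ∀ t : TangentSpace (𝓡 d) x, Function.update ![u, v] 1 t = ![u, t] := by
    intro t
    funext i
    fin_cases i <;> rfl
  rw [e, e, e] at h
  exact h

/-- the state of the regularization -/
structure State (F : X → E m) [MeasurableSpace X] (J : End d X) (a δ C e : ℝ) (K : Set X)
    (k₀ k : X → ℝ) (σ : Form d X 2) : Prop where
  smooth : IsSmooth σ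
  closed : IsClosedForm σ
  cont : Continuous k
  nonneg : ∀ x, 0 ≤ k x
  low : ∀ (x : X) (w : TangentSpace (𝓡 d) x),
    (1 - C * (δ ^ a + k x)) * nm F x w ^ 2 ≤ σ x ![w, J x w]
  bdd : ∀ (x : X) (u w : TangentSpace (𝓡 d) x),
    |σ x ![u, w]| ≤ δ ^ (-a) * (C * (δ ^ a + k x)) * nm F x u * nm F x w
  int : ∀ (x : X) (s : ℝ), ∫⁻ y in FB F x s, ENNReal.ofReal (k y) ∂(area d F) ≤
    ENNReal.ofReal C * ∫⁻ y in FB F x (s + C * δ), ENNReal.ofReal (k₀ y) ∂(area d F)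
  pt : ∀ x ∈ K, ENNReal.ofReal (k x) ≤
    ENNReal.ofReal (C * (δ ^ d)⁻¹) * ∫⁻ y in FB F x (C * δ), ENNReal.ofReal (k₀ y) ∂(area d F) +
      ENNReal.ofReal e

/-- the estimate for one translation -/
theorem pull_low [IsManifold (𝓡 d) ∞ X] {F : X → E m} {Ψ : X → X} {J : End d X} {σ : Form d X 2} {x : X}
    {Cn M δ a G : ℝ} (hδ : 0 < δ) (hG : 0 ≤ G)
    (hsm : Cn * δ ≤ 1 / 2)
    (h1 : ∀ w : TangentSpace (𝓡 d) x,
      |nm F (Ψ x) (mfderiv (𝓡 d) (𝓡 d) Ψ x w) - nm F x w| ≤ Cn * δ * nm F x w)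
    (h2 : ∀ w : TangentSpace (𝓡 d) x, nm F (Ψ x) (mfderiv (𝓡 d) (𝓡 d) Ψ x (J x w) -
      J (Ψ x) (mfderiv (𝓡 d) (𝓡 d) Ψ x w)) ≤ Cn * M * δ ^ a * nm F x w)
    (hlow : ∀ w : TangentSpace (𝓡 d) (Ψ x), (1 - G) * nm F (Ψ x) w ^ 2 ≤ σ (Ψ x) ![w, J (Ψ x) w])
    (hbdd : ∀ u w : TangentSpace (𝓡 d) (Ψ x),
      |σ (Ψ x) ![u, w]| ≤ δ ^ (-a) * G * nm F (Ψ x) u * nm F (Ψ x) w) :
    (∀ w : TangentSpace (𝓡 d) x,
      (1 - (2 * Cn * δ + (4 + 2 * Cn * M) * G)) * nm F x w ^ 2 ≤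
        pull (d := d) Ψ σ x ![w, J x w]) ∧
    ∀ u w : TangentSpace (𝓡 d) x,
      |pull (d := d) Ψ σ x ![u, w]| ≤ δ ^ (-a) * (4 * G) * nm F x u * nm F x w := by
  have hnn : ∀ (x : X) (w : TangentSpace (𝓡 d) x), 0 ≤ nm F x w := fun x w => norm_nonneg _
  have hpw : 0 < δ ^ (-a) := Real.rpow_pos_of_pos hδ _
  have hup : ∀ w : TangentSpace (𝓡 d) x, nm F (Ψ x) (mfderiv (𝓡 d) (𝓡 d) Ψ x w) ≤
      2 * nm F x w := by
    intro w
    have e1 := (abs_le.1 (h1 w)).2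
    have e2 : Cn * δ * nm F x w ≤ 1 / 2 * nm F x w := mul_le_mul_of_nonneg_right hsm (hnn _ _)
    have e3 := hnn x w
    linarith
  constructor
  · intro w
    obtain ⟨n, hn⟩ : ∃ n, n = nm F x w := ⟨_, rfl⟩
    obtain ⟨u, hu⟩ : ∃ u : TangentSpace (𝓡 d) (Ψ x), u = mfderiv (𝓡 d) (𝓡 d) Ψ x w := ⟨_, rfl⟩
    obtain ⟨u', hu'⟩ : ∃ u' : TangentSpace (𝓡 d) (Ψ x),
      u' = mfderiv (𝓡 d) (𝓡 d) Ψ x (J x w) := ⟨_, rfl⟩
    have e1 := h1 w
    have e2 := h2 w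
    have e3 := hup w
    rw [pull_apply]
    rw [← hu', ← hu, ← hn] at e2
    rw [← hu, ← hn] at e1 e3
    rw [← hu, ← hu', ← hn]
    have hn0 : 0 ≤ n := by rw [hn]; exact hnn _ _
    obtain ⟨t, ht⟩ : ∃ t, t = nm F (Ψ x) u := ⟨_, rfl⟩
    have ht0 : 0 ≤ t := by rw [ht]; exact hnn _ _
    have e4 : σ (Ψ x) ![u, u'] = σ (Ψ x) ![u, J (Ψ x) u] + σ (Ψ x) ![u, u' - J (Ψ x) u] := by
      rw [← map_add2]
      congr 2
      have : J (Ψ x) u + (u' - J (Ψ x) u) = u' := by abel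
      rw [this]
    have e5 := hlow u
    have e6 := (abs_le.1 (hbdd u (u' - J (Ψ x) u))).1
    have e7 : δ ^ (-a) * G * nm F (Ψ x) u * nm F (Ψ x) (u' - J (Ψ x) u) ≤
        2 * Cn * M * G * n ^ 2 := by
      calc _ ≤ δ ^ (-a) * G * (2 * n) * (Cn * M * δ ^ a * n) := by
            refine mul_le_mul ?_ e2 (hnn _ _) (by positivity)
            exact mul_le_mul_of_nonneg_left e3 (by positivity)
        _ = (δ ^ (-a) * δ ^ a) * (2 * Cn * M * G * n ^ 2) := by ring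
        _ = _ := by rw [← Real.rpow_add hδ, neg_add_cancel, Real.rpow_zero, one_mul]
    rw [← ht] at e1 e3 e5
    have e8 : (1 - Cn * δ) * n ≤ t := by
      have := (abs_le.1 e1).1
      linarith
    have e9 : (1 - 2 * Cn * δ) * n ^ 2 ≤ t ^ 2 := by
      have h3 : 0 ≤ (1 - Cn * δ) * n := mul_nonneg (by linarith) hn0
      have h4 : ((1 - Cn * δ) * n) ^ 2 ≤ t ^ 2 := pow_le_pow_left₀ h3 e8 2
      have h5 : 0 ≤ (Cn * δ * n) ^ 2 := by positivity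
      nlinarith
    have e10 : G * t ^ 2 ≤ G * (4 * n ^ 2) := by
      refine mul_le_mul_of_nonneg_left ?_ hG
      nlinarith
    rw [e4]
    nlinarith
  · intro u w
    rw [pull_apply]
    refine (hbdd _ _).trans ?_
    calc _ ≤ δ ^ (-a) * G * (2 * nm F x u) * (2 * nm F x w) := by
          refine mul_le_mul ?_ (hup w) (hnn _ _) (by have := hnn x u; positivity)
          exact mul_le_mul_of_nonneg_left (hup u) (by positivity)
      _ = _ := by ring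

/-- all constants for one chart -/
structure CD (F : X → E m) (z : X) {r : ℝ} (hr : 0 < r) (L κ δ₁ : ℝ) : Prop where
  geo : GeoB (d := d) F z (8 * r) L
  one : 1 ≤ κ
  L_le : L ≤ κ
  pos : 0 < δ₁
  le_r : δ₁ ≤ r
  le_one : δ₁ ≤ 1
  le_κ : κ * δ₁ ≤ 1 / 2
  two : (2 : ℝ) ^ d ≤ κ
  dens : ENNReal.ofReal L ^ (d : ℝ) * (μH[(d : ℝ)] (Metric.closedBall (0 : E d) 1))⁻¹ ≤
    ENNReal.ofReal κ
  anti : ∀ v : E d, ‖v‖ ≤ δ₁ → ∀ x y : X,
    ‖F x - F y‖ ≤ 2 * ‖F (tr hr z v x) - F (tr hr z v y)‖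
  nm1 : ∀ v : E d, ‖v‖ ≤ δ₁ → ∀ (x : X) (w : TangentSpace (𝓡 d) x),
    |nm F (tr hr z v x) (mfderiv (𝓡 d) (𝓡 d) (tr hr z v) x w) - nm F x w| ≤
      κ * ‖v‖ * nm F x w
  nm2 : ∀ v : E d, ‖v‖ ≤ δ₁ → ∀ (J : End d X) (M a : ℝ), 0 ≤ M → 0 < a → a ≤ 1 →
    JB J z (8 * r) M a → ∀ (x : X) (w : TangentSpace (𝓡 d) x),
        nm F (tr hr z v x) (mfderiv (𝓡 d) (𝓡 d) (tr hr z v) x (J x w) -
          J (tr hr z v x) (mfderiv (𝓡 d) (𝓡 d) (tr hr z v) x w)) ≤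
          κ * M * ‖v‖ ^ a * nm F x w

variable [IsManifold (𝓡 d) ∞ X]

theorem exists_CD [CompactSpace X] [T2Space X] {F : X → E m}
    (hF : ContMDiff (𝓡 d) (𝓡 m) ∞ F) (hFi : Function.Injective F)
    (hFd : ∀ x, Function.Injective (mfderiv (𝓡 d) (𝓡 m) F x)) (z : X) :
    ∃ (r : ℝ) (hr : 0 < r) (L κ δ₁ : ℝ), CD (d := d) F z hr L κ δ₁ := by
  obtain ⟨R, hR, hRt⟩ := Metric.nhds_basis_closedBall.mem_iff.1
    ((chartAt (E d) z).open_target.mem_nhds (mem_chart_target (E d) z))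
  obtain ⟨r, hr, hrR⟩ : ∃ r : ℝ, 0 < r ∧ 8 * r = R := ⟨R / 8, by positivity, by ring⟩
  rw [← hrR] at hRt
  obtain ⟨L, hG⟩ := exists_geoB hF hFi hFd z hRt
  obtain ⟨δ, hδ, hδr, hanti⟩ := tr_anti hF hFi hr hG
  obtain ⟨C, hC, hnm⟩ := tr_nm hF hr hG
  obtain ⟨c, hc⟩ : ∃ c, c = ENNReal.ofReal L ^ (d : ℝ) *
    (μH[(d : ℝ)] (Metric.closedBall (0 : E d) 1))⁻¹ := ⟨_, rfl⟩
  have hctop : c ≠ ⊤ := by
    rw [hc]
    refine ENNReal.mul_ne_top (ENNReal.rpow_ne_top_of_nonneg (Nat.cast_nonneg d)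
      ENNReal.ofReal_ne_top) (ENNReal.inv_ne_top.2 ?_)
    exact (Metric.measure_closedBall_pos _ _ one_pos).ne'
  obtain ⟨κ, hκ⟩ : ∃ κ, κ = max (max (max L C) (max 1 (2 ^ d))) c.toReal := ⟨_, rfl⟩
  have k1 : L ≤ κ := by rw [hκ]; exact (le_max_left _ _).trans ((le_max_left _ _).trans
    (le_max_left _ _))
  have k2 : C ≤ κ := by rw [hκ]; exact (le_max_right _ _).trans ((le_max_left _ _).trans
    (le_max_left _ _))
  have k3 : 1 ≤ κ := by rw [hκ]; exact (le_max_left _ _).trans ((le_max_right _ _).trans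
    (le_max_left _ _))
  have k4 : 2 ^ d ≤ κ := by rw [hκ]; exact (le_max_right _ _).trans ((le_max_right _ _).trans
    (le_max_left _ _))
  have k5 : c.toReal ≤ κ := by rw [hκ]; exact le_max_right _ _
  have hκ0 : 0 < κ := one_pos.trans_le k3
  refine ⟨r, hr, L, κ, min (min δ 1) (1 / (2 * κ)), ?_⟩
  have hnn : ∀ (x : X) (w : TangentSpace (𝓡 d) x), 0 ≤ nm F x w := fun x w => norm_nonneg _
  have l1 : min (min δ 1) (1 / (2 * κ)) ≤ δ := (min_le_left _ _).trans (min_le_left _ _)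
  have l2 : min (min δ 1) (1 / (2 * κ)) ≤ 1 := (min_le_left _ _).trans (min_le_right _ _)
  refine ⟨hG, k3, k1, by positivity, l1.trans hδr, l2, ?_, k4, ?_, ?_, ?_, ?_⟩
  · have h1 : min (min δ 1) (1 / (2 * κ)) ≤ 1 / (2 * κ) := min_le_right _ _
    rw [le_div_iff₀ (by positivity)] at h1
    linarith
  · rw [← hc]
    exact (ENNReal.le_ofReal_iff_toReal_le hctop hκ0.le).2 k5
  · exact fun v hv => hanti v (hv.trans l1)
  · intro v hv x w
    refine ((hnm v (hv.trans (l1.trans hδr)) (hv.trans l2)).1 x w).trans ?_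
    exact mul_le_mul_of_nonneg_right (mul_le_mul_of_nonneg_right k2 (norm_nonneg _)) (hnn _ _)
  · intro v hv J M a hM ha ha1 hJ x w
    refine ((hnm v (hv.trans (l1.trans hδr)) (hv.trans l2)).2 J M a hM ha ha1 hJ x w).trans ?_
    refine mul_le_mul_of_nonneg_right (mul_le_mul_of_nonneg_right ?_
      (Real.rpow_nonneg (norm_nonneg _) _)) (hnn _ _)
    exact mul_le_mul_of_nonneg_right k2 hM

end

end Pool.Agent.H33.TM
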