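import Pool.Agent.H33.TM.Step

/-!
# One step of the regularization, continued
-/

set_option autoImplicit false

open Set Filter Topology MeasureTheory
open scoped Manifold ContDiff ENNReal NNReal

noncomputable section

namespace Pool.Agent.H33.TM

open Pool.Agent.Y501.SY Pool.Agent.Y455.SY Pool.Agent.Q235.SZ

section

variable {d m : ℕ} {X : Type} [TopologicalSpace X] [ChartedSpace (E d) X]

omit [TopologicalSpace X] [ChartedSpace (E d) X] in
theorem FB_mono (F : X → E m) {x : X} {s t : ℝ} (h : s ≤ t) : FB F x s ⊆ FB F x t :=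
  fun _ hy => le_trans hy h

omit [TopologicalSpace X] [ChartedSpace (E d) X] in
theorem FB_sub (F : X → E m) {x y : X} {s t : ℝ} (h : ‖F y - F x‖ ≤ t) :
    FB F y s ⊆ FB F x (s + t) := by
  intro u hu
  have h1 : ‖F u - F y‖ ≤ s := hu
  have h2 := norm_sub_le_norm_sub_add_norm_sub (F u) (F y) (F x)
  exact h2.trans (add_le_add h1 h)

variable [IsManifold (𝓡 d) ∞ X]

theorem step [MeasurableSpace X] [BorelSpace X] [CompactSpace X] [T2Space X] {F : X → E m}
    (hF : ContMDiff (𝓡 d) (𝓡 m) ∞ F) (hFi : Function.Injective F)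
    {z : X} {r : ℝ} {hr : 0 < r} {L κ δ₁ : ℝ} (hC : CD (d := d) F z hr L κ δ₁)
    {J : End d X} {a M : ℝ} (ha : 0 < a) (ha1 : a ≤ 1) (hM : 0 ≤ M) (hMκ : M ≤ κ)
    (hJ : JB J z (8 * r) M a) {δ : ℝ} (hδ0 : 0 < δ) (hδ : δ ≤ δ₁) {C e ε : ℝ}
    (hC1 : 1 ≤ C) (he : 0 ≤ e) (hε : 0 < ε) {K K' : Set X} {k₀ k : X → ℝ} {σ : Form d X 2}
    (hS : State F J a δ C e K k₀ k σ)
    (hK' : ∀ x ∈ K', (∀ y, ‖F y - F x‖ ≤ κ * δ → y ∈ K) ∨ (x ∈ (chartAt (E d) z).source ∧
      chartAt (E d) z x ∈ Metric.closedBall (chartAt (E d) z z) (2 * r))) :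
    ∃ (k' : X → ℝ) (σ' : Form d X 2), State F J a δ (12 * κ ^ 2 * C) (e + ε) K' k₀ k' σ' := by
  classical
  have hδr : δ ≤ r := hδ.trans hC.le_r
  have hδ1 : δ ≤ 1 := hδ.trans hC.le_one
  have hκ0 : 0 < κ := one_pos.trans_le hC.one
  have hκ1 := hC.one
  have hC0 : 0 < C := one_pos.trans_le hC1
  have hκδ : κ * δ ≤ 1 / 2 := (mul_le_mul_of_nonneg_left hδ hκ0.le).trans hC.le_κ
  have hδa : δ ≤ δ ^ a := by
    calc δ = δ ^ (1 : ℝ) := (Real.rpow_one _).symm
      _ ≤ δ ^ a := Real.rpow_le_rpow_of_exponent_ge hδ0 hδ1 ha1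
  have hδa0 : 0 < δ ^ a := Real.rpow_pos_of_pos hδ0 _
  have hδna : 0 < δ ^ (-a) := Real.rpow_pos_of_pos hδ0 _
  have hnn : ∀ (x : X) (w : TangentSpace (𝓡 d) x), 0 ≤ nm F x w := fun x w => norm_nonneg _
  obtain ⟨ι, hι, w, v, hw0, hw1, hv, havg⟩ := finite_avg hF.continuous hFi hr hC.geo hδ0 hδr
    hS.cont hS.nonneg hε
  obtain ⟨Ψ, hΨ⟩ : ∃ Ψ : ι → X → X, Ψ = fun i => tr hr z (v i) := ⟨_, rfl⟩
  have hΨs : ∀ i, ContMDiff (𝓡 d) (𝓡 d) ∞ (Ψ i) := fun i => by
    rw [hΨ]; exact tr_smooth hr hC.geo.sub ((hv i).trans hδr)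
  have hΨd : ∀ i x, ‖F (Ψ i x) - F x‖ ≤ κ * δ := fun i x => by
    rw [hΨ]
    refine (tr_disp hr hC.geo ((hv i).trans hδr) x).trans ?_
    exact mul_le_mul hC.L_le (hv i) (norm_nonneg _) hκ0.le
  have hΨa : ∀ i x y, ‖F x - F y‖ ≤ 2 * ‖F (Ψ i x) - F (Ψ i y)‖ := fun i x y => by
    rw [hΨ]; exact hC.anti (v i) ((hv i).trans hδ) x y
  have hlow : ∀ (i : ι) (x : X), (∀ w : TangentSpace (𝓡 d) x,
      (1 - (2 * κ * δ + (4 + 2 * κ * M) * (C * (δ ^ a + k (Ψ i x))))) * nm F x w ^ 2 ≤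
        pull (d := d) (Ψ i) σ x ![w, J x w]) ∧
      ∀ u w : TangentSpace (𝓡 d) x, |pull (d := d) (Ψ i) σ x ![u, w]| ≤
        δ ^ (-a) * (4 * (C * (δ ^ a + k (Ψ i x)))) * nm F x u * nm F x w := by
    intro i x
    refine pull_low (Cn := κ) (M := M) (a := a) hδ0 (mul_nonneg hC0.le (add_nonneg hδa0.le
      (hS.nonneg _))) hκδ (fun w => ?_) (fun w => ?_) (hS.low _) (hS.bdd _)
    · rw [hΨ]
      refine (hC.nm1 (v i) ((hv i).trans hδ) x w).trans ?_
      exact mul_le_mul_of_nonneg_right (mul_le_mul_of_nonneg_left (hv i) hκ0.le) (hnn _ _)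
    · rw [hΨ]
      refine (hC.nm2 (v i) ((hv i).trans hδ) J M a hM ha ha1 hJ x w).trans ?_
      refine mul_le_mul_of_nonneg_right (mul_le_mul_of_nonneg_left ?_ (by positivity)) (hnn _ _)
      exact Real.rpow_le_rpow (norm_nonneg _) (hv i) ha.le
  obtain ⟨k', hk'⟩ : ∃ k' : X → ℝ, k' = fun x => ∑ i, w i * k (Ψ i x) := ⟨_, rfl⟩
  have hk'0 : ∀ x, 0 ≤ k' x := fun x => by
    rw [hk']
    exact Finset.sum_nonneg fun i _ => mul_nonneg (hw0 i) (hS.nonneg _)
  have hsumG : ∀ x, ∑ i, w i * (C * (δ ^ a + k (Ψ i x))) = C * (δ ^ a + k' x) := by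
    intro x
    have e1 : ∀ i, w i * (C * (δ ^ a + k (Ψ i x))) = w i * (C * δ ^ a) + C * (w i * k (Ψ i x)) :=
      fun i => by ring
    rw [Finset.sum_congr rfl fun i _ => e1 i, Finset.sum_add_distrib, ← Finset.sum_mul, hw1,
      ← Finset.mul_sum, hk']
    ring
  have hcl := closed_sum (Finset.univ : Finset ι) (τ := fun i => pull (d := d) (Ψ i) σ) w
    (fun i => Pool.Agent.Y604.SY.t_PULL d d X X (Ψ i) σ (hΨs i) hS.smooth hS.closed)
  have hofk : ∀ x, ENNReal.ofReal (k' x) = ∑ i, ENNReal.ofReal (w i) * ENNReal.ofReal (k (Ψ i x)) := by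
    intro x
    rw [hk', ENNReal.ofReal_sum_of_nonneg fun i _ => mul_nonneg (hw0 i) (hS.nonneg _)]
    exact Finset.sum_congr rfl fun i _ => ENNReal.ofReal_mul (hw0 i)
  have hofw : ∑ i, ENNReal.ofReal (w i) = 1 := by
    rw [← ENNReal.ofReal_sum_of_nonneg fun i _ => hw0 i, hw1, ENNReal.ofReal_one]
  have hbig : C ≤ 12 * κ ^ 2 * C := by nlinarith [mul_le_mul hκ1 hκ1 zero_le_one hκ0.le]
  have hbig2 : C + κ ≤ 12 * κ ^ 2 * C := by nlinarith [mul_le_mul hκ1 hκ1 zero_le_one hκ0.le]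
  have hbig2' : (C + κ) * δ ≤ 12 * κ ^ 2 * C * δ := mul_le_mul_of_nonneg_right hbig2 hδ0.le
  have hbig3 : κ * C ≤ 12 * κ ^ 2 * C := by nlinarith [mul_le_mul hκ1 hκ1 zero_le_one hκ0.le]
  refine ⟨k', ∑ i, w i • pull (d := d) (Ψ i) σ, ?_⟩
  refine ⟨hcl.1, hcl.2, ?_, hk'0, ?_, ?_, ?_, ?_⟩
  · rw [hk']
    exact continuous_finsetSum _ fun i _ => continuous_const.mul
      (hS.cont.comp (hΨs i).continuous)
  · intro x u
    rw [sum_apply']
    have h1 : ∑ i, w i * ((1 - (2 * κ * δ + (4 + 2 * κ * M) * (C * (δ ^ a + k (Ψ i x))))) *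
        nm F x u ^ 2) ≤ ∑ i, w i * pull (d := d) (Ψ i) σ x ![u, J x u] :=
      Finset.sum_le_sum fun i _ => mul_le_mul_of_nonneg_left ((hlow i x).1 u) (hw0 i)
    refine le_trans ?_ h1
    have h2 : ∑ i, w i * ((1 - (2 * κ * δ + (4 + 2 * κ * M) * (C * (δ ^ a + k (Ψ i x))))) *
        nm F x u ^ 2) = (1 - (2 * κ * δ + (4 + 2 * κ * M) * (C * (δ ^ a + k' x)))) *
        nm F x u ^ 2 := by
      have e1 : ∀ i, w i * ((1 - (2 * κ * δ + (4 + 2 * κ * M) * (C * (δ ^ a + k (Ψ i x))))) *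
          nm F x u ^ 2) = w i * ((1 - 2 * κ * δ) * nm F x u ^ 2) -
          (w i * (C * (δ ^ a + k (Ψ i x)))) * ((4 + 2 * κ * M) * nm F x u ^ 2) :=
        fun i => by ring
      rw [Finset.sum_congr rfl fun i _ => e1 i, Finset.sum_sub_distrib, ← Finset.sum_mul, hw1,
        ← Finset.sum_mul, hsumG]
      ring
    rw [h2]
    refine mul_le_mul_of_nonneg_right ?_ (by positivity)
    have h3 : 0 < C * (δ ^ a + k' x) := mul_pos hC0 (add_pos_of_pos_of_nonneg hδa0 (hk'0 x))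
    have h4 : 2 * κ * δ ≤ 2 * κ ^ 2 * (C * (δ ^ a + k' x)) := by
      have h5 : δ ≤ C * (δ ^ a + k' x) := by nlinarith [hk'0 x]
      have h6 : κ * δ ≤ κ * (C * (δ ^ a + k' x)) := mul_le_mul_of_nonneg_left h5 hκ0.le
      have h7 : κ * (C * (δ ^ a + k' x)) ≤ κ ^ 2 * (C * (δ ^ a + k' x)) := by
        refine mul_le_mul_of_nonneg_right ?_ h3.le
        nlinarith
      linarith
    have h6 : (4 + 2 * κ * M) ≤ 6 * κ ^ 2 := by nlinarith
    have h7 : (4 + 2 * κ * M) * (C * (δ ^ a + k' x)) ≤ 6 * κ ^ 2 * (C * (δ ^ a + k' x)) :=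
      mul_le_mul_of_nonneg_right h6 h3.le
    have h8 : 0 ≤ κ ^ 2 * (C * (δ ^ a + k' x)) := by positivity
    nlinarith
  · intro x u t
    rw [sum_apply']
    refine (Finset.abs_sum_le_sum_abs _ _).trans ?_
    have h1 : ∑ i, |w i * pull (d := d) (Ψ i) σ x ![u, t]| ≤
        ∑ i, w i * (δ ^ (-a) * (4 * (C * (δ ^ a + k (Ψ i x)))) * nm F x u * nm F x t) := by
      refine Finset.sum_le_sum fun i _ => ?_
      rw [abs_mul, abs_of_nonneg (hw0 i)]
      exact mul_le_mul_of_nonneg_left ((hlow i x).2 u t) (hw0 i)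
    refine h1.trans ?_
    have h2 : ∑ i, w i * (δ ^ (-a) * (4 * (C * (δ ^ a + k (Ψ i x)))) * nm F x u * nm F x t) =
        δ ^ (-a) * (4 * (C * (δ ^ a + k' x))) * nm F x u * nm F x t := by
      have e1 : ∀ i, w i * (δ ^ (-a) * (4 * (C * (δ ^ a + k (Ψ i x)))) * nm F x u * nm F x t) =
          (w i * (C * (δ ^ a + k (Ψ i x)))) * (4 * δ ^ (-a) * nm F x u * nm F x t) :=
        fun i => by ring
      rw [Finset.sum_congr rfl fun i _ => e1 i, ← Finset.sum_mul, hsumG]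
      ring
    rw [h2]
    have h3 : 0 < δ ^ a + k' x := add_pos_of_pos_of_nonneg hδa0 (hk'0 x)
    refine mul_le_mul_of_nonneg_right (mul_le_mul_of_nonneg_right
      (mul_le_mul_of_nonneg_left ?_ hδna.le) (hnn _ _)) (hnn _ _)
    have h4 : 4 * C ≤ 12 * κ ^ 2 * C := by nlinarith [mul_le_mul hκ1 hκ1 zero_le_one hκ0.le]
    nlinarith
  · intro x s
    have hmk : ∀ i, Measurable fun y => ENNReal.ofReal (k (Ψ i y)) := fun i =>
      ENNReal.measurable_ofReal.comp (hS.cont.comp (hΨs i).continuous).measurable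
    have h1 : ∫⁻ y in FB F x s, ENNReal.ofReal (k' y) ∂(area d F) =
        ∑ i, ENNReal.ofReal (w i) * ∫⁻ y in FB F x s, ENNReal.ofReal (k (Ψ i y)) ∂(area d F) := by
      simp only [hofk]
      rw [lintegral_finsetSum _ fun i _ => (hmk i).const_mul _]
      exact Finset.sum_congr rfl fun i _ => lintegral_const_mul _ (hmk i)
    rw [h1]
    have h2 : ∀ i, ∫⁻ y in FB F x s, ENNReal.ofReal (k (Ψ i y)) ∂(area d F) ≤
        ENNReal.ofReal (κ * C) *
          ∫⁻ y in FB F x (s + κ * δ + C * δ), ENNReal.ofReal (k₀ y) ∂(area d F) := by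
      intro i
      refine (comp_lintegral hF.continuous hFi (hΨs i).continuous (hΨa i)
        (B := FB F x (s + κ * δ)) (fun y hy => ?_)
        (ENNReal.measurable_ofReal.comp hS.cont.measurable)).trans ?_
      · exact FB_sub F (x := x) (y := y) (s := κ * δ) (t := s) hy (hΨd i y) |> fun h => by
          rw [add_comm] at h
          exact h
      · have h3 := hS.int x (s + κ * δ)
        calc _ ≤ (2 : ℝ≥0∞) ^ (d : ℝ) * (ENNReal.ofReal C *
              ∫⁻ y in FB F x (s + κ * δ + C * δ), ENNReal.ofReal (k₀ y) ∂(area d F)) :=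
              mul_le_mul_right h3 _
          _ ≤ _ := by
              rw [← mul_assoc, ENNReal.ofReal_mul hκ0.le]
              refine mul_le_mul_left (mul_le_mul_left ?_ _) _
              rw [ENNReal.rpow_natCast]
              have : (2 : ℝ≥0∞) ^ d = ENNReal.ofReal (2 ^ d) := by
                rw [ENNReal.ofReal_pow (by norm_num)]
                norm_num
              rw [this]
              exact ENNReal.ofReal_le_ofReal hC.two
    calc _ ≤ ∑ i, ENNReal.ofReal (w i) * (ENNReal.ofReal (κ * C) *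
          ∫⁻ y in FB F x (s + κ * δ + C * δ), ENNReal.ofReal (k₀ y) ∂(area d F)) :=
          Finset.sum_le_sum fun i _ => mul_le_mul_right (h2 i) _
      _ = ENNReal.ofReal (κ * C) *
          ∫⁻ y in FB F x (s + κ * δ + C * δ), ENNReal.ofReal (k₀ y) ∂(area d F) := by
          rw [← Finset.sum_mul, hofw, one_mul]
      _ ≤ _ := by
          refine mul_le_mul' (ENNReal.ofReal_le_ofReal hbig3) (lintegral_mono_set (FB_mono F ?_))
          nlinarith
  · intro x hx
    rcases hK' x hx with h | ⟨h1, h2⟩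
    · rw [hofk]
      have h2 : ∀ i, ENNReal.ofReal (k (Ψ i x)) ≤ ENNReal.ofReal (C * (δ ^ d)⁻¹) *
          ∫⁻ y in FB F x (C * δ + κ * δ), ENNReal.ofReal (k₀ y) ∂(area d F) +
          ENNReal.ofReal e := by
        intro i
        refine (hS.pt (Ψ i x) (h _ (hΨd i x))).trans ?_
        refine add_le_add (mul_le_mul_right (lintegral_mono_set (FB_sub F (hΨd i x))) _) le_rfl
      calc _ ≤ ∑ i, ENNReal.ofReal (w i) * (ENNReal.ofReal (C * (δ ^ d)⁻¹) *
            ∫⁻ y in FB F x (C * δ + κ * δ), ENNReal.ofReal (k₀ y) ∂(area d F) +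
            ENNReal.ofReal e) := Finset.sum_le_sum fun i _ => mul_le_mul_right (h2 i) _
        _ = ENNReal.ofReal (C * (δ ^ d)⁻¹) *
            ∫⁻ y in FB F x (C * δ + κ * δ), ENNReal.ofReal (k₀ y) ∂(area d F) +
            ENNReal.ofReal e := by rw [← Finset.sum_mul, hofw, one_mul]
        _ ≤ _ := by
            refine add_le_add (mul_le_mul' (ENNReal.ofReal_le_ofReal ?_)
              (lintegral_mono_set (FB_mono F ?_))) (ENNReal.ofReal_le_ofReal (by linarith))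
            · exact mul_le_mul_of_nonneg_right hbig (by positivity)
            · nlinarith
    · have h3 := havg x
      rw [hk']
      have h4 : ENNReal.ofReal ((fun x => ∑ i, w i * k (Ψ i x)) x) =
          ENNReal.ofReal (∑ i, w i * k (tr hr z (v i) x)) := by rw [hΨ]
      rw [h4]
      refine h3.trans ?_
      refine add_le_add ?_ (ENNReal.ofReal_le_ofReal (by linarith))
      have h5 := push_lintegral hF.continuous hFi hr hC.geo hδr h1 h2
        (g := fun y => ENNReal.ofReal (k y)) (ENNReal.measurable_ofReal.comp hS.cont.measurable)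
      have h6 := hS.int x (L * δ)
      have h7 : μH[(d : ℝ)] (Metric.closedBall (0 : E d) δ) = ENNReal.ofReal (δ ^ d) *
          μH[(d : ℝ)] (Metric.closedBall (0 : E d) 1) := by
        rw [Measure.addHaar_closedBall' _ _ hδ0.le, finrank_euclideanSpace_fin]
      have h8 : (μH[(d : ℝ)] (Metric.closedBall (0 : E d) δ))⁻¹ * ENNReal.ofReal L ^ (d : ℝ) ≤
          ENNReal.ofReal (κ * (δ ^ d)⁻¹) := by
        have hpos : 0 < δ ^ d := by positivity
        rw [h7, ENNReal.mul_inv (Or.inl (ENNReal.ofReal_pos.2 hpos).ne')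
          (Or.inl ENNReal.ofReal_ne_top), ← ENNReal.ofReal_inv_of_pos hpos, mul_comm κ,
          ENNReal.ofReal_mul (by positivity), mul_assoc]
        refine mul_le_mul_right ?_ _
        rw [mul_comm]
        exact hC.dens
      calc _ ≤ (μH[(d : ℝ)] (Metric.closedBall (0 : E d) δ))⁻¹ * (ENNReal.ofReal L ^ (d : ℝ) *
            ∫⁻ y in FB F x (L * δ), ENNReal.ofReal (k y) ∂(area d F)) := mul_le_mul_right h5 _
        _ = ((μH[(d : ℝ)] (Metric.closedBall (0 : E d) δ))⁻¹ * ENNReal.ofReal L ^ (d : ℝ)) *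
            ∫⁻ y in FB F x (L * δ), ENNReal.ofReal (k y) ∂(area d F) := by rw [mul_assoc]
        _ ≤ ENNReal.ofReal (κ * (δ ^ d)⁻¹) * (ENNReal.ofReal C *
            ∫⁻ y in FB F x (L * δ + C * δ), ENNReal.ofReal (k₀ y) ∂(area d F)) :=
            mul_le_mul' h8 h6
        _ = ENNReal.ofReal (κ * (δ ^ d)⁻¹ * C) *
            ∫⁻ y in FB F x (L * δ + C * δ), ENNReal.ofReal (k₀ y) ∂(area d F) := by
            rw [← mul_assoc, ← ENNReal.ofReal_mul (by positivity)]
        _ ≤ _ := by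
            refine mul_le_mul' (ENNReal.ofReal_le_ofReal ?_) (lintegral_mono_set (FB_mono F ?_))
            · have : κ * (δ ^ d)⁻¹ * C = κ * C * (δ ^ d)⁻¹ := by ring
              rw [this]
              exact mul_le_mul_of_nonneg_right hbig3 (by positivity)
            · have := hC.L_le
              nlinarith

end

end Pool.Agent.H33.TM
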