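import Pool.Graph.R_pool_sql_team_seeded_3997aac3.Q235.SQ.LowPt
import Pool.Graph.R_seed8.Y604.SY.Pull

/-!
# Cut-off translations in a chart
-/

set_option autoImplicit false

open Set Filter Topology MeasureTheory
open scoped Manifold ContDiff

noncomputable section

namespace Pool.Agent.H33.TM

open Pool.Agent.Y501.SY Pool.Agent.Y455.SY Pool.Agent.Q235.SZ

section

variable {d m : ℕ} {X : Type} [TopologicalSpace X] [ChartedSpace (E d) X]

/-- the cut-off function: one on the ball of radius `2 r`, zero outside the ball of radius `4 r` -/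
def bump {r : ℝ} (hr : 0 < r) (p₀ : E d) : ContDiffBump p₀ :=
  ⟨2 * r, 4 * r, by linarith, by linarith⟩

/-- the translation by `v`, cut off, in the chart -/
def sh {r : ℝ} (hr : 0 < r) (p₀ v p : E d) : E d := p + bump hr p₀ p • v

theorem sh_inner {r : ℝ} (hr : 0 < r) (p₀ v : E d) {p : E d} (hp : p ∈ Metric.closedBall p₀ (2 * r)) :
    sh hr p₀ v p = p + v := by
  unfold sh
  rw [(bump hr p₀).one_of_mem_closedBall hp, one_smul]

theorem sh_outer {r : ℝ} (hr : 0 < r) (p₀ v : E d) {p : E d} (hp : p ∉ Metric.ball p₀ (4 * r)) :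
    sh hr p₀ v p = p := by
  unfold sh
  have h : bump hr p₀ p = 0 := (bump hr p₀).zero_of_le_dist (by
    rw [Metric.mem_ball, not_lt] at hp
    exact hp)
  rw [h, zero_smul, add_zero]

theorem sh_sub_norm {r : ℝ} (hr : 0 < r) (p₀ v p : E d) : ‖sh hr p₀ v p - p‖ ≤ ‖v‖ := by
  unfold sh
  rw [add_sub_cancel_left, norm_smul, Real.norm_eq_abs, abs_of_nonneg (bump hr p₀).nonneg]
  exact mul_le_of_le_one_left (norm_nonneg _) (bump hr p₀).le_one

theorem sh_mem {r : ℝ} (hr : 0 < r) (p₀ : E d) {v p : E d} (hv : ‖v‖ ≤ r) {T : Set (E d)}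
    (hT : Metric.closedBall p₀ (8 * r) ⊆ T) (hp : p ∈ T) : sh hr p₀ v p ∈ T := by
  by_cases h : p ∈ Metric.ball p₀ (4 * r)
  · apply hT
    rw [Metric.mem_closedBall, dist_eq_norm]
    rw [Metric.mem_ball, dist_eq_norm] at h
    have h1 := sh_sub_norm hr p₀ v p
    have h2 := norm_sub_le_norm_sub_add_norm_sub (sh hr p₀ v p) p p₀
    linarith
  · rwa [sh_outer hr p₀ v h]

theorem sh_contDiff {r : ℝ} (hr : 0 < r) (p₀ v : E d) : ContDiff ℝ ∞ (sh hr p₀ v) := by
  unfold sh
  exact contDiff_id.add ((bump hr p₀).contDiff.smul contDiff_const)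

open Classical in
/-- the cut-off translation on the manifold -/
def tr {r : ℝ} (hr : 0 < r) (z : X) (v : E d) (x : X) : X :=
  if x ∈ (chartAt (E d) z).source then
    (chartAt (E d) z).symm (sh hr (chartAt (E d) z z) v (chartAt (E d) z x)) else x

theorem tr_of_mem {r : ℝ} (hr : 0 < r) (z : X) (v : E d) {x : X}
    (hx : x ∈ (chartAt (E d) z).source) :
    tr hr z v x = (chartAt (E d) z).symm (sh hr (chartAt (E d) z z) v (chartAt (E d) z x)) :=
  if_pos hx

theorem tr_of_not_mem {r : ℝ} (hr : 0 < r) (z : X) (v : E d) {x : X}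
    (hx : x ∉ (chartAt (E d) z).source) : tr hr z v x = x := if_neg hx

variable (d) in
/-- the compact set outside which the translation is the identity -/
def core (r : ℝ) (z : X) : Set X :=
  (chartAt (E d) z).symm '' Metric.closedBall (chartAt (E d) z z) (4 * r)

theorem core_compact {r : ℝ} (hr : 0 < r) {z : X}
    (ht : Metric.closedBall (chartAt (E d) z z) (8 * r) ⊆ (chartAt (E d) z).target) :
    IsCompact (core d r z) :=
  (isCompact_closedBall _ _).image_of_continuousOn ((chartAt (E d) z).continuousOn_symm.mono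
    ((Metric.closedBall_subset_closedBall (by linarith)).trans ht))

theorem tr_of_not_core {r : ℝ} (hr : 0 < r) {z : X} (v : E d) {x : X} (hx : x ∉ core d r z) :
    tr hr z v x = x := by
  by_cases h : x ∈ (chartAt (E d) z).source
  · rw [tr_of_mem hr z v h, sh_outer hr, (chartAt (E d) z).left_inv h]
    intro h2
    exact hx ⟨_, Metric.ball_subset_closedBall h2, (chartAt (E d) z).left_inv h⟩
  · exact tr_of_not_mem hr z v h

theorem core_mem {r : ℝ} (hr : 0 < r) {z : X}
    (ht : Metric.closedBall (chartAt (E d) z z) (8 * r) ⊆ (chartAt (E d) z).target) {x : X}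
    (hx : x ∈ core d r z) : x ∈ (chartAt (E d) z).source ∧
      chartAt (E d) z x ∈ Metric.closedBall (chartAt (E d) z z) (4 * r) := by
  obtain ⟨p, hp, rfl⟩ := hx
  have hpt : p ∈ (chartAt (E d) z).target :=
    ht (Metric.closedBall_subset_closedBall (by linarith) hp)
  refine ⟨(chartAt (E d) z).map_target hpt, ?_⟩
  rwa [(chartAt (E d) z).right_inv hpt]

variable [IsManifold (𝓡 d) ∞ X]

theorem tr_smooth [T2Space X] {r : ℝ} (hr : 0 < r) {z : X}
    (ht : Metric.closedBall (chartAt (E d) z z) (8 * r) ⊆ (chartAt (E d) z).target) {v : E d}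
    (hv : ‖v‖ ≤ r) : ContMDiff (𝓡 d) (𝓡 d) ∞ (tr hr z v : X → X) := by
  intro x
  by_cases h : x ∈ (chartAt (E d) z).source
  · have h1 : ContMDiffOn (𝓡 d) (𝓡 d) ∞ ((chartAt (E d) z).symm ∘
        (sh hr (chartAt (E d) z z) v) ∘ (chartAt (E d) z)) (chartAt (E d) z).source := by
      refine ContMDiffOn.comp (t := (chartAt (E d) z).target) contMDiffOn_chart_symm
        (ContMDiffOn.comp (t := univ) ?_ contMDiffOn_chart fun _ _ => mem_univ _) ?_
      · exact (sh_contDiff hr _ v).contMDiff.contMDiffOn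
      · intro y hy
        exact sh_mem hr _ hv ht ((chartAt (E d) z).map_source hy)
    refine ((h1.contMDiffAt ((chartAt (E d) z).open_source.mem_nhds h))).congr_of_eventuallyEq ?_
    filter_upwards [(chartAt (E d) z).open_source.mem_nhds h] with y hy
    exact tr_of_mem hr z v hy
  · have hx : x ∉ core d r z := fun hx => h (core_mem hr ht hx).1
    have h1 : (core d r z)ᶜ ∈ 𝓝 x := (core_compact hr ht).isClosed.isOpen_compl.mem_nhds hx
    refine (contMDiffAt_id (M := X)).congr_of_eventuallyEq ?_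
    filter_upwards [h1] with y hy
    exact tr_of_not_core hr v hy

end

end Pool.Agent.H33.TM
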